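import Pool.Agent.Lib.MP_3dbc4a_an_WO.OBas

/-!
# MP_3dbc4a_an, project W, block T: comparison of two true orbits in the same windows
-/

set_option autoImplicit false

open Filter Set
open scoped Topology

namespace Pool.Agent.WildW

/-- windows lie in `[-3h, 3 - 12h]` (from `Wp_sub`) -/
theorem W_bd (c : Lt) {x : ℝ} (hx : x ∈ c.W) : -(3 * h) ≤ x ∧ x ≤ 3 - 12 * h := by
  have h0 := h_pos
  have h1 := c.lo_lt_hi
  have h2 : c.lo - h ∈ c.Wp := ⟨le_rfl, by linarith⟩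
  have h3 : c.hi + h ∈ c.Wp := ⟨by linarith, le_rfl⟩
  have h4 := Wp_sub c h2
  have h5 := Wp_sub c h3
  exact ⟨by linarith [h4.1, hx.1], by linarith [h5.2, hx.2]⟩

/-- two points of windows differ by at most `4` (from `W_bd`) -/
theorem W_diff {c c' : Lt} {x y : ℝ} (hx : x ∈ c.W) (hy : y ∈ c'.W) : |x - y| ≤ 4 := by
  have h1 := W_bd c hx
  have h2 := W_bd c' hy
  have h3 := h_pos
  rw [abs_le]
  constructor <;> linarith [h1.1, h1.2, h2.1, h2.2]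

theorem cmp_eps : eps ≤ 1 / 2 := by
  have e1 := eps_le_b
  have e2 : b / 2 ^ 800 ≤ b := div_le_self b_pos.le (one_le_pow₀ (by norm_num))
  have e3 : b ≤ 1 / 2 := by
    unfold b
    norm_num
  linarith

/-- secants of `P` on a plain window: mean value theorem, `P1 ≥ sl - eps ≥ 3 * 2^18 - 1`
(`pl1`, `Pl.sl_lo`; the window is convex and lies in `Wp`, `OB.W_sub_Wp`; see `OB.dd_pl`). -/
theorem secant (F : Fam) {a : Fin 8 → ℝ} (ha : Cube a) (c : Pl) {x y : ℝ}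
    (hx : x ∈ (Lt.p c).W) (hy : y ∈ (Lt.p c).W) (hxy : x ≤ y) :
    (3 * 2 ^ 18 - 1) * (y - x) ≤ F.P a y - F.P a x := by
  obtain ⟨q, h1, -, h2⟩ := OB.dd_pl F ha c hy hx
  rw [h1]
  have h3 := abs_le.1 h2
  have h4 := c.sl_lo
  have h5 := cmp_eps
  exact mul_le_mul_of_nonneg_right (by linarith) (by linarith)

/-- one step: `(3 * 2^18 - 1) |D_m| ≤ |P(y_m) - P(x_m)| = |D_{m+1} + b D_{m-1}|` -/
theorem orb_pli (F : Fam) {a : Fin 8 → ℝ} (ha : Cube a) (c : Pl) {x y : ℤ → ℝ} {m : ℤ}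
    (hx : x m ∈ (Lt.p c).W) (hy : y m ∈ (Lt.p c).W)
    (tx : F.P a (x m) = x (m + 1) + b * x (m - 1))
    (ty : F.P a (y m) = y (m + 1) + b * y (m - 1)) :
    |y m - x m| ≤ 7 / 10 / 2 ^ 19 * (|y (m + 1) - x (m + 1)| + b * |y (m - 1) - x (m - 1)|) := by
  obtain ⟨q, h1, -, h2⟩ := OB.dd_pl F ha c hy hx
  have h3 := abs_le.1 h2
  have h4 := c.sl_lo
  have h5 := cmp_eps
  have hq : 3 * 2 ^ 18 - 1 ≤ q := by linarith
  have hb := b_pos
  have h6 : q * (y m - x m) = (y (m + 1) - x (m + 1)) + b * (y (m - 1) - x (m - 1)) := by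
    rw [← h1, tx, ty]
    ring
  have h7 : (3 * 2 ^ 18 - 1) * |y m - x m| ≤
      |y (m + 1) - x (m + 1)| + b * |y (m - 1) - x (m - 1)| := by
    calc (3 * 2 ^ 18 - 1) * |y m - x m| ≤ q * |y m - x m| :=
          mul_le_mul_of_nonneg_right hq (abs_nonneg _)
      _ = |q * (y m - x m)| := by
          rw [abs_mul, abs_of_pos (lt_of_lt_of_le (by norm_num) hq)]
      _ ≤ |y (m + 1) - x (m + 1)| + |b * (y (m - 1) - x (m - 1))| := by
          rw [h6]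
          exact abs_add_le _ _
      _ = _ := by rw [abs_mul, abs_of_pos hb]
  have h8 : |y m - x m| ≤ 1 / (3 * 2 ^ 18 - 1) *
      (|y (m + 1) - x (m + 1)| + b * |y (m - 1) - x (m - 1)|) := by
    rw [div_mul_eq_mul_div, le_div_iff₀ (by norm_num)]
    linarith
  refine h8.trans (mul_le_mul_of_nonneg_right (by norm_num) ?_)
  have := abs_nonneg (y (m + 1) - x (m + 1))
  have := mul_nonneg hb.le (abs_nonneg (y (m - 1) - x (m - 1)))
  linarith

/-- **orb_cmp**. `barrier` (IfaceI) with `c = 0` for `E m = |y m - x m|` if `N₁ ≤ m ≤ N₂`, `0` otherwise. -/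
theorem orb_cmp (F : Fam) {a : Fin 8 → ℝ} (ha : Cube a) {x y : ℤ → ℝ} {N₁ N₂ : ℤ} {A B : ℝ}
    (hA : 0 ≤ A) (hB : 0 ≤ B)
    (hw : ∀ m, N₁ < m → m < N₂ → ∃ c : Pl, x m ∈ (Lt.p c).W ∧ y m ∈ (Lt.p c).W)
    (hx : ∀ m, N₁ < m → m < N₂ → F.P a (x m) = x (m + 1) + b * x (m - 1))
    (hy : ∀ m, N₁ < m → m < N₂ → F.P a (y m) = y (m + 1) + b * y (m - 1))
    (h1 : |y N₁ - x N₁| ≤ A) (h2 : |y N₂ - x N₂| ≤ B) {m : ℤ} (hm1 : N₁ ≤ m) (hm2 : m ≤ N₂) :
    |y m - x m| ≤ A * (1 / 2 ^ 119) ^ (m - N₁).toNat + B * (1 / 2 ^ 19) ^ (N₂ - m).toNat := by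
  classical
  have hN : N₁ ≤ N₂ := hm1.trans hm2
  set E : ℤ → ℝ := fun m ↦ if N₁ ≤ m ∧ m ≤ N₂ then |y m - x m| else 0 with hE
  have hin : ∀ m, N₁ ≤ m → m ≤ N₂ → E m = |y m - x m| := fun m h h' ↦ if_pos ⟨h, h'⟩
  have := barrier (E := E) (N₁ := N₁) (N₂ := N₂) (A := A) (B := B) (c := 0) hA hB le_rfl
    (fun m ↦ by
      simp only [hE]
      split_ifs
      · exact abs_nonneg _
      · exact le_rfl)
    (fun m h h' ↦ by
      rw [hin m h.le h'.le, hin (m + 1) (by omega) (by omega), hin (m - 1) (by omega) (by omega),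
        add_zero]
      obtain ⟨c, hc, hc'⟩ := hw m h h'
      exact orb_pli F ha c hc hc' (hx m h h') (hy m h h'))
    (by rwa [hin N₁ le_rfl hN]) (by rwa [hin N₂ hN le_rfl]) hm1 hm2
  rwa [hin m hm1 hm2, add_zero] at this

/-- **order**. Put `D = y - x`, `D_0 = 0`. If `D_1 < 0`, then `D_{n+1} < 0` and `|D_n| ≤ |D_{n+1}|` for
`n = 0..l` by induction: `D_{n+1} = (P(y_n) - P(x_n)) - b D_{n-1} ≤ (3 * 2^18 - 1) D_n + b |D_n| ≤ D_n`
(`secant` with `y_n ≤ x_n`). So `D_{l+1} < 0`. -/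
theorem ord_first (F : Fam) {a : Fin 8 → ℝ} (ha : Cube a) {x y : ℤ → ℝ} {l : ℕ}
    (hw : ∀ m : ℤ, 1 ≤ m → m ≤ l → ∃ c : Pl, x m ∈ (Lt.p c).W ∧ y m ∈ (Lt.p c).W)
    (hx : ∀ m : ℤ, 1 ≤ m → m ≤ l → F.P a (x m) = x (m + 1) + b * x (m - 1))
    (hy : ∀ m : ℤ, 1 ≤ m → m ≤ l → F.P a (y m) = y (m + 1) + b * y (m - 1))
    (h0 : x 0 = y 0) (hl : x (l + 1) ≤ y (l + 1)) : x 1 ≤ y 1 := by
  by_contra hcon
  have h1 : y 1 - x 1 < 0 := by linarith [not_le.1 hcon]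
  have key : ∀ n : ℕ, n ≤ l → y ((n : ℤ) + 1) - x ((n : ℤ) + 1) < 0 ∧
      y ((n : ℤ) + 1) - x ((n : ℤ) + 1) ≤ y n - x n ∧ y n - x n ≤ 0 := by
    intro n
    induction n with
    | zero =>
      intro _
      have e0 : y 0 - x 0 = 0 := by rw [h0]; ring
      simp only [Nat.cast_zero, zero_add]
      refine ⟨h1, ?_, e0.le⟩
      rw [e0]
      exact h1.le
    | succ n ih =>
      intro hn
      obtain ⟨i1, i2, i3⟩ := ih (by omega)
      have hm1 : (1 : ℤ) ≤ (n : ℤ) + 1 := by omega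
      have hm2 : (n : ℤ) + 1 ≤ l := by exact_mod_cast hn
      obtain ⟨c, hc, hc'⟩ := hw _ hm1 hm2
      have e1 := hx _ hm1 hm2
      have e2 := hy _ hm1 hm2
      have e3 := secant F ha c hc' hc (by linarith)
      rw [e1, e2, show (n : ℤ) + 1 - 1 = n by ring] at e3
      have hb := b_pos
      have hb1 := b_lt_one
      have e4 : b * (y n - x n) ≥ b * (y ((n : ℤ) + 1) - x ((n : ℤ) + 1)) :=
        mul_le_mul_of_nonneg_left i2 hb.le
      have e5 : b * (y ((n : ℤ) + 1) - x ((n : ℤ) + 1)) ≥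
          1 * (y ((n : ℤ) + 1) - x ((n : ℤ) + 1)) := by
        nlinarith
      push_cast
      refine ⟨?_, ?_, i1.le⟩
      · linarith
      · linarith
  have := (key l le_rfl).1
  linarith

end Pool.Agent.WildW
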