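import Pool.Agent.Lib.MP_3dbc4a_an_WO.ODefs
import Pool.Agent.Lib.MP_3dbc4a_an_WP.Num

/-!
# MP_3dbc4a_an, project W, block T (transitive set): definitions

States are pairs `z = (x_n, x_{n-1})`; `f = F.map a`, `f z = (P(z.1) - b z.2, z.1)`.
A path is a function `u : ℝ → ℝ × ℝ` on an interval `[al, be]`.
-/

set_option autoImplicit false

open Filter Set
open scoped Topology

namespace Pool.Agent.WildW

/-! ### the map -/

theorem Fam.P_cont (F : Fam) (a : Fin 8 → ℝ) : Continuous (F.P a) :=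
  continuous_iff_continuousAt.2 fun x => (F.hP a x).continuousAt

theorem Fam.map_cont (F : Fam) (a : Fin 8 → ℝ) : Continuous (F.map a) := by
  unfold Fam.map
  have h1 := F.P_cont a
  fun_prop

theorem Fam.map_inj (F : Fam) (a : Fin 8 → ℝ) : Function.Injective (F.map a) := by
  intro z w hzw
  unfold Fam.map at hzw
  have h1 := congrArg Prod.fst hzw
  have h2 := congrArg Prod.snd hzw
  simp only at h1 h2
  rw [h2] at h1
  have h3 : b * (z.2 - w.2) = 0 := by linarith
  rcases mul_eq_zero.1 h3 with h4 | h4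
  · exact absurd h4 b_pos.ne'
  · exact Prod.ext h2 (by linarith)

theorem Fam.map_snd (F : Fam) (a : Fin 8 → ℝ) (z : ℝ × ℝ) : (F.map a z).2 = z.1 := rfl

theorem Fam.map_fst (F : Fam) (a : Fin 8 → ℝ) (z : ℝ × ℝ) :
    (F.map a z).1 = F.P a z.1 - b * z.2 := rfl

/-- the sequence of positions of the orbit of `z`: `ob z n = x_n` for `n ≥ -1` -/
noncomputable def ob (F : Fam) (a : Fin 8 → ℝ) (z : ℝ × ℝ) (n : ℤ) : ℝ :=
  if 0 ≤ n then ((F.map a)^[n.toNat] z).1 else z.2

theorem ob_nat (F : Fam) (a : Fin 8 → ℝ) (z : ℝ × ℝ) (n : ℕ) :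
    ob F a z n = ((F.map a)^[n] z).1 := by
  unfold ob
  simp

theorem ob_prev (F : Fam) (a : Fin 8 → ℝ) (z : ℝ × ℝ) (n : ℕ) :
    ob F a z ((n : ℤ) - 1) = ((F.map a)^[n] z).2 := by
  unfold ob
  cases n with
  | zero => simp
  | succ n =>
    have h1 : (0 : ℤ) ≤ ((n + 1 : ℕ) : ℤ) - 1 := by push_cast; omega
    rw [if_pos h1]
    have h2 : (((n + 1 : ℕ) : ℤ) - 1).toNat = n := by push_cast; omega
    rw [h2, Function.iterate_succ_apply', Fam.map_snd]

theorem ob_state (F : Fam) (a : Fin 8 → ℝ) (z : ℝ × ℝ) (n : ℕ) :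
    (F.map a)^[n] z = (ob F a z n, ob F a z ((n : ℤ) - 1)) :=
  Prod.ext (ob_nat F a z n).symm (ob_prev F a z n).symm

theorem ob_true (F : Fam) (a : Fin 8 → ℝ) (z : ℝ × ℝ) {n : ℤ} (hn : 0 ≤ n) :
    F.P a (ob F a z n) = ob F a z (n + 1) + b * ob F a z (n - 1) := by
  obtain ⟨m, rfl⟩ := Int.eq_ofNat_of_zero_le hn
  have h1 : ((m : ℤ) + 1) = ((m + 1 : ℕ) : ℤ) := by push_cast; rfl
  show F.P a (ob F a z (m : ℤ)) = ob F a z ((m : ℤ) + 1) + b * ob F a z ((m : ℤ) - 1)
  rw [h1, ob_nat, ob_nat, ob_prev, Function.iterate_succ_apply', Fam.map_fst]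
  ring

/-- shifting the starting point of the orbit -/
theorem ob_shift (F : Fam) (a : Fin 8 → ℝ) (z : ℝ × ℝ) (m : ℕ) {n : ℤ} (hn : -1 ≤ n) :
    ob F a ((F.map a)^[m] z) n = ob F a z (n + m) := by
  rcases eq_or_lt_of_le hn with h1 | h1
  · subst h1
    have h2 : ob F a ((F.map a)^[m] z) (-1) = ((F.map a)^[m] z).2 := by
      unfold ob
      simp
    rw [h2, ← ob_prev]
    exact congrArg _ (by ring)
  · obtain ⟨k, rfl⟩ := Int.eq_ofNat_of_zero_le (by omega : 0 ≤ n)
    show ob F a ((F.map a)^[m] z) (k : ℤ) = ob F a z ((k : ℤ) + m)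
    have h2 : ((k : ℤ) + m) = ((k + m : ℕ) : ℤ) := by push_cast; rfl
    rw [h2, ob_nat, ob_nat, Function.iterate_add_apply]

/-! ### words followed by orbits, crossing paths -/

/-- the orbit of `z` follows the word `w` (position `k` in the window of the letter `k`) -/
def Follow (F : Fam) (a : Fin 8 → ℝ) (z : ℝ × ℝ) (w : List Lt) : Prop :=
  ∀ (k : ℕ) (hk : k < w.length), ((F.map a)^[k] z).1 ∈ (w[k]).W

/-- the path `u` on `[al, be]` crosses from `lev` to `3 + h/2`, with bounded second coordinates -/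
structure Cr (u : ℝ → ℝ × ℝ) (al be lev : ℝ) : Prop where
  le : al ≤ be
  cont : ContinuousOn u (Icc al be)
  lft : (u al).1 ≤ lev
  rgt : 3 + h / 2 ≤ (u be).1
  sec : ∀ x ∈ Icc al be, -(1 / 2) ≤ (u x).2 ∧ (u x).2 ≤ 7 / 2

/-- every path crossing `[-3h, 3 + h/2]` contains a subpath following `w` and crossing again
afterwards -/
def Passes (F : Fam) (a : Fin 8 → ℝ) (w : List Lt) : Prop :=
  ∀ (u : ℝ → ℝ × ℝ) (al be : ℝ), Cr u al be (-(3 * h)) →
    ∃ al' be', al ≤ al' ∧ al' ≤ be' ∧ be' ≤ be ∧ (∀ x ∈ Icc al' be', Follow F a (u x) w) ∧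
      Cr (fun x => (F.map a)^[w.length] (u x)) al' be' (-(3 * h))

/-- the level reached after a plain letter -/
noncomputable def lv : Pl → ℝ
  | .f _ => 2 - 2 * h
  | _ => -(3 * h)

/-- admissible plain words with last letter `e` or `g` -/
def PlainTgt (w : List Lt) : Prop :=
  ∃ w0 : List Pl, w = w0.map Lt.p ∧
    w0.IsChain (fun c c' => (∃ j, c = .f j) → (∃ j, c' = .f j) ∨ c' = .g) ∧
    ∀ c ∈ w0.getLast?, ∀ j, c ≠ .f j

/-- words through one fold -/
def FoldTgt (F : Fam) (a : Fin 8 → ℝ) (w : List Lt) : Prop :=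
  ∃ (E : List KA) (i : Fin 8) (B : List KB),
    w = E.reverse.map (fun c => Lt.p (.e c)) ++ (.d i :: (B.map (fun j => Lt.p (.f j)) ++ [.p .g])) ∧
      8 * (1 / 2 ^ 119) ^ E.length < Rr F a i (extE E) (extB B top)

/-! ### the unstable curve of the filler letter -/

/-- past `estar`, pinned at `x` from the index `0` on -/
def ux (x : ℝ) : ℤ → Sym := fun n => if n < 0 then .p (.e estar) else .pin x

/-- the unstable curve is the graph of `phi` -/
noncomputable def phi (F : Fam) (a : Fin 8 → ℝ) (x : ℝ) : ℝ := xs F a (ux x) (-1)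

/-- the unstable curve -/
noncomputable def gam (F : Fam) (a : Fin 8 → ℝ) (x : ℝ) : ℝ × ℝ := (x, phi F a x)

/-- state of the construction: the `n`-th image of `gam [al, be]` crosses, with bounded positions -/
structure St (F : Fam) (a : Fin 8 → ℝ) (al be : ℝ) (n : ℕ) : Prop where
  le : al ≤ be
  lo : -(3 * h) ≤ al
  hi : be ≤ 3 + h / 2
  lft : ((F.map a)^[n] (gam F a al)).1 ≤ -(3 * h)
  rgt : 3 + h / 2 ≤ ((F.map a)^[n] (gam F a be)).1
  bd : ∀ x ∈ Icc al be, ∀ j ≤ n, -(1 / 2) < ((F.map a)^[j] (gam F a x)).2 ∧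
    ((F.map a)^[j] (gam F a x)).2 < 7 / 2

/-! ### the boundary value problem behind a fold -/

/-- pinned at `y` up to `0`, then the letters `B`, then `g`, then pinned at `ze` -/
def upsi (B : List KB) (y ze : ℝ) : ℤ → Sym := fun n =>
  if n ≤ 0 then .pin y
  else if n ≤ B.length then .p (.f (extB B mid (n - 1).toNat))
  else if n = B.length + 1 then .p .g else .pin ze

/-- position behind the fold -/
noncomputable def psi (F : Fam) (a : Fin 8 → ℝ) (B : List KB) (y ze : ℝ) : ℝ :=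
  xs F a (upsi B y ze) 1

end Pool.Agent.WildW
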