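import Pool.Agent.Lib.MP_3dbc4a_an_WO.AdmSf
import Pool.Agent.Lib.MP_3dbc4a_an_WT.Cmp
import Pool.Agent.Lib.MP_3dbc4a_an_WT.Defs

/-!
# MP_3dbc4a_an, project W, block T: the past of a path before a fold
-/

set_option autoImplicit false

open Filter Set
open scoped Topology

namespace Pool.Agent.WildW

private theorem hist_win (F : Fam) {a : Fin 8 → ℝ} (E : List KA) {z : ℝ × ℝ}
    (hf : Follow F a z (E.reverse.map (fun c => Lt.p (.e c)))) {k : ℕ} (hk : k < E.length) :
    ob F a z (E.length + (-(k : ℤ) - 1)) ∈ (Lt.p (.e (extE E k))).W := by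
  have h1 : (E.length : ℤ) + (-(k : ℤ) - 1) = ((E.length - 1 - k : ℕ) : ℤ) := by omega
  have h2 : E.length - 1 - k < (E.reverse.map (fun c => Lt.p (.e c))).length := by
    rw [List.length_map, List.length_reverse]
    omega
  have h3 := hf (E.length - 1 - k) h2
  rw [List.getElem_map, List.getElem_reverse] at h3
  rw [h1, ob_nat, OB.extE_lt hk]
  have h4 : E.length - 1 - (E.length - 1 - k) = k := by omega
  simpa only [h4] using h3

/-- **fold_hist**. `y_n = ob z (|E| + n)` and `x_n` = solution of `s* = sf i (extE E) (extB B top)`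
for
`-|E| - 1 ≤ n ≤ 0`: `D_0 = 0`, `|D_{-|E|-1}| ≤ 4`, the same windows in between (`y_{-k-1}` is in the
window of `E[k]`), `orb_cmp` on `(-|E| - 1, 0)` at `-1`. -/
theorem fold_hist (F : Fam) {a : Fin 8 → ℝ} (ha : Cube a) (E : List KA) (i : Fin 8) (B : List KB)
    {z : ℝ × ℝ} (hz : -(1 / 2) ≤ z.2 ∧ z.2 ≤ 7 / 2)
    (hf : Follow F a z (E.reverse.map (fun c => Lt.p (.e c))))
    (hx : ((F.map a)^[E.length] z).1 = xs F a (symOf (sf i (extE E) (extB B top))) 0) :
    |((F.map a)^[E.length] z).2 - xs F a (symOf (sf i (extE E) (extB B top))) (-1)| ≤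
      4 * (1 / 2 ^ 119) ^ E.length := by
  have hs := adm_sf i (extE E) (extB B top)
  obtain ⟨s, hs0⟩ : ∃ s, s = sf i (extE E) (extB B top) := ⟨_, rfl⟩
  rw [← hs0] at hs hx ⊢
  have hb := h_pos
  have hh : h ≤ 1 / 8 := h_hi.trans (by norm_num)
  have hidx : ∀ m : ℤ, -(E.length : ℤ) - 1 < m → m < 0 →
      ∃ k : ℕ, k < E.length ∧ m = -(k : ℤ) - 1 := by
    intro m h1 h2
    exact ⟨(-m - 1).toNat, by omega, by omega⟩
  have h := orb_cmp F ha (x := fun m => xs F a (symOf s) m)
    (y := fun m => ob F a z (E.length + m)) (N₁ := -(E.length : ℤ) - 1) (N₂ := 0) (A := 4)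
    (B := 0) (by norm_num) le_rfl
    (fun m h1 h2 => by
      obtain ⟨k, hk, rfl⟩ := hidx m h1 h2
      refine ⟨.e (extE E k), ?_, hist_win F E hf hk⟩
      have h3 := OB.xs_W F ha hs (-(k : ℤ) - 1)
      rwa [hs0, OB.sf_neg, ← hs0] at h3)
    (fun m h1 h2 => by
      obtain ⟨k, hk, rfl⟩ := hidx m h1 h2
      exact OB.xs_eq F ha hs (c := .e (extE E k)) (by rw [hs0, OB.sf_neg]))
    (fun m h1 h2 => by
      have h3 := ob_true F a z (n := E.length + m) (by omega)
      rw [add_assoc, add_sub_assoc] at h3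
      exact h3)
    (by
      have h3 := OB.xs_mem F ha hs (-(E.length : ℤ) - 1)
      have h4 : (E.length : ℤ) + (-(E.length : ℤ) - 1) = ((0 : ℕ) : ℤ) - 1 := by
        push_cast
        ring
      simp only [h4, ob_prev, Function.iterate_zero, id]
      rw [abs_le]
      constructor <;> linarith [h3.1, h3.2, hz.1, hz.2])
    (by
      simp only [add_zero, ob_nat, hx, sub_self, abs_zero, le_refl])
    (m := -1) (by omega) (by norm_num)
  have h5 : (E.length : ℤ) + -1 = (E.length : ℤ) - 1 := by ring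
  have h6 : (-1 - (-(E.length : ℤ) - 1)).toNat = E.length := by omega
  simp only [h5, ob_prev, h6, zero_mul, add_zero] at h
  exact h

end Pool.Agent.WildW
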