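import Mathlib

/-!
# MP_3dbc4a_an, project W, block T: the subinterval lemma
-/

set_option autoImplicit false

open Set

namespace Pool.Agent.WildW

/-- **Subinterval lemma.** Proof. `be = sInf {x ∈ [u, v] : 0 ≤ D2 x}` (closed, contains `v`): `0 ≤ D2 be`,
`D2 < 0` on `[u, be)`. If `be = u`, then `D2 u ≤ D1 u ≤ 0`, so `D1 u = D2 u = 0` and `al = be = u` works.
Otherwise `D2 be = 0` by continuity. `al = sSup {x ∈ [u, be] : D1 x ≤ 0}` (contains `u`): `D1 al ≤ 0`,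
`D1 > 0` on `(al, be]`. If `al < be` then `D1 al = 0` by continuity; if `al = be` then
`0 = D2 be ≤ D1 be = D1 al ≤ 0`. On `[al, be]`: `D1 ≥ 0`, `D2 ≤ 0`. -/
theorem sub_interval {D1 D2 : ℝ → ℝ} {u v : ℝ} (huv : u ≤ v)
    (hc1 : ContinuousOn D1 (Icc u v)) (hc2 : ContinuousOn D2 (Icc u v))
    (hle : ∀ x ∈ Icc u v, D2 x ≤ D1 x) (h1 : D1 u ≤ 0) (h2 : 0 ≤ D2 v) :
    ∃ al be, u ≤ al ∧ al ≤ be ∧ be ≤ v ∧ D1 al = 0 ∧ D2 be = 0 ∧
      ∀ x ∈ Icc al be, 0 ≤ D1 x ∧ D2 x ≤ 0 := by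
  have k2 : IsCompact (Icc u v ∩ D2 ⁻¹' Ici 0) :=
    isCompact_Icc.of_isClosed_subset (hc2.preimage_isClosed_of_isClosed isClosed_Icc isClosed_Ici)
      inter_subset_left
  obtain ⟨be, ⟨hbI, hb0⟩, hbm⟩ := k2.exists_isLeast ⟨v, ⟨huv, le_rfl⟩, h2⟩
  have hbI' : Icc u be ⊆ Icc u v := Icc_subset_Icc le_rfl hbI.2
  have hu0 : D2 u ≤ 0 := (hle u ⟨le_rfl, huv⟩).trans h1
  have hD2 : D2 be = 0 := by
    obtain ⟨c, hc, hc0⟩ := intermediate_value_Icc hbI.1 (hc2.mono hbI')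
      (show (0 : ℝ) ∈ Icc (D2 u) (D2 be) from ⟨hu0, hb0⟩)
    have h3 : be ≤ c := hbm ⟨hbI' hc, hc0.ge⟩
    rw [le_antisymm h3 hc.2, hc0]
  have k1 : IsCompact (Icc u be ∩ D1 ⁻¹' Iic 0) :=
    isCompact_Icc.of_isClosed_subset
      ((hc1.mono hbI').preimage_isClosed_of_isClosed isClosed_Icc isClosed_Iic) inter_subset_left
  obtain ⟨al, ⟨haI, ha0⟩, ham⟩ := k1.exists_isGreatest ⟨u, ⟨le_rfl, hbI.1⟩, h1⟩
  have haI' : Icc al be ⊆ Icc u be := Icc_subset_Icc haI.1 le_rfl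
  have hD1 : D1 al = 0 := by
    obtain ⟨c, hc, hc0⟩ := intermediate_value_Icc haI.2 (hc1.mono (haI'.trans hbI'))
      (show (0 : ℝ) ∈ Icc (D1 al) (D1 be) from ⟨ha0, by
        rw [← hD2]
        exact hle be hbI⟩)
    have h3 : c ≤ al := ham ⟨haI' hc, hc0.le⟩
    rw [le_antisymm hc.1 h3, hc0]
  refine ⟨al, be, haI.1, haI.2, hbI.2, hD1, hD2, fun x hx ↦ ⟨?_, ?_⟩⟩
  · by_contra hn
    have h3 : x ≤ al := ham ⟨haI' hx, (not_le.1 hn).le⟩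
    rw [le_antisymm h3 hx.1, hD1] at hn
    exact hn le_rfl
  · by_contra hn
    have h3 : be ≤ x := hbm ⟨hbI' (haI' hx), (not_le.1 hn).le⟩
    rw [le_antisymm hx.2 h3, hD2] at hn
    exact hn le_rfl

/-- the special case of one function and two levels -/
theorem sub_levels {D : ℝ → ℝ} {u v lo hi : ℝ} (huv : u ≤ v) (hc : ContinuousOn D (Icc u v))
    (hlh : lo ≤ hi) (h1 : D u ≤ lo) (h2 : hi ≤ D v) :
    ∃ al be, u ≤ al ∧ al ≤ be ∧ be ≤ v ∧ D al = lo ∧ D be = hi ∧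
      ∀ x ∈ Icc al be, D x ∈ Icc lo hi := by
  obtain ⟨al, be, h3, h4, h5, h6, h7, h8⟩ := sub_interval (D1 := fun x => D x - lo)
    (D2 := fun x => D x - hi) huv (hc.sub continuousOn_const) (hc.sub continuousOn_const)
    (fun x _ => by linarith) (by linarith) (by linarith)
  refine ⟨al, be, h3, h4, h5, by linarith, by linarith, fun x hx => ?_⟩
  have := h8 x hx
  exact ⟨by linarith [this.1], by linarith [this.2]⟩

end Pool.Agent.WildW
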