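import Pool.Agent.Lib.MP_3dbc4a_an_WT.Cmp
import Pool.Agent.Lib.MP_3dbc4a_an_WT.Defs
import Pool.Agent.Lib.MP_3dbc4a_an_WT.Sub

/-!
# MP_3dbc4a_an, project W, block T: paths follow plain words
-/

set_option autoImplicit false

open Filter Set
open scoped Topology

namespace Pool.Agent.WildW

private theorem lt_num : eps ≤ h ∧ 3 * h ≤ 1 / 8 ∧ 2 ^ 20 * h ≤ b ∧ 0 < h ∧ 0 < b := by
  refine ⟨?_, ?_, mul_h_le_b, h_pos, b_pos⟩
  · have h1 := eps_le_h
    have h2 := h_pos
    have h3 : h / 2 ^ 800 ≤ h := div_le_self h2.le (one_le_pow₀ (by norm_num))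
    linarith
  · have h1 := h_hi
    have h2 : (3 : ℝ) * (1 / 2 ^ 120) ≤ 1 / 8 := by norm_num
    linarith

/-- **One letter.** Proof. `sub_levels` for `x ↦ (u x).1` with the levels `c.lo ≤ c.hi` gives
`[al', be']` with `(u al').1 = c.lo`, `(u be').1 = c.hi`. New path `v = F.map a ∘ u`:
`(v al').1 = P(c.lo) - b (u al').2 ≤ c.bs - b + eps + b/2` (`pl0`, `Pl.aff_lo`), which is `≤ -3h` for
`bs = 0` (`e`, `g`) and `≤ 2 - 2h` for `f` (`2^20 h ≤ b`, `eps_le_h`);
`(v be').1 = P(c.hi) - b (u be').2 ≥ 3 + 4b - eps - 7b/2 ≥ 3 + h/2`. Second coordinates: `(v x).2 = (u x).1`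
in the window, `W_bd`. -/
theorem letter_step (F : Fam) {a : Fin 8 → ℝ} (ha : Cube a) (c : Pl) {u : ℝ → ℝ × ℝ} {al be : ℝ}
    (hle : al ≤ be) (hc : ContinuousOn u (Icc al be)) (hl : (u al).1 ≤ c.lo)
    (hr : c.hi ≤ (u be).1) (hs : ∀ x ∈ Icc al be, -(1 / 2) ≤ (u x).2 ∧ (u x).2 ≤ 7 / 2) :
    ∃ al' be', al ≤ al' ∧ al' ≤ be' ∧ be' ≤ be ∧ (∀ x ∈ Icc al' be', (u x).1 ∈ (Lt.p c).W) ∧
      Cr (fun x => F.map a (u x)) al' be' (lv c) := by
  obtain ⟨n1, n2, n3, n4, n5⟩ := lt_num
  have hc1 : ContinuousOn (fun x => (u x).1) (Icc al be) := continuous_fst.comp_continuousOn hc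
  obtain ⟨al', be', h1, h2, h3, h4, h5, h6⟩ := sub_levels (lo := c.lo) (hi := c.hi) hle hc1
    c.lo_lt_hi.le hl hr
  have hsub : Icc al' be' ⊆ Icc al be := Icc_subset_Icc h1 h3
  have h7 := hs al' ⟨h1, h2.trans h3⟩
  have h8 := hs be' ⟨h1.trans h2, h3⟩
  refine ⟨al', be', h1, h2, h3, h6,
    ⟨h2, ((F.map_cont a).comp_continuousOn (hc.mono hsub)), ?_, ?_, ?_⟩⟩
  · have e0 := F.pl0 a ha c c.lo (OB.W_sub_Wp (Lt.p c) ⟨le_rfl, c.lo_lt_hi.le⟩)
    have e1 := (abs_le.1 e0).2
    rw [c.aff_lo] at e1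
    have e2 : (F.map a (u al')).1 = F.P a (u al').1 - b * (u al').2 := rfl
    have h4' : (u al').1 = c.lo := h4
    rw [e2, h4']
    have e3 : -(b * (u al').2) ≤ b * (1 / 2) := by
      have := mul_le_mul_of_nonneg_left h7.1 n5.le
      linarith
    cases c with
    | e c =>
      simp only [lv, Pl.bs] at e1 ⊢
      linarith
    | f j =>
      simp only [lv, Pl.bs] at e1 ⊢
      linarith
    | g =>
      simp only [lv, Pl.bs] at e1 ⊢
      linarith
  · have e0 := F.pl0 a ha c c.hi (OB.W_sub_Wp (Lt.p c) ⟨c.lo_lt_hi.le, le_rfl⟩)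
    have e1 := (abs_le.1 e0).1
    rw [c.aff_hi] at e1
    have e2 : (F.map a (u be')).1 = F.P a (u be').1 - b * (u be').2 := rfl
    have h5' : (u be').1 = c.hi := h5
    show 3 + h / 2 ≤ (F.map a (u be')).1
    rw [e2, h5']
    have e3 : b * (u be').2 ≤ b * (7 / 2) := mul_le_mul_of_nonneg_left h8.2 n5.le
    linarith
  · intro x hx
    have e1 := W_bd (Lt.p c) (h6 x hx)
    show -(1 / 2) ≤ (u x).1 ∧ (u x).1 ≤ 7 / 2
    constructor
    · have := e1.1
      linarith
    · have := e1.2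
      linarith

/-- the windows start above `-3h`; those of `f`, `g` above `2 - 2h`; all end below `3` -/
theorem lo_hi_bd (c : Pl) : -(3 * h) ≤ c.lo ∧ c.hi ≤ 3 + h / 2 ∧
    ((∃ j, c = .f j) ∨ c = .g → 2 - 2 * h ≤ c.lo) := by
  have n4 := h_pos
  have h1 := W_bd (Lt.p c) (x := c.lo) ⟨le_rfl, c.lo_lt_hi.le⟩
  have h2 := W_bd (Lt.p c) (x := c.hi) ⟨c.lo_lt_hi.le, le_rfl⟩
  refine ⟨h1.1, by linarith [h2.2], ?_⟩
  rintro (⟨j, rfl⟩ | rfl)
  · rw [lo_f]
    have : (0 : ℝ) ≤ (j : ℕ) / 2 ^ 20 := by positivity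
    linarith
  · have h3 := lo_g
    have h4 : 0 < 1 / sg := by
      have := sg_pos
      positivity
    linarith

theorem passes_nil (F : Fam) (a : Fin 8 → ℝ) : Passes F a [] := by
  intro u al be hC
  refine ⟨al, be, le_rfl, hC.le, le_rfl, fun x _ k hk => ?_, ?_⟩
  · simp at hk
  · simpa using hC

theorem passes_append (F : Fam) (a : Fin 8 → ℝ) {w w' : List Lt} (hw : Passes F a w)
    (hw' : Passes F a w') : Passes F a (w ++ w') := by
  intro u al be hC
  obtain ⟨a1, b1, h1, h2, h3, h4, h5⟩ := hw u al be hC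
  obtain ⟨a2, b2, g1, g2, g3, g4, g5⟩ := hw' _ a1 b1 h5
  refine ⟨a2, b2, h1.trans g1, g2, g3.trans h3, fun x hx k hk => ?_, ?_⟩
  · by_cases hk1 : k < w.length
    · rw [List.getElem_append_left hk1]
      exact h4 x ⟨g1.trans hx.1, hx.2.trans g3⟩ k hk1
    · rw [List.getElem_append_right (not_lt.1 hk1)]
      have h6 : k - w.length < w'.length := by
        rw [List.length_append] at hk
        omega
      have h7 := g4 x hx (k - w.length) h6
      rw [← Function.iterate_add_apply] at h7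
      rwa [Nat.sub_add_cancel (not_lt.1 hk1)] at h7
  · have h6 : (fun x => (F.map a)^[(w ++ w').length] (u x)) =
        fun x => (F.map a)^[w'.length] ((F.map a)^[w.length] (u x)) := by
      funext x
      rw [← Function.iterate_add_apply, List.length_append, Nat.add_comm]
    rw [h6]
    exact g5

/-- level after a word -/
private noncomputable def lvl (lev : ℝ) : List Pl → ℝ
  | [] => lev
  | c :: w => lvl (lv c) w

private theorem lvl_eq (w : List Pl) : ∀ lev, lvl lev w = (w.getLast?.map lv).getD lev := by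
  induction w with
  | nil => intro lev; rfl
  | cons c w ih =>
    intro lev
    rw [lvl, ih, List.getLast?_cons]
    cases w.getLast? <;> rfl

private theorem lt_aux (F : Fam) {a : Fin 8 → ℝ} (ha : Cube a) (w : List Pl) :
    w.IsChain (fun c c' => (∃ j, c = .f j) → (∃ j, c' = .f j) ∨ c' = .g) →
    ∀ (u : ℝ → ℝ × ℝ) (al be lev : ℝ), Cr u al be lev → (∀ c ∈ w.head?, lev ≤ c.lo) →
    ∃ al' be', al ≤ al' ∧ al' ≤ be' ∧ be' ≤ be ∧
      (∀ x ∈ Icc al' be', Follow F a (u x) (w.map Lt.p)) ∧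
      Cr (fun x => (F.map a)^[w.length] (u x)) al' be' (lvl lev w) := by
  induction w with
  | nil =>
    intro _ u al be lev hC _
    refine ⟨al, be, le_rfl, hC.le, le_rfl, fun x _ k hk => ?_, hC⟩
    simp at hk
  | cons c w ih =>
    intro hch u al be lev hC hlev
    have h1 : lev ≤ c.lo := hlev c (by simp)
    obtain ⟨q1, q2, q3⟩ := lo_hi_bd c
    obtain ⟨a1, b1, h2, h3, h4, h5, h6⟩ := letter_step F ha c hC.le hC.cont (hC.lft.trans h1)
      (q2.trans hC.rgt) hC.sec
    have hch' := hch.tail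
    have hhead : ∀ c' ∈ w.head?, lv c ≤ c'.lo := by
      intro c' hc'
      obtain ⟨w', rfl⟩ : ∃ w', w = c' :: w' := by
        cases w with
        | nil => simp at hc'
        | cons d w' =>
          simp at hc'
          exact ⟨w', by rw [hc']⟩
      have hR := (List.isChain_cons_cons.1 hch).1
      obtain ⟨p1, -, p3⟩ := lo_hi_bd c'
      cases c with
      | e c => exact p1
      | g => exact p1
      | f j => exact p3 (hR ⟨j, rfl⟩)
    obtain ⟨a2, b2, g1, g2, g3, g4, g5⟩ := ih hch' _ a1 b1 (lv c) h6 hhead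
    refine ⟨a2, b2, h2.trans g1, g2, g3.trans h4, fun x hx k hk => ?_, g5⟩
    cases k with
    | zero => exact h5 x ⟨g1.trans hx.1, hx.2.trans g3⟩
    | succ k =>
      have hk' : k < (w.map Lt.p).length := by
        simp only [List.map_cons, List.length_cons] at hk
        omega
      exact g4 x hx k hk'

/-- **Plain words.** Proof. Induction over the word for the statement: a path with
`Cr u al be lev`, `lev ≤ c.lo` for the first letter `c`, and the chain condition contains a subpath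
following the word, with `Cr _ _ _ (lv last)` afterwards; `letter_step` and `lo_hi_bd`
(`lv c ≤ c'.lo` for consecutive letters). -/
theorem passes_plain (F : Fam) {a : Fin 8 → ℝ} (ha : Cube a) {w : List Lt} (hw : PlainTgt w) :
    Passes F a w := by
  obtain ⟨w0, rfl, hch, hlast⟩ := hw
  intro u al be hC
  obtain ⟨al', be', h1, h2, h3, h4, h5⟩ := lt_aux F ha w0 hch u al be (-(3 * h)) hC
    (fun c _ => (lo_hi_bd c).1)
  refine ⟨al', be', h1, h2, h3, h4, ?_⟩
  rw [List.length_map]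
  have h6 : lvl (-(3 * h)) w0 = -(3 * h) := by
    rw [lvl_eq]
    cases hg : w0.getLast? with
    | none => rfl
    | some c =>
      have h7 := hlast c hg
      cases c with
      | e c => rfl
      | g => rfl
      | f j => exact absurd rfl (h7 j)
  rw [h6] at h5
  exact h5

end Pool.Agent.WildW
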