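import Pool.Agent.Lib.MP_3dbc4a_an_WT.FoldStep
import Pool.Agent.Lib.MP_3dbc4a_an_WT.Hist
import Pool.Agent.Lib.MP_3dbc4a_an_WT.Letter

/-!
# MP_3dbc4a_an, project W, block T: fold words pass
-/

set_option autoImplicit false

open Filter Set
open scoped Topology

namespace Pool.Agent.WildW

private theorem fold_chain : ∀ l : List KA, (l.map Pl.e).IsChain
    (fun c c' => (∃ j, c = .f j) → (∃ j, c' = .f j) ∨ c' = .g)
  | [] => List.isChain_nil
  | [_] => List.isChain_singleton _
  | c :: c' :: l => by
    rw [List.map_cons, List.map_cons, List.isChain_cons_cons]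
    refine ⟨?_, fold_chain (c' :: l)⟩
    rintro ⟨j, hj⟩
    exact Pl.noConfusion hj

/-- `passes_plain` for the letters `E.reverse` (all `e`, chain condition trivial), then `fold_step`
with `fold_hist` -/
theorem passes_fold (F : Fam) {a : Fin 8 → ℝ} (ha : Cube a) {w : List Lt}
    (hw : FoldTgt F a w) : Passes F a w := by
  obtain ⟨E, i, B, rfl, hR⟩ := hw
  intro u al be hC
  have hPT : PlainTgt (E.reverse.map (fun c => Lt.p (.e c))) := by
    refine ⟨E.reverse.map Pl.e, ?_, fold_chain _, ?_⟩
    · rw [List.map_map]
      rfl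
    · intro c hc j hj
      have h1 := List.mem_of_getLast? hc
      rw [List.mem_map] at h1
      obtain ⟨c', -, h2⟩ := h1
      rw [← h2] at hj
      exact Pl.noConfusion hj
  obtain ⟨a1, b1, h1, h2, h3, h4, h5⟩ := passes_plain F ha hPT u al be hC
  have hlen : (E.reverse.map (fun c => Lt.p (.e c))).length = E.length := by
    rw [List.length_map, List.length_reverse]
  rw [hlen] at h5
  obtain ⟨a2, b2, g1, g2, g3, g4, g5⟩ := fold_step F ha hR h5 (fun x hx hx0 =>
    fold_hist F ha E i B (hC.sec x ⟨h1.trans hx.1, hx.2.trans h3⟩) (h4 x hx) hx0)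
  refine ⟨a2, b2, h1.trans g1, g2, g3.trans h3, fun x hx k hk => ?_, ?_⟩
  · by_cases hk1 : k < (E.reverse.map (fun c => Lt.p (.e c))).length
    · rw [List.getElem_append_left hk1]
      exact h4 x ⟨g1.trans hx.1, hx.2.trans g3⟩ k hk1
    · rw [List.getElem_append_right (not_lt.1 hk1)]
      have h6 : k - (E.reverse.map (fun c => Lt.p (.e c))).length <
          (Lt.d i :: (B.map (fun j => Lt.p (.f j)) ++ [.p .g])).length := by
        rw [List.length_append] at hk
        omega
      have h7 := g4 x hx _ h6
      rw [← hlen, ← Function.iterate_add_apply, Nat.sub_add_cancel (not_lt.1 hk1)] at h7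
      exact h7
  · have h6 : (fun x => (F.map a)^[(E.reverse.map (fun c => Lt.p (.e c)) ++
        (Lt.d i :: (B.map (fun j => Lt.p (.f j)) ++ [.p .g]))).length] (u x)) =
        fun x => (F.map a)^[B.length + 2] ((F.map a)^[E.length] (u x)) := by
      funext x
      rw [← Function.iterate_add_apply, List.length_append, hlen]
      simp only [List.length_cons, List.length_append, List.length_map, List.length_nil]
      congr 1
      rw [Nat.add_comm]
    rw [h6]
    exact g5

end Pool.Agent.WildW
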