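import Pool.Agent.Lib.MP_3dbc4a_an.Defs

/-!
# MP_3dbc4a_an, project W, block T: omega limit sets of bounded orbits
-/

set_option autoImplicit false

open Filter Set
open scoped Topology

namespace Pool.Agent.WildW

open Pool.Agent.Wild

theorem mem_omega_iff {f : ℝ × ℝ → ℝ × ℝ} {z q : ℝ × ℝ} :
    q ∈ omegaSet f z ↔ ∀ ε > 0, ∀ N : ℕ, ∃ n, N ≤ n ∧ dist (f^[n] z) q < ε := by
  unfold omegaSet
  rw [mem_ofPred_eq, Metric.nhds_basis_ball.mapClusterPt_iff_frequently]
  constructor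
  · intro h ε hε N
    obtain ⟨n, hn, h1⟩ := frequently_atTop.1 (h ε hε) N
    exact ⟨n, hn, h1⟩
  · intro h ε hε
    refine frequently_atTop.2 fun N => ?_
    obtain ⟨n, hn, h1⟩ := h ε hε N
    exact ⟨n, hn, h1⟩

theorem omega_compact {f : ℝ × ℝ → ℝ × ℝ} {z : ℝ × ℝ} {K : Set (ℝ × ℝ)} (hK : IsCompact K)
    (hz : ∀ n, f^[n] z ∈ K) : IsCompact (omegaSet f z) ∧ (omegaSet f z).Nonempty ∧
      omegaSet f z ⊆ K := by
  have h1 : omegaSet f z ⊆ K := by
    intro q hq
    rw [mem_omega_iff] at hq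
    rw [← hK.isClosed.closure_eq, Metric.mem_closure_iff]
    intro ε hε
    obtain ⟨n, -, hn⟩ := hq ε hε 0
    exact ⟨_, hz n, by rw [dist_comm]; exact hn⟩
  have h2 : IsClosed (omegaSet f z) := isClosed_setOfPred_clusterPt
  refine ⟨hK.of_isClosed_subset h2 h1, ?_, h1⟩
  obtain ⟨a, -, ha⟩ := hK.exists_mapClusterPt_of_frequently (l := atTop)
    (f := fun n : ℕ => f^[n] z) (Eventually.of_forall hz).frequently
  exact ⟨a, ha⟩

/-- Proof. `f (ω) ⊆ ω` by continuity. Conversely, for `q ∈ ω` take `n_k → ∞` with `f^(n_k) z → q`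
(`mem_omega_iff`), a cluster point `q'` of `f^(n_k - 1) z` in `K`; then `q' ∈ ω`, `f q' = q`. -/
theorem omega_image {f : ℝ × ℝ → ℝ × ℝ} (hf : Continuous f) {z : ℝ × ℝ} {K : Set (ℝ × ℝ)}
    (hK : IsCompact K) (hz : ∀ n, f^[n] z ∈ K) : f '' omegaSet f z = omegaSet f z := by
  apply Subset.antisymm
  · rintro _ ⟨q, hq, rfl⟩
    rw [mem_omega_iff] at hq ⊢
    intro ε hε N
    obtain ⟨δ, hδ, h1⟩ := Metric.continuous_iff.1 hf q ε hε
    obtain ⟨n, hn, h2⟩ := hq δ hδ N
    refine ⟨n + 1, by omega, ?_⟩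
    rw [Function.iterate_succ_apply']
    exact h1 _ h2
  · intro q hq
    rw [mem_omega_iff] at hq
    have h1 : ∀ k : ℕ, ∃ n, k + 1 ≤ n ∧ dist (f^[n] z) q < 1 / ((k : ℝ) + 1) := fun k =>
      hq _ (by positivity) (k + 1)
    choose n hn1 hn2 using h1
    obtain ⟨q', -, φ, hφ, hlim⟩ := hK.tendsto_subseq (x := fun k => f^[n k - 1] z)
      fun k => hz _
    refine ⟨q', ?_, ?_⟩
    · rw [mem_omega_iff]
      intro ε hε N
      obtain ⟨M, hM⟩ := (Metric.tendsto_atTop.1 hlim) ε hε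
      refine ⟨n (φ (max M N)) - 1, ?_, hM _ (le_max_left _ _)⟩
      have h2 := hn1 (φ (max M N))
      have h3 := hφ.id_le (max M N)
      have h4 : N ≤ max M N := le_max_right _ _
      simp only [id] at h3
      omega
    · have h2 : Tendsto (fun k => f (f^[n (φ k) - 1] z)) atTop (𝓝 (f q')) :=
        (hf.tendsto q').comp hlim
      have h3 : Tendsto (fun k => f^[n k] z) atTop (𝓝 q) := by
        rw [tendsto_iff_dist_tendsto_zero]
        refine squeeze_zero (fun _ => dist_nonneg) (fun k => (hn2 k).le) ?_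
        exact tendsto_one_div_add_atTop_nhds_zero_nat
      have h4 : (fun k => f (f^[n (φ k) - 1] z)) = (fun k => f^[n k] z) ∘ φ := by
        funext k
        have h5 := hn1 (φ k)
        show f (f^[n (φ k) - 1] z) = f^[n (φ k)] z
        rw [← Function.iterate_succ_apply' f]
        congr 2
        omega
      rw [h4] at h2
      exact tendsto_nhds_unique h2 (h3.comp hφ.tendsto_atTop)

theorem omega_transitive {f : ℝ × ℝ → ℝ × ℝ} (hf : Continuous f) {z : ℝ × ℝ}
    {K : Set (ℝ × ℝ)} (hK : IsCompact K) (hz : ∀ n, f^[n] z ∈ K) (hzz : z ∈ omegaSet f z) :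
    IsTransitiveSet f (omegaSet f z) :=
  ⟨(omega_compact hK hz).1, omega_image hf hK hz, z, hzz, rfl⟩

end Pool.Agent.WildW
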