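import Pool.Agent.Lib.MP_3dbc4a_an_WO.AdmSf
import Pool.Agent.Lib.MP_3dbc4a_an_WO.Sharp

/-!
# MP_3dbc4a_an, project W, block T: fold targets near a tangency
-/

set_option autoImplicit false

open Filter Set
open scoped Topology

namespace Pool.Agent.WildW

open OB

/-- `0 ≤ prodT ≤ (2^-119)^N` and `prodR ≥ (2^-122)^l` (plain letters on `1..l`; for `K_2`-letters
`rs ≥ 2^-21`, `rs_f` (O6); `ts ≤ 2^-19`, `b = 2^-100`) -/
theorem prodT_bd (F : Fam) {a : Fin 8 → ℝ} (ha : Cube a) {s : ℤ → Lt} (hs : Adm (symOf s))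
    (N : ℕ) : 0 ≤ prodT F a s N ∧ prodT F a s N ≤ (1 / 2 ^ 119) ^ N := by
  have h4 : (1 : ℝ) / 2 ^ 119 = b * (1 / 2 ^ 19) := by
    unfold b
    norm_num
  have h0 : 0 ≤ ∏ n ∈ Finset.range N, (b * ts F a (symOf s) (-(n : ℤ) - 1)) :=
    Finset.prod_nonneg fun n _ => mul_nonneg b_pos.le (ts_b F ha hs _).1
  have h2 : ∏ _n ∈ Finset.range N, ((1 : ℝ) / 2 ^ 119) = (1 / 2 ^ 119) ^ N := by simp
  have h1 : ∏ n ∈ Finset.range N, (b * ts F a (symOf s) (-(n : ℤ) - 1)) ≤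
      (1 / 2 ^ 119) ^ N := by
    rw [← h2]
    refine Finset.prod_le_prod (fun n _ => mul_nonneg b_pos.le (ts_b F ha hs _).1) ?_
    intro n _
    rw [h4]
    exact mul_le_mul_of_nonneg_left (ts_b F ha hs _).2 b_pos.le
  unfold prodT
  refine ⟨mul_nonneg b_pos.le h0, ?_⟩
  calc b * ∏ n ∈ Finset.range N, (b * ts F a (symOf s) (-(n : ℤ) - 1))
      ≤ 1 * ∏ n ∈ Finset.range N, (b * ts F a (symOf s) (-(n : ℤ) - 1)) :=
        mul_le_mul_of_nonneg_right b_lt_one.le h0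
    _ = ∏ n ∈ Finset.range N, (b * ts F a (symOf s) (-(n : ℤ) - 1)) := one_mul _
    _ ≤ (1 / 2 ^ 119) ^ N := h1

theorem prodR_bd (F : Fam) {a : Fin 8 → ℝ} (ha : Cube a) {s : ℤ → Lt} (hs : Adm (symOf s))
    {l : ℕ} (hp : ∀ n : ℕ, n < l → ∃ j, s (n + 1) = .p (.f j)) :
    (1 / 2 ^ 21) ^ l ≤ prodR F a s l :=
  (prodR_b F ha hs hp).1

/-- the inequality between the two residuals (`hT` large `N`) -/
private theorem tgtf_num {P R T D1 D2 k : ℝ} (hR : 0 ≤ R) (hT : 0 ≤ T)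
    (hs : |0 - P + R * D1 + T * D2| ≤ 1 / 2 ^ 125 * (R + T)) (h1 : 11 * h ≤ D1)
    (h2 : |D2| ≤ 4) (hk : T ≤ k) (hlt : 13 * k < 10 * h * R) : 8 * k < P := by
  have e1 := (abs_le.1 hs).2
  have e2 := (abs_le.1 h2).1
  have e3 : R * (11 * h) ≤ R * D1 := mul_le_mul_of_nonneg_left h1 hR
  have e4 : T * (-4) ≤ T * D2 := mul_le_mul_of_nonneg_left e2 hT
  have e5 : (1 : ℝ) / 2 ^ 125 ≤ h := by
    have := h_lo
    have h6 : (1 : ℝ) / 2 ^ 125 ≤ 1 / 2 ^ 121 := by norm_num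
    linarith
  have e6 : 1 / 2 ^ 125 * R ≤ h * R := mul_le_mul_of_nonneg_right e5 hR
  have e7 : 1 / 2 ^ 125 * T ≤ 1 * T := mul_le_mul_of_nonneg_right (by norm_num) hT
  nlinarith [e1, e3, e4, e6, e7, hk, hlt]

/-- **Fold targets.** Proof. Take `l ≥ r + 1` with `xi l = f j`, `j ≠ bot` (`hbot`), `B` = the
letters at `1..l-1` followed by `j - 1`, `E` = the letters at `-1, ..., -N` (`N` large). `sharp`
(O5) with `s = xi`, `s' = sf i (extE E) (extB B top)`, common letters `l - 1` and `N`: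
`Rr' = Phi s' = prodR (x_l - x'_l) + prodT (x_{-N-1} - x'_{-N-1}) ± 2^-125 (prodR + prodT)`
(`Phi s = 0`),
`x_l - x'_l ≥ 11 h` (windows of `f j`, `f (j-1)`: `lo_f`, `hi_f`, `inv_M`), so
`Rr' ≥ 10 h prodR - 5 prodT ≥ 10 h (2^-21)^(l-1) - 5 (2^-119)^N > 8 (2^-119)^N` for `N` large. -/
theorem fold_tgt (F : Fam) {a : Fin 8 → ℝ} (ha : Cube a) {xi : ℤ → Lt} (hadm : Adm (symOf xi))
    {i : Fin 8} (h0 : xi 0 = .d i) (hpast : ∀ n : ℤ, n < 0 → ∃ c : KA, xi n = .p (.e c))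
    (hfut : ∀ n : ℤ, 0 < n → ∃ j : KB, xi n = .p (.f j)) (hPhi : Phi F a (symOf xi) 0 = 0)
    (hbot : ∀ N : ℤ, ∃ n, N ≤ n ∧ xi n ≠ .p (.f bot)) (r : ℕ) :
    ∃ (l N : ℕ) (E : List KA) (B : List KB), r + 1 ≤ l ∧ r + 1 ≤ N ∧ E.length = N ∧
      B.length = l ∧ (∀ (n : ℕ) (hn : n < E.length), xi (-(n : ℤ) - 1) = .p (.e E[n])) ∧
      (∀ (n : ℕ) (hn : n < B.length), n + 1 < l → xi ((n : ℤ) + 1) = .p (.f B[n])) ∧
      8 * (1 / 2 ^ 119) ^ E.length < Rr F a i (extE E) (extB B top) := by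
  obtain ⟨n, hn, hnb⟩ := hbot ((r : ℤ) + 1)
  obtain ⟨m, rfl⟩ : ∃ m : ℕ, n = (m : ℤ) + 1 := ⟨(n - 1).toNat, by omega⟩
  have hrm : r ≤ m := by omega
  have hf : ∀ k : ℕ, ∃ j : KB, xi ((k : ℤ) + 1) = .p (.f j) := fun k => hfut _ (by omega)
  choose fb hfb using hf
  have he : ∀ k : ℕ, ∃ c : KA, xi (-(k : ℤ) - 1) = .p (.e c) := fun k => hpast _ (by omega)
  choose fe hfe using he
  have hj0 : (fb m : ℕ) ≠ 0 := by
    intro h1
    apply hnb
    rw [hfb m]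
    have h2 : fb m = bot := Fin.ext h1
    rw [h2]
  let j' : KB := ⟨(fb m : ℕ) - 1, lt_of_le_of_lt (Nat.sub_le _ _) (fb m).isLt⟩
  have hjj : (((j' : ℕ) : ℝ)) = (fb m : ℕ) - 1 := by
    show ((((fb m : ℕ) - 1 : ℕ)) : ℝ) = _
    rw [Nat.cast_sub (Nat.one_le_iff_ne_zero.2 hj0), Nat.cast_one]
  have hR0 : 0 < prodR F a xi m := lt_of_lt_of_le (by positivity)
    (prodR_bd F ha hadm (l := m) fun k _ => ⟨fb k, hfb k⟩)
  have hpos : 0 < 10 * h * prodR F a xi m := mul_pos (mul_pos (by norm_num) h_pos) hR0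
  obtain ⟨N, hNr, hN⟩ : ∃ N : ℕ, r + 1 ≤ N ∧
      13 * ((1 : ℝ) / 2 ^ 119) ^ N < 10 * h * prodR F a xi m := by
    have h1 : Tendsto (fun N : ℕ => 13 * ((1 : ℝ) / 2 ^ 119) ^ N) atTop (𝓝 (13 * 0)) :=
      Tendsto.const_mul _ (tendsto_pow_atTop_nhds_zero_of_lt_one (by positivity) (by norm_num))
    rw [mul_zero] at h1
    have h2 := (h1.eventually (gt_mem_nhds hpos)).and (eventually_ge_atTop (r + 1))
    obtain ⟨N, hN⟩ := h2.exists
    exact ⟨N, hN.2, hN.1⟩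
  let B : List KB := (List.range m).map fb ++ [j']
  let E : List KA := (List.range N).map fe
  have hBl : B.length = m + 1 := by simp [B]
  have hEl : E.length = N := by simp [E]
  have hBg : ∀ (k : ℕ) (hk : k < B.length), k < m → B[k] = fb k := by
    intro k hk hkm
    simp only [B]
    rw [List.getElem_append_left (by simpa using hkm)]
    simp
  have hBm : ∀ hk : m < B.length, B[m] = j' := by
    intro hk
    simp only [B]
    rw [List.getElem_append_right (by simp)]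
    simp
  have hEg : ∀ (k : ℕ) (hk : k < E.length), E[k] = fe k := by
    intro k hk
    simp [E]
  refine ⟨m + 1, N, E, B, by omega, hNr, hEl, hBl, ?_, ?_, ?_⟩
  · intro k hk
    rw [hEg k hk]
    exact hfe k
  · intro k hk hkm
    rw [hBg k hk (by omega)]
    exact hfb k
  · rw [hEl]
    have hs' := adm_sf i (extE E) (extB B top)
    have hp : ∀ k : ℕ, k < m → ∃ j, xi (k + 1) = .p (.f j) ∧
        sf i (extE E) (extB B top) (k + 1) = .p (.f j) := by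
      intro k hk
      refine ⟨fb k, hfb k, ?_⟩
      rw [sf_pos, extB_lt (by omega), hBg k (by omega) hk]
    have hm' : ∀ k : ℕ, k < N → ∃ c, xi (-(k : ℤ) - 1) = .p (.e c) ∧
        sf i (extE E) (extB B top) (-(k : ℤ) - 1) = .p (.e c) := by
      intro k hk
      refine ⟨fe k, hfe k, ?_⟩
      rw [sf_neg, extE_lt (by omega), hEg k (by omega)]
    have key := sharp F ha hadm hs' (i := i) (l := m) (N := N) h0 (sf_zero i _ _) hp hm'
    rw [hPhi] at key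
    have hT := prodT_bd F ha hadm N
    refine tgtf_num hR0.le hT.1 key ?_ (xs_dist F ha ha hadm hs' _ _) hT.2 hN
    have g1 := xs_W F ha hadm ((m : ℤ) + 1)
    rw [hfb m] at g1
    have g2 := xs_W F ha hs' ((m : ℤ) + 1)
    rw [sf_pos, extB_lt (by omega), hBm (by omega)] at g2
    have g3 : (Pl.f (fb m)).lo ≤ xs F a (symOf xi) ((m : ℤ) + 1) := g1.1
    have g4 : xs F a (symOf (sf i (extE E) (extB B top))) ((m : ℤ) + 1) ≤ (Pl.f j').hi := g2.2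
    rw [lo_f] at g3
    rw [hi_f, hjj] at g4
    have g5 := inv_M
    have g6 : (((fb m : ℕ) : ℝ) - 1) / 2 ^ 20 = ((fb m : ℕ) : ℝ) / 2 ^ 20 - 1 / 2 ^ 20 :=
      sub_div _ _ _
    rw [g6] at g4
    linarith

end Pool.Agent.WildW
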