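import Pool.Agent.Lib.MP_3dbc4a_an_WT.CloseF
import Pool.Agent.Lib.MP_3dbc4a_an_WT.Fold
import Pool.Agent.Lib.MP_3dbc4a_an_WT.Om
import Pool.Agent.Lib.MP_3dbc4a_an_WT.TgtF

/-!
# MP_3dbc4a_an, project W, block T: tangency points are in the transitive set
-/

set_option autoImplicit false

open Filter Set
open scoped Topology

namespace Pool.Agent.WildW

open Pool.Agent.Wild

/-- Proof. For `r` take `l, N, E, B` from `fold_tgt`, the word `w` of `FoldTgt` passes (`passes_fold`), so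
`hv` gives `m ≥ N'` such that `f^m z` follows `w`. `y_n = ob z (m + N + n)`: `y_n` is true for
`n ≥ -N`, in the window of `xi n` for `-N ≤ n < l`; at `l` in the window of the last letter of `B`
(`W_diff`), at `-N - 1` bounded (`hb`; the second coordinate of `f^m z`). `close_fold`:
`(y_0 - x_0)^2 ≤ (2^-19)^r + (2^-119)^r`, `|y_{-1} - x_{-1}| ≤ |y_0 - x_0| + 4 (2^-119)^r`, and
`f^(m+N) z = (y_0, y_{-1})`. `mem_omega_iff`. -/
theorem fold_in (F : Fam) {a : Fin 8 → ℝ} (ha : Cube a) {z : ℝ × ℝ}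
    (hb : ∀ j, -(1 / 2) ≤ ((F.map a)^[j] z).2 ∧ ((F.map a)^[j] z).2 ≤ 7 / 2)
    (hv : ∀ w, Passes F a w → ∀ N : ℕ, ∃ m, N ≤ m ∧ Follow F a ((F.map a)^[m] z) w)
    {xi : ℤ → Lt} (hadm : Adm (symOf xi))
    {i : Fin 8} (h0 : xi 0 = .d i) (hpast : ∀ n : ℤ, n < 0 → ∃ c : KA, xi n = .p (.e c))
    (hfut : ∀ n : ℤ, 0 < n → ∃ j : KB, xi n = .p (.f j)) (hPhi : Phi F a (symOf xi) 0 = 0)
    (hbot : ∀ N : ℤ, ∃ n, N ≤ n ∧ xi n ≠ .p (.f bot)) :
    (xs F a (symOf xi) 0, xs F a (symOf xi) (-1)) ∈ omegaSet (F.map a) z := by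
  rw [mem_omega_iff]
  intro ε hε M
  obtain ⟨k, hk⟩ := exists_pow_lt_of_lt_one
    (show 0 < min (ε ^ 2 / 8) (ε / 8) from lt_min (by positivity) (by positivity))
    (show (1 : ℝ) / 2 < 1 by norm_num)
  obtain ⟨hk1, hk2⟩ := lt_min_iff.1 hk
  obtain ⟨l, N, E, B, hl, hN, hE, hB, hEl, hBl, hres⟩ :=
    fold_tgt F ha hadm h0 hpast hfut hPhi hbot k
  obtain ⟨m, hm, hF⟩ := hv _ (passes_fold F ha ⟨E, i, B, rfl, hres⟩) M
  set w : List Lt := E.reverse.map (fun c => Lt.p (.e c)) ++
    (.d i :: (B.map (fun j => Lt.p (.f j)) ++ [.p .g])) with hw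
  have hwlen : w.length = N + 1 + l + 1 := by
    simp only [hw, List.length_append, List.length_map, List.length_reverse, List.length_cons,
      List.length_nil, hE, hB]
    omega
  refine ⟨m + N, by omega, ?_⟩
  set y : ℤ → ℝ := fun n ↦ ob F a z (n + ((m + N : ℕ) : ℤ)) with hy
  set x := xs F a (symOf xi) with hx
  -- the orbit follows the letters of `w`
  have hfol : ∀ (j : ℕ) (hj : j < w.length), y ((j : ℤ) - N) ∈ (w[j]).W := by
    intro j hj
    have h3 := hF j hj
    rw [← Function.iterate_add_apply, ← ob_nat] at h3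
    have e2 : ((j + m : ℕ) : ℤ) = (j : ℤ) - N + ((m + N : ℕ) : ℤ) := by push_cast; ring
    rw [e2] at h3
    exact h3
  have hneg : ∀ (j : ℕ) (hj : j < w.length), j < N → w[j] = xi ((j : ℤ) - N) := by
    intro j hj hjN
    have h1 : j < (E.reverse.map (fun c => Lt.p (.e c))).length := by simpa [hE] using hjN
    have h2 : w[j] = (E.reverse.map (fun c => Lt.p (.e c)))[j] := by
      simp only [hw]
      rw [List.getElem_append_left h1]
    rw [h2, List.getElem_map, List.getElem_reverse]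
    have h3 := hEl (E.length - 1 - j) (by omega)
    rw [← h3]
    congr 1
    omega
  have hzero : ∀ (hj : N < w.length), w[N] = xi 0 := by
    intro hj
    rw [h0]
    simp only [hw]
    rw [List.getElem_append_right (by simp [hE])]
    simp [hE]
  have hpos : ∀ (n : ℕ) (hn : n < l) (hj : N + 1 + n < w.length),
      w[N + 1 + n] = .p (.f (B[n]'(by omega))) := by
    intro n hn hj
    simp only [hw]
    rw [List.getElem_append_right (by simp [hE]; omega)]
    have e1 : N + 1 + n - (E.reverse.map (fun c => Lt.p (.e c))).length = n + 1 := by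
      simp only [List.length_map, List.length_reverse, hE]
      omega
    simp only [e1, List.getElem_cons_succ]
    rw [List.getElem_append_left (by simpa [hB] using hn), List.getElem_map]
  have hyW : ∀ n : ℤ, -(N : ℤ) ≤ n → n < l → y n ∈ (xi n).W := by
    intro n h1 h2
    rcases lt_trichotomy n 0 with h3 | h3 | h3
    · obtain ⟨j, rfl⟩ : ∃ j : ℕ, n = (j : ℤ) - N := ⟨(n + N).toNat, by omega⟩
      have := hfol j (by omega)
      rwa [hneg j (by omega) (by omega)] at this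
    · subst h3
      have := hfol N (by omega)
      rwa [hzero, sub_self] at this
    · obtain ⟨j, rfl⟩ : ∃ j : ℕ, n = (j : ℤ) + 1 := ⟨(n - 1).toNat, by omega⟩
      have hjl : j < l := by omega
      have := hfol (N + 1 + j) (by omega)
      rw [hpos j hjl (by omega)] at this
      rw [hBl j (by omega) (by omega)]
      have e1 : ((N + 1 + j : ℕ) : ℤ) - N = (j : ℤ) + 1 := by push_cast; ring
      rwa [e1] at this
  have hty : ∀ n : ℤ, -(N : ℤ) ≤ n → n < l → F.P a (y n) = y (n + 1) + b * y (n - 1) := by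
    intro n hn _
    have := ob_true F a z (n := n + ((m + N : ℕ) : ℤ)) (by push_cast; omega)
    have e1 : n + ((m + N : ℕ) : ℤ) + 1 = n + 1 + ((m + N : ℕ) : ℤ) := by ring
    have e2 : n + ((m + N : ℕ) : ℤ) - 1 = n - 1 + ((m + N : ℕ) : ℤ) := by ring
    rwa [e1, e2] at this
  have hyl : |y l - x l| ≤ 4 := by
    have := hfol (N + 1 + (l - 1)) (by omega)
    rw [hpos (l - 1) (by omega) (by omega)] at this
    have e1 : ((N + 1 + (l - 1) : ℕ) : ℤ) - N = l := by omega
    rw [e1] at this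
    exact W_diff this (OB.xs_W F ha hadm l)
  have hyN : |y (-(N : ℤ) - 1) - x (-(N : ℤ) - 1)| ≤ 4 := by
    have h1 : y (-(N : ℤ) - 1) = ((F.map a)^[m] z).2 := by
      simp only [hy]
      rw [show -(N : ℤ) - 1 + ((m + N : ℕ) : ℤ) = (m : ℤ) - 1 by push_cast; ring, ob_prev]
    have h2 := hb m
    rw [← h1] at h2
    have h3 := W_bd _ (OB.xs_W F ha hadm (-(N : ℤ) - 1))
    have h4 := h_hi
    have h5 := h_pos
    have h6 : h ≤ 1 / 100 := h4.trans (by norm_num)
    rw [abs_le]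
    constructor <;> linarith [h2.1, h2.2, h3.1, h3.2]
  obtain ⟨c1, c2⟩ := close_fold F ha hadm h0 (l := l) (N := N) (by omega)
    (fun n hn _ ↦ by
      obtain ⟨j, hj⟩ := hfut n (by omega)
      exact ⟨_, hj⟩)
    (fun n _ hn ↦ by
      obtain ⟨c, hc⟩ := hpast n hn
      exact ⟨_, hc⟩) hPhi hty hyW hyl hyN
  have hpow : ∀ {q : ℝ} {n : ℕ}, 0 ≤ q → q ≤ 1 / 2 → k ≤ n → q ^ n ≤ (1 / 2) ^ k := by
    intro q n h0 h1 h2
    calc q ^ n ≤ (1 / 2 : ℝ) ^ n := pow_le_pow_left₀ h0 h1 n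
      _ ≤ (1 / 2) ^ k := pow_le_pow_of_le_one (by norm_num) (by norm_num) h2
  have g1 := hpow (q := 1 / 2 ^ 19) (n := l - 1) (by positivity) (by norm_num) (by omega)
  have g2 := hpow (q := 1 / 2 ^ 119) (n := N) (by positivity) (by norm_num) (by omega)
  have g3 : (y 0 - x 0) ^ 2 < (ε / 2) ^ 2 := by
    have : (ε / 2) ^ 2 = 2 * (ε ^ 2 / 8) := by ring
    rw [this]
    linarith
  have g4 : |y 0 - x 0| < ε / 2 := by
    have := abs_lt_of_sq_lt_sq g3 (by positivity)
    exact this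
  have g5 : |y (-1) - x (-1)| < ε := by linarith
  have hst := ob_state F a z (m + N)
  rw [hst, Prod.dist_eq, Real.dist_eq, Real.dist_eq]
  refine max_lt ?_ ?_
  · simp only [hy, zero_add] at g4
    linarith
  · simp only [hy] at g5
    rw [show (-1 : ℤ) + ((m + N : ℕ) : ℤ) = ((m + N : ℕ) : ℤ) - 1 by ring] at g5
    exact g5

end Pool.Agent.WildW
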