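import Pool.Agent.Lib.MP_3dbc4a_an_WT.Letter
import Pool.Agent.Lib.MP_3dbc4a_an_WT.Om

/-!
# MP_3dbc4a_an, project W, block T: points of plain words are in the transitive set
-/

set_option autoImplicit false

open Filter Set
open scoped Topology

namespace Pool.Agent.WildW

open Pool.Agent.Wild

/-- the letters on `[-r, r]`, followed by `g` if necessary -/
private theorem tgt_word {xi : ℤ → Lt} (hadm : Adm (symOf xi)) {c : ℤ → Pl}
    (hc : ∀ n, xi n = .p (c n)) (r : ℕ) : ∃ w : List Lt, PlainTgt w ∧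
      ∀ k : ℕ, k < 2 * r + 1 → ∃ hk : k < w.length, w[k] = .p (c ((k : ℤ) - r)) := by
  classical
  have hR : ∀ n : ℤ, (∃ j, c n = .f j) → (∃ j, c (n + 1) = .f j) ∨ c (n + 1) = .g := by
    rintro n ⟨j, hj⟩
    have e1 : symOf xi n = .p (.f j) := by
      unfold symOf
      rw [hc, hj]
      rfl
    have e2 : symOf xi (n + 1) = .p (c (n + 1)) := by
      unfold symOf
      rw [hc]
      rfl
    rcases hadm.1 n j e1 with ⟨j', h⟩ | h | ⟨v, h, -⟩
    · rw [e2] at h
      left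
      exact ⟨j', by simpa using h⟩
    · rw [e2] at h
      right
      simpa using h
    · rw [e2] at h
      simp at h
  set L : List Pl := (List.range (2 * r + 1)).map (fun k : ℕ ↦ c ((k : ℤ) - r)) with hL
  have hlen : L.length = 2 * r + 1 := by simp [hL]
  have hget : ∀ (k : ℕ) (hk : k < L.length), L[k] = c ((k : ℤ) - r) := by
    intro k hk
    simp [hL]
  have hch : L.IsChain (fun c c' => (∃ j, c = .f j) → (∃ j, c' = .f j) ∨ c' = .g) := by
    rw [List.isChain_iff_getElem]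
    intro i hi h
    rw [hget i (by omega)] at h
    rw [hget (i + 1) hi]
    have := hR _ h
    have e : ((i + 1 : ℕ) : ℤ) - r = (i : ℤ) - r + 1 := by push_cast; ring
    rwa [e]
  have hlast : L.getLast? = some (c r) := by
    rw [List.getLast?_eq_getElem?, hlen, List.getElem?_eq_getElem (by omega), hget _ (by omega)]
    congr 2
    push_cast
    omega
  by_cases hf : ∃ j, c r = .f j
  · refine ⟨(L ++ [Pl.g]).map Lt.p, ⟨L ++ [Pl.g], rfl, ?_, ?_⟩, fun k hk ↦ ?_⟩
    · rw [List.isChain_append]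
      refine ⟨hch, by simp, ?_⟩
      intro x _ y hy _
      right
      simpa using hy.symm
    · intro c' hc' j
      rw [List.getLast?_append] at hc'
      have : Pl.g = c' := by simpa using hc'
      rw [← this]
      simp
    · have h1 : k < L.length := by omega
      refine ⟨by simp; omega, ?_⟩
      rw [List.getElem_map, List.getElem_append_left h1, hget k h1]
  · refine ⟨L.map Lt.p, ⟨L, rfl, hch, ?_⟩, fun k hk ↦ ?_⟩
    · intro c' hc' j
      rw [hlast] at hc'
      have : c r = c' := by simpa using hc'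
      rw [← this]
      exact fun h ↦ hf ⟨j, h⟩
    · have h1 : k < L.length := by omega
      refine ⟨by simpa using h1, ?_⟩
      rw [List.getElem_map, hget k h1]

/-- Proof. For `r ≥ 1` the word `w` = letters of `xi` on `[-r, r]`, followed by `g` if `xi r` is an
`f`-letter, is a `PlainTgt` (`Adm`), so `hv` gives `m ≥ N` such that the orbit of `f^m z` follows `w`.
`y_n = ob z (m + r + n)`, `x_n` = solution: the same windows for `|n| ≤ r`, differences at `±r` at most
`4` (`W_diff`), `orb_cmp` on `(-r, r)`: `|y_0 - x_0| ≤ 4 (2^-119)^r + 4 (2^-19)^r`,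
`|y_{-1} - x_{-1}| ≤ 4 (2^-119)^(r-1) + 4 (2^-19)^(r+1)`, and `f^(m+r) z = (y_0, y_{-1})` (`ob_state`).
`mem_omega_iff`. -/
theorem plain_in (F : Fam) {a : Fin 8 → ℝ} (ha : Cube a) {z : ℝ × ℝ}
    (hv : ∀ w, Passes F a w → ∀ N : ℕ, ∃ m, N ≤ m ∧ Follow F a ((F.map a)^[m] z) w)
    {xi : ℤ → Lt} (hadm : Adm (symOf xi)) (hpl : ∀ n, ∃ c, xi n = .p c) :
    (xs F a (symOf xi) 0, xs F a (symOf xi) (-1)) ∈ omegaSet (F.map a) z := by
  choose c hc using hpl
  rw [mem_omega_iff]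
  intro ε hε N
  obtain ⟨k, hk⟩ := exists_pow_lt_of_lt_one (show 0 < ε / 8 by positivity)
    (show (1 : ℝ) / 2 < 1 by norm_num)
  set r := k + 1 with hr
  obtain ⟨w, hw, hwl⟩ := tgt_word hadm hc r
  obtain ⟨m, hm, hF⟩ := hv w (passes_plain F ha hw) N
  refine ⟨m + r, by omega, ?_⟩
  set y : ℤ → ℝ := fun n ↦ ob F a z (n + ((m + r : ℕ) : ℤ)) with hy
  set x := xs F a (symOf xi) with hx
  have hyW : ∀ n : ℤ, -(r : ℤ) ≤ n → n ≤ r → y n ∈ (Lt.p (c n)).W := by
    intro n h1 h2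
    obtain ⟨hk', hwk⟩ := hwl (n + r).toNat (by omega)
    have h3 := hF (n + r).toNat hk'
    rw [hwk, ← Function.iterate_add_apply, ← ob_nat] at h3
    have e1 : (((n + r).toNat : ℕ) : ℤ) = n + r := Int.toNat_of_nonneg (by omega)
    have e2 : (((n + r).toNat + m : ℕ) : ℤ) = n + ((m + r : ℕ) : ℤ) := by
      push_cast
      rw [e1]
      ring
    rw [e1, e2, show n + (r : ℤ) - r = n by ring] at h3
    exact h3
  have hxW : ∀ n : ℤ, x n ∈ (Lt.p (c n)).W := fun n ↦ by
    have := OB.xs_W F ha hadm n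
    rwa [hc n] at this
  have htx : ∀ n : ℤ, F.P a (x n) = x (n + 1) + b * x (n - 1) := fun n ↦
    OB.xs_eq F ha hadm (hc n)
  have hty : ∀ n : ℤ, -(r : ℤ) ≤ n → F.P a (y n) = y (n + 1) + b * y (n - 1) := by
    intro n hn
    have := ob_true F a z (n := n + ((m + r : ℕ) : ℤ)) (by push_cast; omega)
    have e1 : n + ((m + r : ℕ) : ℤ) + 1 = n + 1 + ((m + r : ℕ) : ℤ) := by ring
    have e2 : n + ((m + r : ℕ) : ℤ) - 1 = n - 1 + ((m + r : ℕ) : ℤ) := by ring
    rwa [e1, e2] at this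
  have hcmp : ∀ n : ℤ, -(r : ℤ) ≤ n → n ≤ r → |y n - x n| ≤
      4 * (1 / 2 ^ 119) ^ (n - -(r : ℤ)).toNat + 4 * (1 / 2 ^ 19) ^ ((r : ℤ) - n).toNat :=
    fun n h1 h2 ↦ orb_cmp F ha (x := x) (y := y) (N₁ := -(r : ℤ)) (N₂ := r) (A := 4) (B := 4)
      (by norm_num) (by norm_num) (fun i hi hi' ↦ ⟨c i, hxW i, hyW i hi.le hi'.le⟩)
      (fun i _ _ ↦ htx i) (fun i hi _ ↦ hty i hi.le)
      (W_diff (hyW _ le_rfl (by omega)) (hxW _)) (W_diff (hyW _ (by omega) le_rfl) (hxW _)) h1 h2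
  have hpow : ∀ {q : ℝ} {n : ℕ}, 0 ≤ q → q ≤ 1 / 2 → k ≤ n → q ^ n ≤ (1 / 2) ^ k := by
    intro q n h0 h1 h2
    calc q ^ n ≤ (1 / 2 : ℝ) ^ n := pow_le_pow_left₀ h0 h1 n
      _ ≤ (1 / 2) ^ k := pow_le_pow_of_le_one (by norm_num) (by norm_num) h2
  have hd : ∀ n : ℤ, -1 ≤ n → n ≤ 0 → |y n - x n| < ε := by
    intro n h1 h2
    refine lt_of_le_of_lt (hcmp n (by omega) (by omega)) ?_
    have g1 := hpow (q := 1 / 2 ^ 119) (n := (n - -(r : ℤ)).toNat) (by positivity)
      (by norm_num) (by omega)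
    have g2 := hpow (q := 1 / 2 ^ 19) (n := ((r : ℤ) - n).toNat) (by positivity)
      (by norm_num) (by omega)
    linarith
  have hst := ob_state F a z (m + r)
  rw [hst, Prod.dist_eq, Real.dist_eq, Real.dist_eq]
  refine max_lt ?_ ?_
  · have := hd 0 (by norm_num) le_rfl
    simp only [hy, zero_add] at this
    exact this
  · have := hd (-1) le_rfl (by norm_num)
    simp only [hy] at this
    rw [show (-1 : ℤ) + ((m + r : ℕ) : ℤ) = ((m + r : ℕ) : ℤ) - 1 by ring] at this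
    exact this

end Pool.Agent.WildW
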