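import Pool.Agent.Lib.MP_3dbc4a_an_WT.RecA

/-!
# MP_3dbc4a_an, project W, block T: the transitive point
-/

set_option autoImplicit false

open Filter Set
open scoped Topology

namespace Pool.Agent.WildW

open Pool.Agent.Wild

private def Rec_pl : Option (KA ⊕ KB) → Pl
  | none => .g
  | some (.inl c) => .e c
  | some (.inr j) => .f j

private theorem Rec_pl_surj : Function.Surjective Rec_pl := by
  intro c
  cases c with
  | e c => exact ⟨some (.inl c), rfl⟩
  | f j => exact ⟨some (.inr j), rfl⟩
  | g => exact ⟨none, rfl⟩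

private def Rec_lt : Option (KA ⊕ KB) ⊕ Fin 8 → Lt
  | .inl c => .p (Rec_pl c)
  | .inr i => .d i

private theorem Rec_lt_surj : Function.Surjective Rec_lt := by
  intro c
  cases c with
  | p c =>
    obtain ⟨x, rfl⟩ := Rec_pl_surj c
    exact ⟨.inl x, rfl⟩
  | d i => exact ⟨.inr i, rfl⟩

instance : Countable Lt := Rec_lt_surj.countable

/-- `List Lt` is countable; enumerate the passing words so that each occurs infinitely often
(`tgt (Nat.pair i N) = w_i` if it passes, `[]` otherwise). -/
theorem exists_z (F : Fam) {a : Fin 8 → ℝ} (ha : Cube a) :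
    ∃ z : ℝ × ℝ, (∀ j, -(1 / 2) ≤ ((F.map a)^[j] z).2 ∧ ((F.map a)^[j] z).2 ≤ 7 / 2) ∧
      z ∈ omegaSet (F.map a) z ∧
      ∀ w, Passes F a w → ∀ N : ℕ, ∃ m, N ≤ m ∧ Follow F a ((F.map a)^[m] z) w := by
  classical
  obtain ⟨g, hg⟩ := exists_surjective_nat (List Lt)
  let tgt : ℕ → List Lt := fun k =>
    if Passes F a (g (Nat.unpair k).1) then g (Nat.unpair k).1 else []
  have ht : ∀ k, Passes F a (tgt k) := by
    intro k
    by_cases hk : Passes F a (g (Nat.unpair k).1)
    · show Passes F a (if Passes F a (g (Nat.unpair k).1) then g (Nat.unpair k).1 else [])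
      rw [if_pos hk]
      exact hk
    · show Passes F a (if Passes F a (g (Nat.unpair k).1) then g (Nat.unpair k).1 else [])
      rw [if_neg hk]
      exact passes_nil F a
  obtain ⟨z, hz1, hz2, hz3⟩ := exists_z_aux F ha tgt ht
  refine ⟨z, hz1, hz2, fun w hw N => ?_⟩
  obtain ⟨i, hi⟩ := hg w
  obtain ⟨m, hm, hf⟩ := hz3 (Nat.pair i N)
  have h1 : tgt (Nat.pair i N) = w := by
    show (if Passes F a (g (Nat.unpair (Nat.pair i N)).1) then
      g (Nat.unpair (Nat.pair i N)).1 else []) = w
    rw [Nat.unpair_pair]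
    show (if Passes F a (g i) then g i else []) = w
    rw [hi, if_pos hw]
  rw [h1] at hf
  exact ⟨m, (Nat.right_le_pair i N).trans hm, hf⟩

end Pool.Agent.WildW
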