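import Pool.Agent.Lib.MP_3dbc4a_an_W.Good
import Pool.Agent.Lib.MP_3dbc4a_an_WT.FoldIn
import Pool.Agent.Lib.MP_3dbc4a_an_WT.PlainIn
import Pool.Agent.Lib.MP_3dbc4a_an_WT.Rec

/-!
# MP_3dbc4a_an, project W, block T: the transitive set
-/

set_option autoImplicit false

open Filter Set
open scoped Topology

namespace Pool.Agent.WildW

open Pool.Agent.Wild

private theorem iter_pt (F : Fam) {a : Fin 8 → ℝ} (ha : Cube a) {ξ : ℤ → Lt} (hξ : GoodW F a ξ)
    (n : ℕ) : (F.map a)^[n] (pt F a ξ) = pt F a (shiftW ξ n) := by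
  induction n with
  | zero =>
    simp only [Function.iterate_zero, id, Nat.cast_zero]
    congr 1
    funext k
    simp [shiftW]
  | succ n ih =>
    rw [Function.iterate_succ_apply', ih, map_pt F ha (good_shift F ha hξ n)]
    congr 1
    funext k
    simp only [shiftW]
    congr 1
    push_cast
    ring

/-- **Block T.** `T = omegaSet f z` with `z` from `exists_z`; `omega_transitive` with
`K = Icc (-1/2) (7/2) ×ˢ Icc (-1/2) (7/2)`. Plain words: `plain_in`. Words with a fold at `t`:
`xi' = shiftW xi t` (`xs_shift`, `Phi` shifts) and `fold_in` give `(x_t, x_{t-1}) ∈ T`; for `t ≥ 0`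
`(x_t, x_{t-1}) = f^t (x_0, x_{-1})` (`map_pt`), `f` is injective and `f '' T = T`; for `t < 0`
`(x_0, x_{-1}) = f^(-t) (x_t, x_{t-1})`. -/
theorem exists_T (F : Fam) {a : Fin 8 → ℝ} (ha : Cube a) :
    ∃ T : Set (ℝ × ℝ), Wild.IsTransitiveSet (F.map a) T ∧ ∀ ξ, GoodW F a ξ → pt F a ξ ∈ T := by
  obtain ⟨z, hb, hzz, hv⟩ := exists_z F ha
  set K : Set (ℝ × ℝ) := Icc (-(1 / 2)) (7 / 2) ×ˢ Icc (-(1 / 2)) (7 / 2) with hKdef
  have hK : IsCompact K := isCompact_Icc.prod isCompact_Icc
  have hz : ∀ n, (F.map a)^[n] z ∈ K := by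
    intro n
    refine ⟨?_, hb n⟩
    have := hb (n + 1)
    rw [Function.iterate_succ_apply', Fam.map_snd] at this
    exact this
  have hT := omega_transitive (F.map_cont a) hK hz hzz
  have himg := hT.2.1
  refine ⟨omegaSet (F.map a) z, hT, fun ξ hξ ↦ ?_⟩
  rcases hξ.2 with hpl | ⟨t, i, ht, hpast, hfut, hPhi, hbot⟩
  · exact plain_in F ha hv hξ.1 hpl
  · have hg := good_shift F ha hξ t
    have hsh : ∀ n : ℤ, xs F a (symOf (shiftW ξ t)) n = xs F a (symOf ξ) (n + t) := fun n ↦
      (xs_shift F ha hξ.1 t n).1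
    have hP : Phi F a (symOf (shiftW ξ t)) 0 = 0 := by
      rw [← hPhi]
      unfold Phi
      rw [hsh, hsh, hsh, zero_add, show (0 : ℤ) - 1 + t = t - 1 by ring,
        show (0 : ℤ) + 1 + t = t + 1 by ring]
    have h1 : pt F a (shiftW ξ t) ∈ omegaSet (F.map a) z :=
      fold_in F ha hb hv hg.1 (i := i) (by simpa [shiftW] using ht)
        (fun n hn ↦ hpast (n + t) (by omega)) (fun n hn ↦ hfut (n + t) (by omega)) hP
        (fun N ↦ by
          obtain ⟨n, hn, hn'⟩ := hbot (N + t)
          refine ⟨n - t, by omega, ?_⟩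
          simpa [shiftW] using hn')
    rcases le_or_gt 0 t with h0 | h0
    · obtain ⟨n, rfl⟩ := Int.eq_ofNat_of_zero_le h0
      change pt F a (shiftW ξ (n : ℤ)) ∈ _ at h1
      rw [← iter_pt F ha hξ n] at h1
      have hback : ∀ (n : ℕ) (w : ℝ × ℝ), (F.map a)^[n] w ∈ omegaSet (F.map a) z →
          w ∈ omegaSet (F.map a) z := by
        intro n
        induction n with
        | zero => exact fun w hw ↦ hw
        | succ n ih =>
          intro w hw
          rw [Function.iterate_succ_apply] at hw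
          have h2 := ih _ hw
          rw [← himg] at h2
          obtain ⟨w', hw', he⟩ := h2
          rwa [← F.map_inj a he]
      exact hback n _ h1
    · obtain ⟨n, hn⟩ : ∃ n : ℕ, (n : ℤ) = -t := ⟨(-t).toNat, by omega⟩
      have h2 : pt F a ξ = (F.map a)^[n] (pt F a (shiftW ξ t)) := by
        rw [iter_pt F ha hg n]
        congr 1
        funext k
        simp only [shiftW]
        congr 1
        omega
      have hfwd : ∀ (n : ℕ) (w : ℝ × ℝ), w ∈ omegaSet (F.map a) z →
          (F.map a)^[n] w ∈ omegaSet (F.map a) z := by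
        intro n
        induction n with
        | zero => exact fun w hw ↦ hw
        | succ n ih =>
          intro w hw
          rw [Function.iterate_succ_apply', ← himg]
          exact ⟨_, ih w hw, rfl⟩
      rw [h2]
      exact hfwd n _ h1

end Pool.Agent.WildW
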