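import Pool.Agent.Lib.MP_3dbc4a_an_WT.Taylor

/-!
# MP_3dbc4a_an, project W, block T: orbits near a tangency, backward part
-/

set_option autoImplicit false

open Filter Set
open scoped Topology

namespace Pool.Agent.WildW

private theorem eps_900' : eps = 1 / 2 ^ 900 * (1 / 2 ^ 100) := by
  unfold eps
  rw [div_mul_div_comm, one_mul, ← pow_add]

/-- one step of the induction, in numbers -/
private theorem bwd_num {g q r X d2 : ℝ} (hr0 : 0 ≤ r) (hr : r ≤ 1 / 2 ^ 19)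
    (hd : 0 ≤ d2) (hg : |g| ≤ (6 - X) * X + 1 / 2 ^ 900 * d2)
    (hq : |q| ≤ eps * (2 * d2 + 32 * (X * (1 / 2 ^ 119)) ^ 2)) :
    |r * (b * g - q)| ≤ (6 - X * (1 / 2 ^ 119)) * (X * (1 / 2 ^ 119)) + 1 / 2 ^ 900 * d2 := by
  have h1 : |b * g - q| ≤ b * |g| + |q| := by
    have := abs_add_le (b * g) (-q)
    rwa [abs_neg, ← sub_eq_add_neg, abs_mul, abs_of_pos b_pos] at this
  have h2 : |r * (b * g - q)| ≤ 1 / 2 ^ 19 * (b * ((6 - X) * X + 1 / 2 ^ 900 * d2) +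
      eps * (2 * d2 + 32 * (X * (1 / 2 ^ 119)) ^ 2)) := by
    rw [abs_mul, abs_of_nonneg hr0]
    exact mul_le_mul hr (h1.trans (add_le_add (mul_le_mul_of_nonneg_left hg b_pos.le) hq))
      (abs_nonneg _) (by positivity)
  refine h2.trans ?_
  rw [eps_900']
  have hb : b = 1 / 2 ^ 100 := rfl
  rw [hb]
  have h3 : (0 : ℝ) ≤ 1 / 2 ^ 900 := by positivity
  have h4 : (1 : ℝ) / 2 ^ 900 ≤ 1 := by
    rw [div_le_one (by positivity)]
    exact one_le_pow₀ (by norm_num)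
  generalize (1 : ℝ) / 2 ^ 900 = e at h3 h4
  have h5 : 0 ≤ X ^ 2 := sq_nonneg X
  have h6 : e * d2 * (1 / 2 ^ 19 * (1 / 2 ^ 100) + 1 / 2 ^ 19 * (1 / 2 ^ 100) * 2) ≤ e * d2 :=
    mul_le_of_le_one_right (mul_nonneg h3 hd) (by norm_num)
  have h7 : e * X ^ 2 ≤ 1 * X ^ 2 := mul_le_mul_of_nonneg_right h4 h5
  have h8 : 1 / 2 ^ 19 * (1 / 2 ^ 100 * ((6 - X) * X + e * d2) +
      e * (1 / 2 ^ 100) * (2 * d2 + 32 * (X * (1 / 2 ^ 119)) ^ 2)) =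
      6 * (X * (1 / 2 ^ 119)) - X ^ 2 * (1 / 2 ^ 119) +
      e * d2 * (1 / 2 ^ 19 * (1 / 2 ^ 100) + 1 / 2 ^ 19 * (1 / 2 ^ 100) * 2) +
      1 / 2 ^ 19 * (1 / 2 ^ 100) * 32 * (1 / 2 ^ 119) ^ 2 * (e * X ^ 2) := by ring
  rw [h8]
  have h9 : (1 : ℝ) / 2 ^ 19 * (1 / 2 ^ 100) * 32 * (1 / 2 ^ 119) ^ 2 * (e * X ^ 2) ≤
      1 / 2 ^ 120 * X ^ 2 := by
    refine (mul_le_mul_of_nonneg_left h7 (by positivity)).trans ?_
    rw [one_mul]
    exact mul_le_mul_of_nonneg_right (by norm_num) h5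
  have h11 : 0 ≤ X ^ 2 * ((1 : ℝ) / 2 ^ 120 - 1 / 2 ^ 238) := mul_nonneg h5 (by norm_num)
  have h12 : (6 - X * (1 / 2 ^ 119)) * (X * (1 / 2 ^ 119)) =
      6 * (X * (1 / 2 ^ 119)) - X ^ 2 * (1 / 2 ^ 119) +
        X ^ 2 * ((1 : ℝ) / 2 ^ 120 - 1 / 2 ^ 238) + 1 / 2 ^ 120 * X ^ 2 := by ring
  rw [h12]
  linarith

/-- **Backward part.** `v_n = D_{n-1} - t_{n-1} D_n`; at a plain `n`: `v_{n+1} = t_n (b v_n - q_n)` (from
`t_n (P1(x_n) - b t_{n-1}) = 1`), `orb_cmp` on `(-N-1, 0)`: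
`|D_{-n}| ≤ 4 (2^-119)^(N+1-n) + |D_0| (2^-19)^n`. Induction over `n = -N..0` (`k = N + n`):
`|v_n| ≤ (6 - (2^-119)^k) (2^-119)^k + 2^-900 D_0^2`; `|v_{-N}| ≤ 5`. -/
theorem bwd_part (F : Fam) {a : Fin 8 → ℝ} (ha : Cube a) {s : ℤ → Lt} (hs : Adm (symOf s))
    {N : ℕ} (hp : ∀ n : ℤ, -(N : ℤ) ≤ n → n < 0 → ∃ c, s n = .p c) {y : ℤ → ℝ}
    (hy : ∀ n : ℤ, -(N : ℤ) ≤ n → n < 0 → F.P a (y n) = y (n + 1) + b * y (n - 1))
    (hyW : ∀ n : ℤ, -(N : ℤ) ≤ n → n < 0 → y n ∈ (s n).W)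
    (hyN : |y (-(N : ℤ) - 1) - xs F a (symOf s) (-(N : ℤ) - 1)| ≤ 4)
    (hy0 : |y 0 - xs F a (symOf s) 0| ≤ 4) :
    |(y (-1) - xs F a (symOf s) (-1)) - ts F a (symOf s) (-1) * (y 0 - xs F a (symOf s) 0)| ≤
      6 * (1 / 2 ^ 119) ^ N + 1 / 2 ^ 900 * (y 0 - xs F a (symOf s) 0) ^ 2 := by
  have htb : ∀ n, 0 ≤ ts F a (symOf s) n ∧ ts F a (symOf s) n ≤ 1 / 2 ^ 19 := OB.ts_b F ha hs
  have hD : ∀ m : ℤ, -(N : ℤ) - 1 ≤ m → m ≤ 0 → |y m - xs F a (symOf s) m| ≤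
      4 * (1 / 2 ^ 119) ^ (m - (-(N : ℤ) - 1)).toNat +
        |y 0 - xs F a (symOf s) 0| * (1 / 2 ^ 19) ^ ((0 : ℤ) - m).toNat := by
    intro m hm1 hm2
    refine orb_cmp F ha (by norm_num) (abs_nonneg _) (N₁ := -(N : ℤ) - 1) (N₂ := 0)
      ?_ ?_ ?_ hyN le_rfl hm1 hm2
    · intro n hn1 hn2
      obtain ⟨c, hc⟩ := hp n (by omega) hn2
      have h1 := OB.xs_W F ha hs n
      have h2 := hyW n (by omega) hn2
      rw [hc] at h1 h2
      exact ⟨c, h1, h2⟩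
    · intro n hn1 hn2
      obtain ⟨c, hc⟩ := hp n (by omega) hn2
      exact OB.xs_eq F ha hs hc
    · intro n hn1 hn2
      exact hy n (by omega) hn2
  have htt : ∀ (n : ℤ) (c : Pl), s n = .p c → ts F a (symOf s) n *
      (F.P1 a (xs F a (symOf s) n) - b * ts F a (symOf s) (n - 1)) = 1 :=
    fun n c hc => OB.ts_rec F ha hs hc
  have hxe : ∀ (n : ℤ) (c : Pl), s n = .p c → F.P a (xs F a (symOf s) n) =
      xs F a (symOf s) (n + 1) + b * xs F a (symOf s) (n - 1) :=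
    fun n c hc => OB.xs_eq F ha hs hc
  have hxW : ∀ n, xs F a (symOf s) n ∈ (s n).W := OB.xs_W F ha hs
  generalize xs F a (symOf s) = x at *
  generalize ts F a (symOf s) = t at *
  have hd2 : 0 ≤ (y 0 - x 0) ^ 2 := sq_nonneg _
  have hpw : ∀ m : ℕ, ((1 : ℝ) / 2 ^ 119) ^ m ≤ 1 := fun m =>
    pow_le_one₀ (by positivity) (by norm_num)
  have hpw' : ∀ m : ℕ, ((1 : ℝ) / 2 ^ 19) ^ m ≤ 1 := fun m =>
    pow_le_one₀ (by positivity) (by norm_num)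
  have hD8 : ∀ m : ℤ, -(N : ℤ) - 1 ≤ m → m ≤ 0 → |y m - x m| ≤ 8 := by
    intro m hm1 hm2
    have h1 := hD m hm1 hm2
    have h2 := mul_le_mul hy0 (hpw' ((0 : ℤ) - m).toNat) (by positivity) (by norm_num)
    have h3 := hpw (m - (-(N : ℤ) - 1)).toNat
    linarith
  have key : ∀ k : ℕ, k ≤ N → |(y (-(N : ℤ) + k - 1) - x (-(N : ℤ) + k - 1)) -
      t (-(N : ℤ) + k - 1) * (y (-(N : ℤ) + k) - x (-(N : ℤ) + k))| ≤
      (6 - (1 / 2 ^ 119) ^ k) * (1 / 2 ^ 119) ^ k + 1 / 2 ^ 900 * (y 0 - x 0) ^ 2 := by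
    intro k
    induction k with
    | zero =>
      intro _
      simp only [Nat.cast_zero, add_zero, pow_zero, mul_one]
      have h1 := hD8 (-(N : ℤ)) (by omega) (by omega)
      have h2 := htb (-(N : ℤ) - 1)
      have h3 : t (-(N : ℤ) - 1) ≤ 1 / 8 := h2.2.trans (by norm_num)
      have h5 : |t (-(N : ℤ) - 1) * (y (-(N : ℤ)) - x (-(N : ℤ)))| ≤ 1 / 8 * 8 := by
        rw [abs_mul, abs_of_nonneg h2.1]
        exact mul_le_mul h3 h1 (abs_nonneg _) (by norm_num)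
      have h6 := abs_sub (y (-(N : ℤ) - 1) - x (-(N : ℤ) - 1))
        (t (-(N : ℤ) - 1) * (y (-(N : ℤ)) - x (-(N : ℤ))))
      have h7 : (0 : ℝ) ≤ 1 / 2 ^ 900 * (y 0 - x 0) ^ 2 := mul_nonneg (by positivity) hd2
      linarith
    | succ k ih =>
      intro hk
      have hg := ih (by omega)
      have hn1 : -(N : ℤ) ≤ -(N : ℤ) + (k : ℕ) := by omega
      have hn2 : -(N : ℤ) + (k : ℕ) < 0 := by omega
      have en : -(N : ℤ) + (k + 1 : ℕ) = (-(N : ℤ) + (k : ℕ)) + 1 := by push_cast; ring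
      have e4 : (-(N : ℤ) + (k : ℕ) - (-(N : ℤ) - 1)).toNat = k + 1 := by
        have : -(N : ℤ) + (k : ℕ) - (-(N : ℤ) - 1) = ((k + 1 : ℕ) : ℤ) := by push_cast; ring
        rw [this, Int.toNat_natCast]
      rw [en]
      have h1 := hD _ (by omega) hn2.le
      rw [e4] at h1
      generalize -(N : ℤ) + (k : ℕ) = n at *
      rw [add_sub_cancel_right]
      obtain ⟨c, hc⟩ := hp n hn1 hn2
      have hW1 := hxW n
      have hW2 := hyW n hn1 hn2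
      rw [hc] at hW1 hW2
      have h2 := taylor_plain F ha c hW1 hW2
      have h3 : (y n - x n) - t n * (y (n + 1) - x (n + 1)) =
          t n * (b * ((y (n - 1) - x (n - 1)) - t (n - 1) * (y n - x n)) -
            (F.P a (y n) - F.P a (x n) - F.P1 a (x n) * (y n - x n))) := by
        have h4 := htt n c hc
        have h5 := hxe n c hc
        have h6 := hy n hn1 hn2
        rw [h5, h6]
        linear_combination -(y n - x n) * h4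
      rw [h3, pow_succ]
      refine bwd_num (htb n).1 (htb n).2 hd2 hg ?_
      refine h2.trans (mul_le_mul_of_nonneg_left ?_ eps_pos.le)
      have h7 : |y n - x n| ≤ 4 * ((1 / 2 ^ 119) ^ k * (1 / 2 ^ 119)) + |y 0 - x 0| * 1 := by
        rw [← pow_succ]
        refine h1.trans (add_le_add le_rfl ?_)
        exact mul_le_mul_of_nonneg_left (hpw' _) (abs_nonneg _)
      have h8 : (0 : ℝ) ≤ (1 / 2 ^ 119) ^ k * (1 / 2 ^ 119) := by positivity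
      generalize ((1 : ℝ) / 2 ^ 119) ^ k * (1 / 2 ^ 119) = Z at *
      have h9 : (y n - x n) ^ 2 ≤ (|y 0 - x 0| + 4 * Z) ^ 2 := by
        rw [← sq_abs (y n - x n)]
        refine pow_le_pow_left₀ (abs_nonneg _) ?_ 2
        linarith
      have h10 : (|y 0 - x 0| - 4 * Z) ^ 2 ≥ 0 := sq_nonneg _
      have h11 : |y 0 - x 0| ^ 2 = (y 0 - x 0) ^ 2 := sq_abs _
      nlinarith
  have h1 := key N le_rfl
  have h2 : -(N : ℤ) + (N : ℕ) = 0 := by omega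
  rw [h2, zero_sub] at h1
  refine h1.trans (add_le_add ?_ le_rfl)
  have h3 : (0 : ℝ) ≤ (1 / 2 ^ 119) ^ N := by positivity
  nlinarith

end Pool.Agent.WildW
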