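import Pool.Agent.Lib.MP_3dbc4a_an_WT.Taylor

/-!
# MP_3dbc4a_an, project W, block T: orbits near a tangency, forward part
-/

set_option autoImplicit false

open Filter Set
open scoped Topology

namespace Pool.Agent.WildW

theorem eps_900 : eps = 1 / 2 ^ 900 * (1 / 2 ^ 100) := by
  unfold eps
  rw [div_mul_div_comm, one_mul, ← pow_add]

/-- one step of the induction, in numbers -/
private theorem fwd_num {g q r X d2 : ℝ} (hr0 : 0 ≤ r) (hr : r ≤ 1 / 2 ^ 19) (hX : 0 ≤ X)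
    (hd : 0 ≤ d2) (hg : |g| ≤ (6 - X) * X + 1 / 2 ^ 900 * d2)
    (hq : |q| ≤ eps * (2 * d2 + 32 * (X * (1 / 2 ^ 19)) ^ 2)) :
    |r * (g - q)| ≤ (6 - X * (1 / 2 ^ 19)) * (X * (1 / 2 ^ 19)) + 1 / 2 ^ 900 * d2 := by
  have h1 : |g - q| ≤ |g| + |q| := by
    have := abs_add_le g (-q)
    rwa [abs_neg, ← sub_eq_add_neg] at this
  have h2 : |r * (g - q)| ≤ 1 / 2 ^ 19 * ((6 - X) * X + 1 / 2 ^ 900 * d2 +
      eps * (2 * d2 + 32 * (X * (1 / 2 ^ 19)) ^ 2)) := by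
    rw [abs_mul, abs_of_nonneg hr0]
    exact mul_le_mul hr (h1.trans (add_le_add hg hq)) (abs_nonneg _) (by positivity)
  refine h2.trans ?_
  rw [eps_900]
  have h3 : (0 : ℝ) ≤ 1 / 2 ^ 900 := by positivity
  have h4 : (1 : ℝ) / 2 ^ 900 ≤ 1 := by
    rw [div_le_one (by positivity)]
    exact one_le_pow₀ (by norm_num)
  generalize (1 : ℝ) / 2 ^ 900 = e at h3 h4
  have h5 : 0 ≤ X ^ 2 := sq_nonneg X
  have h6 : e * d2 * (1 / 2 ^ 19 + 1 / 2 ^ 19 * (1 / 2 ^ 100) * 2) ≤ e * d2 :=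
    mul_le_of_le_one_right (mul_nonneg h3 hd) (by norm_num)
  have h7 : e * X ^ 2 ≤ 1 * X ^ 2 := mul_le_mul_of_nonneg_right h4 h5
  have h8 : 1 / 2 ^ 19 * ((6 - X) * X + e * d2 +
      e * (1 / 2 ^ 100) * (2 * d2 + 32 * (X * (1 / 2 ^ 19)) ^ 2)) =
      6 * (X * (1 / 2 ^ 19)) - X ^ 2 * (1 / 2 ^ 19) +
      e * d2 * (1 / 2 ^ 19 + 1 / 2 ^ 19 * (1 / 2 ^ 100) * 2) +
      1 / 2 ^ 19 * (1 / 2 ^ 100) * 32 * (1 / 2 ^ 19) ^ 2 * (e * X ^ 2) := by ring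
  rw [h8]
  have h9 : (1 : ℝ) / 2 ^ 19 * (1 / 2 ^ 100) * 32 * (1 / 2 ^ 19) ^ 2 * (e * X ^ 2) ≤
      1 / 2 ^ 20 * X ^ 2 := by
    refine (mul_le_mul_of_nonneg_left h7 (by positivity)).trans ?_
    rw [one_mul]
    exact mul_le_mul_of_nonneg_right (by norm_num) h5
  have h10 : X ^ 2 * ((1 : ℝ) / 2 ^ 19) - 1 / 2 ^ 20 * X ^ 2 - (X * (1 / 2 ^ 19)) ^ 2 =
      X ^ 2 * (1 / 2 ^ 20 - 1 / 2 ^ 38) := by ring
  have h11 : 0 ≤ X ^ 2 * ((1 : ℝ) / 2 ^ 20 - 1 / 2 ^ 38) := mul_nonneg h5 (by norm_num)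
  nlinarith

/-- **Forward part.** `x, r` solution of `s`, `D = y - x`, `g_n = D_n - b r_n D_{n-1}`,
`q_n = P(y_n) - P(x_n) - P1(x_n) D_n`. At a plain `n`: `g_n = r_n (g_{n+1} - q_n)` (from
`r_n (P1(x_n) - b r_{n+1}) = 1`), `|q_n| ≤ eps D_n^2` (`taylor_plain`), and `orb_cmp` on `(0, l)`:
`|D_n| ≤ 4 (2^-119)^n ...`, precisely `|D_n| ≤ |D_0| (2^-119)^n + 4 (2^-19)^(l-n)`. Downward induction
over `n = l..1` (`k = l - n`): `|g_n| ≤ (6 - (2^-19)^k) (2^-19)^k + 2^-900 D_0^2`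
(`0 ≤ r_n ≤ 2^-19`; `|g_l| ≤ |D_l| + b |D_{l-1}| ≤ 5`; the new terms are
`2^-19 * 2 eps (D_0^2 + 16 (2^-19)^(2k))`). -/
theorem fwd_part (F : Fam) {a : Fin 8 → ℝ} (ha : Cube a) {s : ℤ → Lt} (hs : Adm (symOf s))
    {l : ℕ} (hl : 1 ≤ l) (hp : ∀ n : ℤ, 1 ≤ n → n < l → ∃ c, s n = .p c) {y : ℤ → ℝ}
    (hy : ∀ n : ℤ, 1 ≤ n → n < l → F.P a (y n) = y (n + 1) + b * y (n - 1))
    (hyW : ∀ n : ℤ, 1 ≤ n → n < l → y n ∈ (s n).W)
    (hyl : |y l - xs F a (symOf s) l| ≤ 4) (hy0 : |y 0 - xs F a (symOf s) 0| ≤ 4) :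
    |(y 1 - xs F a (symOf s) 1) - b * rs F a (symOf s) 1 * (y 0 - xs F a (symOf s) 0)| ≤
      6 * (1 / 2 ^ 19) ^ (l - 1) + 1 / 2 ^ 900 * (y 0 - xs F a (symOf s) 0) ^ 2 := by
  have hrb : ∀ n, 0 ≤ rs F a (symOf s) n ∧ rs F a (symOf s) n ≤ 1 / 2 ^ 19 := OB.rs_b F ha hs
  have hD : ∀ m : ℤ, 0 ≤ m → m ≤ l → |y m - xs F a (symOf s) m| ≤
      |y 0 - xs F a (symOf s) 0| * (1 / 2 ^ 119) ^ (m - 0).toNat +
        4 * (1 / 2 ^ 19) ^ ((l : ℤ) - m).toNat := by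
    intro m hm1 hm2
    refine orb_cmp F ha (abs_nonneg _) (by norm_num) (N₁ := 0) (N₂ := l) ?_ ?_ ?_ le_rfl hyl
      hm1 hm2
    · intro n hn1 hn2
      obtain ⟨c, hc⟩ := hp n (by omega) hn2
      have h1 := OB.xs_W F ha hs n
      have h2 := hyW n (by omega) hn2
      rw [hc] at h1 h2
      exact ⟨c, h1, h2⟩
    · intro n hn1 hn2
      obtain ⟨c, hc⟩ := hp n (by omega) hn2
      exact OB.xs_eq F ha hs hc
    · intro n hn1 hn2
      exact hy n (by omega) hn2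
  have hrr : ∀ (n : ℤ) (c : Pl), s n = .p c → rs F a (symOf s) n *
      (F.P1 a (xs F a (symOf s) n) - b * rs F a (symOf s) (n + 1)) = 1 :=
    fun n c hc => OB.rs_rec F ha hs hc
  have hxe : ∀ (n : ℤ) (c : Pl), s n = .p c → F.P a (xs F a (symOf s) n) =
      xs F a (symOf s) (n + 1) + b * xs F a (symOf s) (n - 1) :=
    fun n c hc => OB.xs_eq F ha hs hc
  have hxW : ∀ n, xs F a (symOf s) n ∈ (s n).W := OB.xs_W F ha hs
  generalize xs F a (symOf s) = x at *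
  generalize rs F a (symOf s) = r at *
  have hd2 : 0 ≤ (y 0 - x 0) ^ 2 := sq_nonneg _
  have hpw : ∀ m : ℕ, ((1 : ℝ) / 2 ^ 119) ^ m ≤ 1 := fun m =>
    pow_le_one₀ (by positivity) (by norm_num)
  have hpw' : ∀ m : ℕ, ((1 : ℝ) / 2 ^ 19) ^ m ≤ 1 := fun m =>
    pow_le_one₀ (by positivity) (by norm_num)
  have hD8 : ∀ m : ℤ, 0 ≤ m → m ≤ l → |y m - x m| ≤ 8 := by
    intro m hm1 hm2
    have h1 := hD m hm1 hm2
    have h2 := mul_le_mul hy0 (hpw (m - 0).toNat) (by positivity) (by norm_num)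
    have h3 := hpw' ((l : ℤ) - m).toNat
    linarith
  have key : ∀ k : ℕ, k + 1 ≤ l → |(y ((l : ℤ) - k) - x ((l : ℤ) - k)) -
      b * r ((l : ℤ) - k) * (y ((l : ℤ) - k - 1) - x ((l : ℤ) - k - 1))| ≤
      (6 - (1 / 2 ^ 19) ^ k) * (1 / 2 ^ 19) ^ k + 1 / 2 ^ 900 * (y 0 - x 0) ^ 2 := by
    intro k
    induction k with
    | zero =>
      intro _
      simp only [Nat.cast_zero, sub_zero, pow_zero, mul_one]
      have h1 := hD8 ((l : ℤ) - 1) (by omega) (by omega)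
      have h2 := hrb l
      have h3 : b * r l ≤ 1 / 8 := by
        have h4 : b * r l ≤ 1 * (1 / 2 ^ 19) :=
          mul_le_mul b_lt_one.le h2.2 h2.1 zero_le_one
        have h5 : (1 : ℝ) * (1 / 2 ^ 19) ≤ 1 / 8 := by norm_num
        linarith
      have h4 : 0 ≤ b * r l := mul_nonneg b_pos.le h2.1
      have h5 : |b * r l * (y ((l : ℤ) - 1) - x ((l : ℤ) - 1))| ≤ 1 / 8 * 8 := by
        rw [abs_mul, abs_of_nonneg h4]
        exact mul_le_mul h3 h1 (abs_nonneg _) (by norm_num)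
      have h6 := abs_sub (y l - x l) (b * r l * (y ((l : ℤ) - 1) - x ((l : ℤ) - 1)))
      have h7 : (0 : ℝ) ≤ 1 / 2 ^ 900 * (y 0 - x 0) ^ 2 := mul_nonneg (by positivity) hd2
      linarith
    | succ k ih =>
      intro hk
      have hg := ih (by omega)
      have hn1 : (1 : ℤ) ≤ (l : ℤ) - (k + 1 : ℕ) := by push_cast; omega
      have hn2 : (l : ℤ) - (k + 1 : ℕ) < l := by push_cast; omega
      have en : (l : ℤ) - (k : ℕ) = ((l : ℤ) - (k + 1 : ℕ)) + 1 := by push_cast; ring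
      have e4 : ((l : ℤ) - ((l : ℤ) - (k + 1 : ℕ))).toNat = k + 1 := by
        have : (l : ℤ) - ((l : ℤ) - (k + 1 : ℕ)) = ((k + 1 : ℕ) : ℤ) := by ring
        rw [this, Int.toNat_natCast]
      rw [en] at hg
      have h1 := hD _ (by omega) hn2.le
      rw [e4] at h1
      generalize (l : ℤ) - (k + 1 : ℕ) = n at *
      rw [add_sub_cancel_right] at hg
      obtain ⟨c, hc⟩ := hp n hn1 hn2
      have hW1 := hxW n
      have hW2 := hyW n hn1 hn2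
      rw [hc] at hW1 hW2
      have h2 := taylor_plain F ha c hW1 hW2
      have h3 : (y n - x n) - b * r n * (y (n - 1) - x (n - 1)) =
          r n * ((y (n + 1) - x (n + 1)) - b * r (n + 1) * (y n - x n) -
            (F.P a (y n) - F.P a (x n) - F.P1 a (x n) * (y n - x n))) := by
        have h4 := hrr n c hc
        have h5 := hxe n c hc
        have h6 := hy n hn1 hn2
        rw [h5, h6]
        linear_combination -(y n - x n) * h4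
      rw [h3, pow_succ]
      refine fwd_num (hrb n).1 (hrb n).2 (by positivity) hd2 hg ?_
      refine h2.trans (mul_le_mul_of_nonneg_left ?_ eps_pos.le)
      have h7 : |y n - x n| ≤ |y 0 - x 0| * 1 + 4 * ((1 / 2 ^ 19) ^ k * (1 / 2 ^ 19)) := by
        rw [← pow_succ]
        refine h1.trans (add_le_add ?_ le_rfl)
        exact mul_le_mul_of_nonneg_left (hpw _) (abs_nonneg _)
      have h8 : (0 : ℝ) ≤ (1 / 2 ^ 19) ^ k * (1 / 2 ^ 19) := by positivity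
      generalize ((1 : ℝ) / 2 ^ 19) ^ k * (1 / 2 ^ 19) = Z at *
      have h9 : (y n - x n) ^ 2 ≤ (|y 0 - x 0| + 4 * Z) ^ 2 := by
        rw [← sq_abs (y n - x n)]
        refine pow_le_pow_left₀ (abs_nonneg _) ?_ 2
        linarith
      have h10 : (|y 0 - x 0| - 4 * Z) ^ 2 ≥ 0 := sq_nonneg _
      have h11 : |y 0 - x 0| ^ 2 = (y 0 - x 0) ^ 2 := sq_abs _
      nlinarith
  have h1 := key (l - 1) (by omega)
  have h2 : (l : ℤ) - (l - 1 : ℕ) = 1 := by omega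
  rw [h2] at h1
  simp only [sub_self] at h1
  refine h1.trans (add_le_add ?_ le_rfl)
  have h3 : (0 : ℝ) ≤ (1 / 2 ^ 19) ^ (l - 1) := by positivity
  nlinarith

end Pool.Agent.WildW
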