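import Pool.Agent.Lib.MP_3dbc4a_an_WT.BwdP
import Pool.Agent.Lib.MP_3dbc4a_an_WT.FwdP

/-!
# MP_3dbc4a_an, project W, block T: orbits near a tangency
-/

set_option autoImplicit false

open Filter Set
open scoped Topology

namespace Pool.Agent.WildW

/-- **Close.** `x` is true at `0` (`Phi = 0`), `P1(x_0) = b (r_1 + t_{-1})`, so
`q_0 = g_1 + b v_0`, `(2^20 - 1) D_0^2 ≤ |q_0|` (`taylor_fold`), `fwd_part`, `bwd_part`. The second
claim is `orb_cmp` on `(-N-1, 0)` at `-1`. (`D_0` is at most `4` by `W_diff`.) -/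
theorem close_fold (F : Fam) {a : Fin 8 → ℝ} (ha : Cube a) {s : ℤ → Lt} (hs : Adm (symOf s))
    {i : Fin 8} (h0 : s 0 = .d i) {l N : ℕ} (hl : 1 ≤ l)
    (hp : ∀ n : ℤ, 1 ≤ n → n < l → ∃ c, s n = .p c)
    (hm : ∀ n : ℤ, -(N : ℤ) ≤ n → n < 0 → ∃ c, s n = .p c)
    (hPhi : Phi F a (symOf s) 0 = 0) {y : ℤ → ℝ}
    (hy : ∀ n : ℤ, -(N : ℤ) ≤ n → n < l → F.P a (y n) = y (n + 1) + b * y (n - 1))
    (hyW : ∀ n : ℤ, -(N : ℤ) ≤ n → n < l → y n ∈ (s n).W)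
    (hyl : |y l - xs F a (symOf s) l| ≤ 4)
    (hyN : |y (-(N : ℤ) - 1) - xs F a (symOf s) (-(N : ℤ) - 1)| ≤ 4) :
    (y 0 - xs F a (symOf s) 0) ^ 2 ≤ (1 / 2 ^ 19) ^ (l - 1) + (1 / 2 ^ 119) ^ N ∧
      |y (-1) - xs F a (symOf s) (-1)| ≤ |y 0 - xs F a (symOf s) 0| + 4 * (1 / 2 ^ 119) ^ N := by
  have hW1 := OB.xs_W F ha hs 0
  have hW2 := hyW 0 (by omega) (by omega)
  have hy0 : |y 0 - xs F a (symOf s) 0| ≤ 4 := W_diff hW2 hW1
  have hf := fwd_part F ha hs hl hp (fun n h1 h2 => hy n (by omega) h2)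
    (fun n h1 h2 => hyW n (by omega) h2) hyl hy0
  have hb := bwd_part F ha hs hm (fun n h1 h2 => hy n h1 (by omega))
    (fun n h1 h2 => hyW n h1 (by omega)) hyN hy0
  have hc := orb_cmp F ha (x := xs F a (symOf s)) (y := y) (N₁ := -(N : ℤ) - 1) (N₂ := 0)
    (A := 4) (B := |y 0 - xs F a (symOf s) 0|) (by norm_num) (abs_nonneg _) (fun n h1 h2 => by
      obtain ⟨c, hc⟩ := hm n (by omega) h2
      have h3 := OB.xs_W F ha hs n
      have h4 := hyW n (by omega) (by omega)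
      rw [hc] at h3 h4
      exact ⟨c, h3, h4⟩) (fun n h1 h2 => by
      obtain ⟨c, hc⟩ := hm n (by omega) h2
      exact OB.xs_eq F ha hs hc) (fun n h1 h2 => hy n (by omega) (by omega)) hyN le_rfl
    (m := -1) (by omega) (by omega)
  have hfe := OB.fold_eq F ha hs h0
  have hye := hy 0 (by omega) (by omega)
  rw [h0] at hW1 hW2
  have htf := taylor_fold F ha i hW1 hW2
  unfold Phi at hPhi
  simp only [zero_add, zero_sub] at hfe hye hPhi
  have e1 : ((-1 : ℤ) - (-(N : ℤ) - 1)).toNat = N := by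
    have : (-1 : ℤ) - (-(N : ℤ) - 1) = (N : ℤ) := by ring
    rw [this, Int.toNat_natCast]
  have e2 : ((0 : ℤ) - (-1)).toNat = 1 := by decide
  rw [e1, e2, pow_one] at hc
  generalize xs F a (symOf s) = x at *
  generalize rs F a (symOf s) = r at *
  generalize ts F a (symOf s) = t at *
  have hq : F.P a (y 0) - F.P a (x 0) - F.P1 a (x 0) * (y 0 - x 0) =
      ((y 1 - x 1) - b * r 1 * (y 0 - x 0)) +
        b * ((y (-1) - x (-1)) - t (-1) * (y 0 - x 0)) := by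
    rw [hfe]
    linear_combination hye - hPhi
  rw [hq] at htf
  have hb0 := b_pos
  have hb1 := b_lt_one
  have h1 := abs_add_le ((y 1 - x 1) - b * r 1 * (y 0 - x 0))
    (b * ((y (-1) - x (-1)) - t (-1) * (y 0 - x 0)))
  rw [abs_mul, abs_of_pos hb0] at h1
  have h2 : b * |(y (-1) - x (-1)) - t (-1) * (y 0 - x 0)| ≤
      1 * (6 * (1 / 2 ^ 119) ^ N + 1 / 2 ^ 900 * (y 0 - x 0) ^ 2) :=
    mul_le_mul hb1.le hb (abs_nonneg _) zero_le_one
  have hd2 : 0 ≤ (y 0 - x 0) ^ 2 := sq_nonneg _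
  have h3 : (1 : ℝ) / 2 ^ 900 * (y 0 - x 0) ^ 2 ≤ 1 * (y 0 - x 0) ^ 2 := by
    refine mul_le_mul_of_nonneg_right ?_ hd2
    rw [div_le_one (by positivity)]
    exact one_le_pow₀ (by norm_num)
  have hX : (0 : ℝ) ≤ (1 / 2 ^ 19) ^ (l - 1) := by positivity
  have hY : (0 : ℝ) ≤ (1 / 2 ^ 119) ^ N := by positivity
  constructor
  · norm_num at htf ⊢
    norm_num at h1 h2 h3 hf hX hY
    linarith
  · have h4 := abs_nonneg (y 0 - x 0)
    have h5 : |y 0 - x 0| * (1 / 2 ^ 19) ≤ |y 0 - x 0| :=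
      mul_le_of_le_one_right h4 (by norm_num)
    linarith

end Pool.Agent.WildW
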