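import Pool.Agent.Lib.MP_3dbc4a_an_WT.Curve

/-!
# MP_3dbc4a_an, project W, block T: copying a piece of the unstable curve
-/

set_option autoImplicit false

open Filter Set
open scoped Topology

namespace Pool.Agent.WildW

private theorem copy_dist (F : Fam) (a : Fin 8 → ℝ) (x y : ℝ) :
    dist ((x, y) : ℝ × ℝ) (gam F a x) = |y - phi F a x| := by
  unfold gam
  rw [Prod.dist_eq, dist_self, Real.dist_eq]
  exact max_eq_right (abs_nonneg _)

/-- an open set containing a point of the curve contains the vertical segment around it -/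
private theorem copy_open (F : Fam) (a : Fin 8 → ℝ) {x : ℝ} {V : Set (ℝ × ℝ)} (hV : IsOpen V)
    (hx : gam F a x ∈ V) : ∃ δ > 0, ∀ y, |y - phi F a x| < δ → ((x, y) : ℝ × ℝ) ∈ V := by
  obtain ⟨δ, hδ, h⟩ := Metric.isOpen_iff.1 hV _ hx
  refine ⟨δ, hδ, fun y hy => h ?_⟩
  rw [Metric.mem_ball, copy_dist]
  exact hy

/-- **st_copy**. Proof. `K = gam '' Icc al be` is compact (`gam_cont`; `[al, be] ⊆ [-4h, 3 + h]`), the set
`U = {z | ∀ j ≤ n, -1/2 < (f^j z).2 < 7/2}` is open and contains `K` (`hS.bd`), so some thickening of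
`K` of radius `δ₁` lies in `U` (`IsCompact.exists_thickening_subset_open`), and
`dist (x, y) (gam x) = |y - phi x|`. By continuity of `f^n` at `gam al`, `gam be` there are `δ₂`, `δ₃` for
the last two clauses (`-3h < -2h`, `3 < 3 + h/2`). `δ = min (ε) (min (δ₁/2) (min δ₂ δ₃))`. -/
theorem st_copy (F : Fam) {a : Fin 8 → ℝ} (ha : Cube a) {al be : ℝ} {n : ℕ} (hS : St F a al be n)
    {ε : ℝ} (hε : 0 < ε) :
    ∃ δ > 0, δ ≤ ε ∧ ∀ x ∈ Icc al be, ∀ y, |y - phi F a x| ≤ δ →
      (∀ j ≤ n, -(1 / 2) < ((F.map a)^[j] (x, y)).2 ∧ ((F.map a)^[j] (x, y)).2 < 7 / 2) ∧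
      (x = al → ((F.map a)^[n] (x, y)).1 ≤ -(2 * h)) ∧
      (x = be → 3 ≤ ((F.map a)^[n] (x, y)).1) := by
  have hh := h_pos
  have hsub : Icc al be ⊆ Icc (-(4 * h)) (3 + h) := by
    intro x hx
    exact ⟨by linarith [hx.1, hS.lo], by linarith [hx.2, hS.hi]⟩
  have hK : IsCompact (gam F a '' Icc al be) :=
    isCompact_Icc.image_of_continuousOn ((gam_cont F ha).mono hsub)
  have hit : ∀ j : ℕ, Continuous ((F.map a)^[j]) := fun j => (F.map_cont a).iterate j
  have hU : IsOpen (⋂ j ∈ Finset.range (n + 1),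
      {z : ℝ × ℝ | -(1 / 2) < ((F.map a)^[j] z).2 ∧ ((F.map a)^[j] z).2 < 7 / 2}) := by
    refine isOpen_biInter_finset fun j _ => ?_
    exact (isOpen_lt continuous_const (continuous_snd.comp (hit j))).inter
      (isOpen_lt (continuous_snd.comp (hit j)) continuous_const)
  have hKU : gam F a '' Icc al be ⊆ ⋂ j ∈ Finset.range (n + 1),
      {z : ℝ × ℝ | -(1 / 2) < ((F.map a)^[j] z).2 ∧ ((F.map a)^[j] z).2 < 7 / 2} := by
    rintro _ ⟨x, hx, rfl⟩
    simp only [mem_iInter]
    intro j hj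
    exact hS.bd x hx j (Nat.lt_succ_iff.1 (Finset.mem_range.1 hj))
  obtain ⟨δ₁, hδ₁, h1⟩ := hK.exists_thickening_subset_open hU hKU
  obtain ⟨δ₂, hδ₂, h2⟩ := copy_open F a (x := al)
    (V := {z | ((F.map a)^[n] z).1 < -(2 * h)})
    (isOpen_lt (continuous_fst.comp (hit n)) continuous_const)
    (by have := hS.lft; simp only [Set.mem_ofPred_eq]; linarith)
  obtain ⟨δ₃, hδ₃, h3⟩ := copy_open F a (x := be)
    (V := {z | 3 < ((F.map a)^[n] z).1})
    (isOpen_lt continuous_const (continuous_fst.comp (hit n)))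
    (by have := hS.rgt; simp only [Set.mem_ofPred_eq]; linarith)
  refine ⟨min ε (min (δ₁ / 2) (min (δ₂ / 2) (δ₃ / 2))),
    lt_min hε (lt_min (half_pos hδ₁) (lt_min (half_pos hδ₂) (half_pos hδ₃))),
    min_le_left _ _, ?_⟩
  intro x hx y hy
  have e1 : |y - phi F a x| < δ₁ := by
    have := hy.trans ((min_le_right _ _).trans (min_le_left _ _))
    linarith
  have e2 : |y - phi F a x| < δ₂ := by
    have := hy.trans ((min_le_right _ _).trans ((min_le_right _ _).trans (min_le_left _ _)))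
    linarith
  have e3 : |y - phi F a x| < δ₃ := by
    have := hy.trans ((min_le_right _ _).trans ((min_le_right _ _).trans (min_le_right _ _)))
    linarith
  refine ⟨fun j hj => ?_, ?_, ?_⟩
  · have h4 : ((x, y) : ℝ × ℝ) ∈ Metric.thickening δ₁ (gam F a '' Icc al be) := by
      rw [Metric.mem_thickening_iff]
      exact ⟨gam F a x, ⟨x, hx, rfl⟩, by rw [copy_dist]; exact e1⟩
    have h5 := h1 h4
    simp only [mem_iInter] at h5
    exact h5 j (Finset.mem_range.2 (Nat.lt_succ_iff.2 hj))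
  · intro hxa
    subst hxa
    exact (h2 y e2).le
  · intro hxb
    subst hxb
    exact (h3 y e3).le

end Pool.Agent.WildW
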