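import Pool.Agent.Lib.MP_3dbc4a_an_WT.Cmp
import Pool.Agent.Lib.MP_3dbc4a_an_WT.Defs

/-!
# MP_3dbc4a_an, project W, block T: the unstable curve
-/

set_option autoImplicit false

open Filter Set
open scoped Topology

namespace Pool.Agent.WildW

private theorem curve_neg (x : ℝ) {n : ℤ} (hn : n < 0) : ux x n = .p (.e estar) := if_pos hn

private theorem curve_nn (x : ℝ) {n : ℤ} (hn : 0 ≤ n) : ux x n = .pin x := if_neg (not_lt.2 hn)

theorem adm_ux {x : ℝ} (hx : x ∈ Icc (-(4 * h)) (3 + h)) : Adm (ux x) := by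
  constructor
  · intro n j hn
    rcases lt_or_ge n 0 with h0 | h0
    · rw [curve_neg x h0] at hn
      simp at hn
    · rw [curve_nn x h0] at hn
      simp at hn
  · intro n v hn
    rcases lt_or_ge n 0 with h0 | h0
    · rw [curve_neg x h0] at hn
      simp at hn
    · rw [curve_nn x h0] at hn
      have : x = v := by simpa using hn
      rw [← this]
      exact hx

/-- the solution of `ux x` is in the window of `estar` for `n < 0`, and is true there -/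
theorem ux_facts (F : Fam) {a : Fin 8 → ℝ} (ha : Cube a) {x : ℝ} (hx : x ∈ Icc (-(4 * h)) (3 + h)) :
    xs F a (ux x) 0 = x ∧ ∀ n : ℤ, n < 0 → xs F a (ux x) n ∈ (Lt.p (.e estar)).W ∧
      F.P a (xs F a (ux x) n) = xs F a (ux x) (n + 1) + b * xs F a (ux x) (n - 1) := by
  have h1 := isSol_sol F ha (adm_ux hx)
  exact ⟨(h1.pin 0 x (curve_nn x le_rfl)).1, fun n hn ↦
    ⟨h1.plW n _ (curve_neg x hn), h1.plx n _ (curve_neg x hn)⟩⟩

theorem phi_mem (F : Fam) {a : Fin 8 → ℝ} (ha : Cube a) {x : ℝ} (hx : x ∈ Icc (-(4 * h)) (3 + h)) :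
    phi F a x ∈ (Lt.p (.e estar)).W :=
  ((ux_facts F ha hx).2 (-1) (by norm_num)).1

/-- Proof. `orb_cmp` for the solutions of `ux x`, `ux x'` on `(-N, 0)` with `A = 4`, `B = |x - x'|`, at
`m = -1`: `|D| ≤ 4 * (2^-119)^(N-1) + |x - x'| 2^-19`; let `N → ∞`. -/
theorem phi_lip (F : Fam) {a : Fin 8 → ℝ} (ha : Cube a) {x x' : ℝ}
    (hx : x ∈ Icc (-(4 * h)) (3 + h)) (hx' : x' ∈ Icc (-(4 * h)) (3 + h)) :
    |phi F a x - phi F a x'| ≤ |x - x'| := by
  obtain ⟨a1, a2⟩ := ux_facts F ha hx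
  obtain ⟨b1, b2⟩ := ux_facts F ha hx'
  have key : ∀ N : ℕ, |phi F a x - phi F a x'| ≤
      4 * (1 / 2 ^ 119) ^ N + |x - x'| * (1 / 2 ^ 19) ^ 1 := by
    intro N
    have h1 := orb_cmp F ha (x := xs F a (ux x')) (y := xs F a (ux x)) (N₁ := -((N : ℤ) + 1))
      (N₂ := 0) (A := 4) (B := |x - x'|) (by norm_num) (abs_nonneg _)
      (fun m _ hm ↦ ⟨.e estar, (b2 m hm).1, (a2 m hm).1⟩) (fun m _ hm ↦ (b2 m hm).2)
      (fun m _ hm ↦ (a2 m hm).2)
      (W_diff (a2 _ (by omega)).1 (b2 _ (by omega)).1) (by rw [a1, b1]) (m := -1) (by omega)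
      (by norm_num)
    have e1 : (-1 - -((N : ℤ) + 1)).toNat = N := by omega
    have e2 : (0 - (-1) : ℤ).toNat = 1 := by norm_num
    rw [e1, e2] at h1
    exact h1
  have hlim : Tendsto (fun N : ℕ ↦ 4 * ((1 : ℝ) / 2 ^ 119) ^ N + |x - x'| * (1 / 2 ^ 19) ^ 1) atTop
      (𝓝 (4 * 0 + |x - x'| * (1 / 2 ^ 19) ^ 1)) := by
    refine Tendsto.add_const _ (Tendsto.const_mul _ ?_)
    exact tendsto_pow_atTop_nhds_zero_of_lt_one (by positivity) (by norm_num)
  have h2 := ge_of_tendsto' hlim key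
  refine h2.trans ?_
  have h3 : |x - x'| * ((1 : ℝ) / 2 ^ 19) ^ 1 ≤ |x - x'| * 1 :=
    mul_le_mul_of_nonneg_left (by norm_num) (abs_nonneg _)
  linarith

theorem gam_cont (F : Fam) {a : Fin 8 → ℝ} (ha : Cube a) :
    ContinuousOn (gam F a) (Icc (-(4 * h)) (3 + h)) := by
  have h1 : ContinuousOn (phi F a) (Icc (-(4 * h)) (3 + h)) := by
    refine (LipschitzOnWith.of_dist_le_mul (K := 1) fun x hx y hy ↦ ?_).continuousOn
    rw [NNReal.coe_one, one_mul, Real.dist_eq, Real.dist_eq]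
    exact phi_lip F ha hx hy
  exact continuousOn_id.prodMk h1

/-- **close**. `y_n = ob z (L + n)` (`-L ≤ n ≤ 0`), `x = y_0`, `x_n` = solution of `ux x`: `D_0 = 0`,
`|D_{-L}| ≤ 4` (both in the window of `estar`), `orb_cmp` on `(-L, 0)` at `-1`. -/
theorem phi_close (F : Fam) {a : Fin 8 → ℝ} (ha : Cube a) {L : ℕ} (hL : 1 ≤ L) {z : ℝ × ℝ}
    (hz : Follow F a z (List.replicate L (.p (.e estar))))
    (hx : ((F.map a)^[L] z).1 ∈ Icc (-(4 * h)) (3 + h)) :
    |((F.map a)^[L] z).2 - phi F a ((F.map a)^[L] z).1| ≤ 4 * (1 / 2 ^ 119) ^ (L - 1) := by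
  obtain ⟨a1, a2⟩ := ux_facts F ha hx
  set x := ((F.map a)^[L] z).1 with hxd
  have hF : ∀ k : ℕ, k < L → ob F a z k ∈ (Lt.p (.e estar)).W := by
    intro k hk
    rw [ob_nat]
    have := hz k (by simpa using hk)
    rwa [List.getElem_replicate] at this
  have hFz : ∀ m : ℤ, -(L : ℤ) ≤ m → m < 0 → ob F a z ((L : ℤ) + m) ∈ (Lt.p (.e estar)).W := by
    intro m h1 h2
    have := hF (L + m).toNat (by omega)
    rwa [Int.toNat_of_nonneg (by omega)] at this
  have h1 := orb_cmp F ha (x := xs F a (ux x)) (y := fun m ↦ ob F a z ((L : ℤ) + m))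
    (N₁ := -(L : ℤ)) (N₂ := 0) (A := 4) (B := 0) (by norm_num) le_rfl
    (fun m hm hm' ↦ ⟨.e estar, (a2 m hm').1, hFz m hm.le hm'⟩) (fun m _ hm ↦ (a2 m hm).2)
    (fun m hm hm' ↦ by
      have := ob_true F a z (n := (L : ℤ) + m) (by omega)
      simpa only [add_assoc, add_sub_assoc] using this)
    (W_diff (hFz _ le_rfl (by omega)) (a2 _ (by omega)).1)
    (by
      rw [add_zero, ob_nat, a1, ← hxd]
      simp) (m := -1) (by omega) (by norm_num)
  have e1 : (-1 - -(L : ℤ)).toNat = L - 1 := by omega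
  rw [e1, zero_mul, add_zero] at h1
  have e2 : ob F a z ((L : ℤ) + -1) = ((F.map a)^[L] z).2 := by
    rw [← ob_prev]
    rfl
  simp only [e2] at h1
  exact h1

end Pool.Agent.WildW
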