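import Pool.Agent.Lib.MP_3dbc4a_an_WI.Uniq
import Pool.Agent.Lib.MP_3dbc4a_an_WO.OSf
import Pool.Agent.Lib.MP_3dbc4a_an_WT.Defs

/-!
# MP_3dbc4a_an, project W, block T: the boundary value problem behind a fold
-/

set_option autoImplicit false

open Filter Set
open scoped Topology

namespace Pool.Agent.WildW

theorem psiA_le (B : List KB) (y ze : ℝ) {n : ℤ} (hn : n ≤ 0) : upsi B y ze n = .pin y :=
  if_pos hn

theorem psiA_f (B : List KB) (y ze : ℝ) {n : ℤ} (h1 : 1 ≤ n) (h2 : n ≤ B.length) :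
    upsi B y ze n = .p (.f (extB B mid (n - 1).toNat)) := by
  unfold upsi
  rw [if_neg (by omega), if_pos h2]

theorem psiA_k (B : List KB) (y ze : ℝ) (k : ℕ) (hk : k < B.length) :
    upsi B y ze ((k : ℤ) + 1) = .p (.f (B[k])) := by
  rw [psiA_f B y ze (by omega) (by omega), show ((k : ℤ) + 1 - 1).toNat = k by omega,
    OB.extB_lt hk]

theorem psiA_g (B : List KB) (y ze : ℝ) : upsi B y ze (B.length + 1) = .p .g := by
  unfold upsi
  rw [if_neg (by omega), if_neg (by omega), if_pos rfl]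

theorem psiA_gt (B : List KB) (y ze : ℝ) {n : ℤ} (hn : (B.length : ℤ) + 2 ≤ n) :
    upsi B y ze n = .pin ze := by
  unfold upsi
  rw [if_neg (by omega), if_neg (by omega), if_neg (by omega)]

/-- between the pins there are plain letters -/
theorem psiA_pl (B : List KB) {n : ℤ} (h1 : 1 ≤ n) (h2 : n ≤ B.length + 1) :
    ∃ c : Pl, ∀ y ze, upsi B y ze n = .p c := by
  rcases lt_or_ge (B.length : ℤ) n with h3 | h3
  · obtain rfl : n = B.length + 1 := by omega
    exact ⟨.g, fun y ze ↦ psiA_g B y ze⟩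
  · exact ⟨_, fun y ze ↦ psiA_f B y ze h1 h3⟩

theorem adm_upsi (B : List KB) {y ze : ℝ} (hy : y ∈ Icc (-(4 * h)) (3 + h))
    (hz : ze ∈ Icc (-(3 * h)) (3 + h / 2)) : Adm (upsi B y ze) := by
  have h0 := h_pos
  constructor
  · intro n j hn
    rcases le_or_gt n 0 with h1 | h1
    · rw [psiA_le B y ze h1] at hn
      simp at hn
    · rcases lt_or_ge (B.length : ℤ) n with h3 | h3
      · rcases eq_or_lt_of_le (show (B.length : ℤ) + 1 ≤ n by omega) with h4 | h4
        · rw [← h4, psiA_g] at hn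
          simp at hn
        · rw [psiA_gt B y ze (by omega)] at hn
          simp at hn
      · rcases eq_or_lt_of_le h3 with h4 | h4
        · right
          left
          rw [h4, psiA_g]
        · left
          exact ⟨_, psiA_f B y ze (by omega) (by omega)⟩
  · intro n v hn
    have hyz : v = y ∨ v = ze := by
      rcases le_or_gt n 0 with h1 | h1
      · rw [psiA_le B y ze h1] at hn
        left
        simpa using hn.symm
      · rcases le_or_gt n (B.length + 1) with h3 | h3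
        · obtain ⟨c, hc⟩ := psiA_pl B (show 1 ≤ n by omega) h3
          rw [hc] at hn
          simp at hn
        · rw [psiA_gt B y ze (by omega)] at hn
          right
          simpa using hn.symm
    rcases hyz with rfl | rfl
    · exact hy
    · exact ⟨by linarith [hz.1], by linarith [hz.2]⟩

/-- values of the solution: pinned at `0` and at `|B| + 2`, in the windows of `B`, `g` and true in
between -/
theorem upsi_facts (F : Fam) {a : Fin 8 → ℝ} (ha : Cube a) (B : List KB) {y ze : ℝ}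
    (hy : y ∈ Icc (-(4 * h)) (3 + h)) (hz : ze ∈ Icc (-(3 * h)) (3 + h / 2)) :
    xs F a (upsi B y ze) 0 = y ∧ xs F a (upsi B y ze) (B.length + 2) = ze ∧
      (∀ (k : ℕ) (hk : k < B.length),
        xs F a (upsi B y ze) ((k : ℤ) + 1) ∈ (Lt.p (.f (B[k]))).W) ∧
      xs F a (upsi B y ze) (B.length + 1) ∈ (Lt.p .g).W ∧
      ∀ n : ℤ, 1 ≤ n → n ≤ B.length + 1 → F.P a (xs F a (upsi B y ze) n) =
        xs F a (upsi B y ze) (n + 1) + b * xs F a (upsi B y ze) (n - 1) := by
  have h1 := isSol_sol F ha (adm_upsi B hy hz)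
  refine ⟨(h1.pin 0 y (psiA_le B y ze le_rfl)).1, (h1.pin _ ze (psiA_gt B y ze le_rfl)).1,
    fun k hk ↦ h1.plW _ _ (psiA_k B y ze k hk), h1.plW _ _ (psiA_g B y ze), fun n hn hn' ↦ ?_⟩
  obtain ⟨c, hc⟩ := psiA_pl B hn hn'
  exact h1.plx n c (hc y ze)

/-- the first letter is `f` or `g`: windows above `2 - h` (`lo_f`, `lo_g` in WP/WinA) -/
theorem psi_lo (F : Fam) {a : Fin 8 → ℝ} (ha : Cube a) (B : List KB) {y ze : ℝ}
    (hy : y ∈ Icc (-(4 * h)) (3 + h)) (hz : ze ∈ Icc (-(3 * h)) (3 + h / 2)) :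
    1 ≤ psi F a B y ze := by
  obtain ⟨-, -, h3, h4, -⟩ := upsi_facts F ha B hy hz
  have hh := h_hi
  have hp := h_pos
  have hs : 0 < 1 / sg := div_pos one_pos sg_pos
  have hsm : h ≤ 1 / 2 := hh.trans (by norm_num)
  unfold psi
  rcases Nat.eq_zero_or_pos B.length with h0 | h0
  · rw [h0] at h4
    simp only [Nat.cast_zero, zero_add] at h4
    have h5 := lo_g
    have h6 : Pl.g.lo ≤ xs F a (upsi B y ze) 1 := h4.1
    linarith
  · have h5 := (h3 0 h0).1
    have h6 : (Lt.p (.f (B[0]))).lo = 2 + ((B[0] : KB) : ℕ) / 2 ^ 20 - h := lo_f _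
    rw [h6] at h5
    simp only [Nat.cast_zero, zero_add] at h5
    have h7 : (0 : ℝ) ≤ ((B[0] : KB) : ℕ) / 2 ^ 20 := by positivity
    linarith

end Pool.Agent.WildW
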