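import Pool.Agent.Lib.MP_3dbc4a_an_WO.AdmSf
import Pool.Agent.Lib.MP_3dbc4a_an_WT.Cmp
import Pool.Agent.Lib.MP_3dbc4a_an_WT.PsiA

/-!
# MP_3dbc4a_an, project W, block T: the orbit behind a fold, comparison with the top future
-/

set_option autoImplicit false

open Filter Set
open scoped Topology

namespace Pool.Agent.WildW

/-- the orbit of `(psi y ze, y)` is the solution: it follows `B`, `g` and arrives at `ze`
(induction: `f^k (psi, y) = (x_{k+1}, x_k)` for `k ≤ |B| + 1`) -/
theorem psi_follow (F : Fam) {a : Fin 8 → ℝ} (ha : Cube a) (B : List KB) {y ze : ℝ}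
    (hy : y ∈ Icc (-(4 * h)) (3 + h)) (hz : ze ∈ Icc (-(3 * h)) (3 + h / 2)) :
    Follow F a (psi F a B y ze, y) (B.map (fun j => Lt.p (.f j)) ++ [.p .g]) ∧
      ((F.map a)^[B.length + 1] (psi F a B y ze, y)).1 = ze := by
  obtain ⟨a1, a2, a3, a4, a5⟩ := upsi_facts F ha B hy hz
  have key : ∀ k : ℕ, k ≤ B.length + 1 → (F.map a)^[k] (psi F a B y ze, y) =
      (xs F a (upsi B y ze) ((k : ℤ) + 1), xs F a (upsi B y ze) k) := by
    intro k
    induction k with
    | zero =>
      intro _
      simp only [Function.iterate_zero, id, Nat.cast_zero, zero_add]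
      rw [a1]
      rfl
    | succ k ih =>
      intro hk
      rw [Function.iterate_succ_apply', ih (by omega)]
      unfold Fam.map
      have h1 := a5 ((k : ℤ) + 1) (by omega) (by omega)
      rw [show (k : ℤ) + 1 - 1 = k by ring] at h1
      push_cast
      refine Prod.ext ?_ rfl
      simp only
      rw [h1]
      ring
  constructor
  · intro k hk
    simp only [List.length_append, List.length_map, List.length_singleton] at hk
    rw [key k hk.le]
    rcases Nat.lt_or_ge k B.length with h1 | h1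
    · rw [List.getElem_append_left (by simpa using h1), List.getElem_map]
      exact a3 k h1
    · obtain rfl : k = B.length := by omega
      rw [List.getElem_append_right (by simp)]
      simpa using a4
  · rw [key (B.length + 1) le_rfl]
    simp only
    have e1 : (((B.length + 1 : ℕ) : ℤ) + 1) = B.length + 2 := by push_cast; ring
    rw [e1, a2]

/-- **comparison with the top future**: `ord_first` with `l = |B|` for the solution of `upsi` and the
solution of the word `s` (`x_0` equal, same letters `B`, then the window of `g` lies below the window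
of `f top`). -/
theorem psi_top (F : Fam) {a : Fin 8 → ℝ} (ha : Cube a) (B : List KB) (i : Fin 8) (om : ℕ → KA)
    {ze : ℝ} (hz : ze ∈ Icc (-(3 * h)) (3 + h / 2)) :
    psi F a B (xs F a (symOf (sf i om (extB B top))) 0) ze ≤
      xs F a (symOf (sf i om (extB B top))) 1 := by
  set s := sf i om (extB B top) with hs
  have hadm : Adm (symOf s) := adm_sf i _ _
  have hy := OB.xs_mem F ha hadm 0
  obtain ⟨a1, a2, a3, a4, a5⟩ := upsi_facts F ha B (y := xs F a (symOf s) 0) hy hz
  have hh := h_hi
  have hp := h_pos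
  have hlet : ∀ k : ℕ, s ((k : ℤ) + 1) = .p (.f (extB B top k)) := fun k ↦ OB.sf_pos i om _ k
  refine ord_first F ha (l := B.length) (x := xs F a (upsi B (xs F a (symOf s) 0) ze))
    (y := xs F a (symOf s)) (fun m hm hm' ↦ ?_) (fun m hm hm' ↦ a5 m hm (by omega))
    (fun m hm hm' ↦ ?_) a1 ?_
  · obtain ⟨k, rfl⟩ : ∃ k : ℕ, m = (k : ℤ) + 1 := ⟨(m - 1).toNat, by omega⟩
    have hk : k < B.length := by omega
    refine ⟨.f (B[k]), a3 k hk, ?_⟩
    have h1 := OB.xs_W F ha hadm ((k : ℤ) + 1)
    rwa [hlet, OB.extB_lt hk] at h1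
  · obtain ⟨k, rfl⟩ : ∃ k : ℕ, m = (k : ℤ) + 1 := ⟨(m - 1).toNat, by omega⟩
    exact OB.xs_eq F ha hadm (hlet k)
  · have h1 := OB.xs_W F ha hadm ((B.length : ℤ) + 1)
    rw [hlet, OB.extB_ge le_rfl] at h1
    have h2 : (Lt.p (.f top)).lo = 2 + (top : ℕ) / 2 ^ 20 - h := lo_f _
    have h3 : ((top : ℕ) : ℝ) = 2 ^ 20 - 1 := by
      unfold top
      norm_num
    have h4 := h1.1
    rw [h2, h3] at h4
    have h5 : xs F a (upsi B (xs F a (symOf s) 0) ze) ((B.length : ℤ) + 1) ≤ Pl.g.hi := a4.2
    have h6 := hi_g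
    have h7 := inv_sg_le
    have h8 : (1 : ℝ) / 2 ^ 20 ≤ 1 / 4 := by norm_num
    have h9 : h ≤ 1 / 100 := hh.trans (by norm_num)
    have h10 : ((2 : ℝ) ^ 20 - 1) / 2 ^ 20 ≥ 3 / 4 := by norm_num
    linarith

end Pool.Agent.WildW
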