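import Pool.Agent.Lib.MP_3dbc4a_an_WT.PsiB
import Pool.Agent.Lib.MP_3dbc4a_an_WT.PsiC
import Pool.Agent.Lib.MP_3dbc4a_an_WT.Sub

/-!
# MP_3dbc4a_an, project W, block T: paths pass a fold
-/

set_option autoImplicit false

open Filter Set
open scoped Topology

namespace Pool.Agent.WildW

private theorem foldstep_h : 0 < h ∧ h ≤ 1 / 1000 := by
  refine ⟨h_pos, h_hi.trans ?_⟩
  norm_num

private theorem foldstep_b : 0 < b ∧ b ≤ 1 / 1000 := by
  refine ⟨b_pos, ?_⟩
  unfold b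
  norm_num

private theorem foldstep_lo (F : Fam) {a : Fin 8 → ℝ} (ha : Cube a) (i : Fin 8) :
    F.P a (Lt.d i).lo ≤ -10 := by
  have h1 := (Lt.d i).lo_lt_hi
  have h2 : (Lt.d i).lo ∈ (Lt.d i).Wp := OB.W_sub_Wp _ ⟨le_rfl, h1.le⟩
  have h3 := abs_le.1 (F.fo0 a ha i _ h2)
  have h4 : (Lt.d i).lo - cc i = -(1 / 128) := by
    show cc i - 1 / 128 - cc i = _
    ring
  rw [h4] at h3
  have h5 := abs_le.1 (ha i)
  have h6 := OB.eps_le_one
  have h7 : (2 : ℝ) ^ 20 * (-(1 / 128)) ^ 2 = 64 := by norm_num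
  rw [h7] at h3
  linarith [h3.2, h5.2]

private theorem foldstep_psi_cont (F : Fam) {a : Fin 8 → ℝ} (ha : Cube a) (B : List KB) {ze : ℝ}
    (hz : ze ∈ Icc (-(3 * h)) (3 + h / 2)) :
    ContinuousOn (fun y => psi F a B y ze) (Icc (-(4 * h)) (3 + h)) := by
  refine (LipschitzOnWith.of_dist_le_mul (K := 1) ?_).continuousOn
  intro y hy y' hy'
  have h1 := psi_lip F ha B hy hz hy' hz
  rw [Real.dist_eq, Real.dist_eq]
  simpa using h1

/-- **Fold pass.** `s* = sf i (extE E) (extB B top)`, `x* = xs s* 0` (in the window of the fold).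
Proof. `v x = F.map a (u x)`, so `(v x).2 = (u x).1`, `(v x).1 = P((u x).1) - b (u x).2`.
(1) `sub_levels` for `(u x).1` with the levels `lo = (Lt.d i).lo ≤ x*`: `[p, q]`, `(u p).1 = lo`,
`(u q).1 = x*`, `(u x).1` in the window of the fold on `[p, q]`.
(2) `D1 x = (v x).1 - psi ((u x).1) (-3h)`, `D2 x = (v x).1 - psi ((u x).1) (3 + h/2)` are
continuous on `[p, q]` (`psi_lip`), `D2 ≤ D1` (`psi_mono`). `D1 p ≤ 0`:
`P(lo) ≤ 5/2 + 1/8 - 2^20/2^14 + eps`, so `(v p).1 ≤ 0 ≤ psi` (`psi_lo`). `0 ≤ D2 q`: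
`(v q).1 = P(x*) - b (u q).2` and `P(x*) = Rr + b xs(-1) + xs(1)` (definition of `Phi`),
`|(u q).2 - xs(-1)| ≤ 4 * (2^-119)^|E|` (`fold_hist`), so
`(v q).1 ≥ xs(1) + Rr - 4 b (2^-119)^|E| ≥ xs(1) ≥ psi x* (3 + h/2)` (`psi_top`).
(3) `sub_interval` gives `[al', be']`; for each `x` in it `(v x).1 = psi ((u x).1) ze` for some `ze`
(`psi_ivt`), so `v x` follows `B`, `g` (`psi_follow`); at `al'`, `be'` it arrives at `-3h`,
`3 + h/2` (apply `psi_follow` with `ze = -3h`, `3 + h/2`). The second coordinate after `|B| + 2`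
steps is in the window of `g`. -/
theorem fold_step (F : Fam) {a : Fin 8 → ℝ} (ha : Cube a) {E : List KA} {i : Fin 8} {B : List KB}
    (hC : 8 * (1 / 2 ^ 119) ^ E.length < Rr F a i (extE E) (extB B top))
    {u : ℝ → ℝ × ℝ} {al be : ℝ} (hu : Cr u al be (-(3 * h)))
    (hist : ∀ x ∈ Icc al be, (u x).1 = xs F a (symOf (sf i (extE E) (extB B top))) 0 →
      |(u x).2 - xs F a (symOf (sf i (extE E) (extB B top))) (-1)| ≤
        4 * (1 / 2 ^ 119) ^ E.length) :
    ∃ al' be', al ≤ al' ∧ al' ≤ be' ∧ be' ≤ be ∧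
      (∀ x ∈ Icc al' be', Follow F a (u x) (.d i :: (B.map (fun j => Lt.p (.f j)) ++ [.p .g]))) ∧
      Cr (fun x => (F.map a)^[B.length + 2] (u x)) al' be' (-(3 * h)) := by
  obtain ⟨hh0, hh1⟩ := foldstep_h
  obtain ⟨hb0, hb1⟩ := foldstep_b
  set s : ℤ → Lt := sf i (extE E) (extB B top) with hs
  have hadm : Adm (symOf s) := adm_sf i (extE E) (extB B top)
  set xst : ℝ := xs F a (symOf s) 0 with hxst
  have hxW : xst ∈ (Lt.d i).W := by
    have h1 := OB.xs_W F ha hadm 0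
    rw [hs, OB.sf_zero] at h1
    exact h1
  have hxb := W_bd _ hxW
  have hlo : -(3 * h) ≤ (Lt.d i).lo := (W_bd (Lt.d i) ⟨le_rfl, (Lt.d i).lo_lt_hi.le⟩).1
  obtain ⟨p, q, hp1, hp2, hp3, hup, huq, hupq⟩ := sub_levels (D := fun x => (u x).1) hu.le
    hu.cont.fst hxW.1 (hu.lft.trans hlo) (by linarith [hu.rgt, hxb.2])
  have hsub : Icc p q ⊆ Icc al be := Icc_subset_Icc hp1 hp3
  have huW : ∀ x ∈ Icc p q, (u x).1 ∈ (Lt.d i).W := fun x hx =>
    ⟨(hupq x hx).1, (hupq x hx).2.trans hxW.2⟩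
  have huI : ∀ x ∈ Icc p q, (u x).1 ∈ Icc (-(4 * h)) (3 + h) := by
    intro x hx
    have h1 := W_bd _ (huW x hx)
    exact ⟨by linarith [h1.1], by linarith [h1.2]⟩
  have hz1 : -(3 * h) ∈ Icc (-(3 * h)) (3 + h / 2) := ⟨le_rfl, by linarith⟩
  have hz2 : 3 + h / 2 ∈ Icc (-(3 * h)) (3 + h / 2) := ⟨by linarith, le_rfl⟩
  have hvc : ContinuousOn (fun x => (F.map a (u x)).1) (Icc p q) :=
    ((F.map_cont a).comp_continuousOn (hu.cont.mono hsub)).fst
  have huc : ContinuousOn (fun x => (u x).1) (Icc p q) := (hu.cont.mono hsub).fst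
  have hpc : ∀ ze ∈ Icc (-(3 * h)) (3 + h / 2),
      ContinuousOn (fun x => psi F a B (u x).1 ze) (Icc p q) := fun ze hz =>
    (foldstep_psi_cont F ha B hz).comp huc huI
  obtain ⟨al', be', ha1, ha2, ha3, hD1, hD2, hD⟩ := sub_interval
    (D1 := fun x => (F.map a (u x)).1 - psi F a B (u x).1 (-(3 * h)))
    (D2 := fun x => (F.map a (u x)).1 - psi F a B (u x).1 (3 + h / 2)) hp2
    (hvc.sub (hpc _ hz1)) (hvc.sub (hpc _ hz2))
    (fun x hx => by
      have h1 := psi_mono F ha B (huI x hx) hz1 hz2 (by linarith)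
      linarith)
    (by
      have h1 := psi_lo F ha B (huI p ⟨le_rfl, hp2⟩) hz1
      have h2 := foldstep_lo F ha i
      have h3 := (hu.sec p (hsub ⟨le_rfl, hp2⟩)).1
      rw [Fam.map_fst]
      rw [hup] at h1 ⊢
      nlinarith)
    (by
      have h1 := psi_top F ha B i (extE E) hz2
      rw [← hs, ← hxst] at h1
      have h2 := abs_le.1 (hist q (hsub ⟨hp2, le_rfl⟩) huq)
      have h3 : Rr F a i (extE E) (extB B top) = F.P a xst - b * xs F a (symOf s) (-1) -
          xs F a (symOf s) 1 := by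
        show Phi F a (symOf (sf i (extE E) (extB B top))) 0 = _
        rw [← hs]
        unfold Phi
        rw [zero_sub, zero_add]
      rw [h3] at hC
      simp only [Fam.map_fst]
      rw [huq]
      have h4 : (0 : ℝ) ≤ (1 / 2 ^ 119) ^ E.length := by positivity
      have h5 : b * ((u q).2 - xs F a (symOf s) (-1)) ≤ 1 * (4 * (1 / 2 ^ 119) ^ E.length) := by
        rcases le_total 0 ((u q).2 - xs F a (symOf s) (-1)) with h6 | h6
        · exact mul_le_mul (by linarith) h2.2 h6 zero_le_one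
        · have := mul_nonpos_of_nonneg_of_nonpos hb0.le h6
          linarith
      linarith)
  have hsub' : Icc al' be' ⊆ Icc p q := Icc_subset_Icc ha1 ha3
  -- the orbit behind the fold
  have hst : ∀ (x : ℝ) (ze : ℝ), psi F a B (u x).1 ze = (F.map a (u x)).1 →
      F.map a (u x) = (psi F a B (u x).1 ze, (u x).1) := by
    intro x ze h1
    exact Prod.ext h1.symm (F.map_snd a (u x))
  have hfol : ∀ x ∈ Icc al' be',
      Follow F a (F.map a (u x)) (B.map (fun j => Lt.p (.f j)) ++ [.p .g]) := by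
    intro x hx
    have h1 := hD x hx
    obtain ⟨ze, hze, hze2⟩ := psi_ivt F ha B (huI x (hsub' hx)) (x1 := (F.map a (u x)).1)
      (by linarith [h1.1]) (by linarith [h1.2])
    rw [hst x ze hze2]
    exact (psi_follow F ha B (huI x (hsub' hx)) hze).1
  have hal : al' ∈ Icc al' be' := ⟨le_rfl, ha2⟩
  have hbe : be' ∈ Icc al' be' := ⟨ha2, le_rfl⟩
  refine ⟨al', be', hp1.trans ha1, ha2, ha3.trans hp3, ?_, ?_⟩
  · intro x hx k hk
    rcases k with _ | k
    · exact huW x (hsub' hx)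
    · have hk' : k < (B.map (fun j => Lt.p (.f j)) ++ [Lt.p .g]).length := by
        simp only [List.length_cons] at hk
        omega
      have h1 := hfol x hx k hk'
      rw [Function.iterate_succ_apply]
      exact h1
  · refine ⟨ha2, ?_, ?_, ?_, ?_⟩
    · exact ((F.map_cont a).iterate _).comp_continuousOn (hu.cont.mono (hsub'.trans hsub))
    · have h1 := (psi_follow F ha B (huI al' (hsub' hal)) hz1).2
      rw [← hst al' (-(3 * h)) (by linarith), ← Function.iterate_succ_apply] at h1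
      exact h1.le
    · have h1 := (psi_follow F ha B (huI be' (hsub' hbe)) hz2).2
      rw [← hst be' (3 + h / 2) (by linarith), ← Function.iterate_succ_apply] at h1
      exact h1.ge
    · intro x hx
      have h1 := hfol x hx B.length (by simp)
      rw [← Function.iterate_succ_apply] at h1
      have h2 := W_bd _ h1
      show -(1 / 2) ≤ ((F.map a)^[B.length + 1 + 1] (u x)).2 ∧
        ((F.map a)^[B.length + 1 + 1] (u x)).2 ≤ 7 / 2
      rw [Function.iterate_succ_apply', Fam.map_snd]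
      exact ⟨by linarith [h2.1], by linarith [h2.2]⟩

end Pool.Agent.WildW
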