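import Pool.Agent.Lib.MP_3dbc4a_an_WT.Cmp
import Pool.Agent.Lib.MP_3dbc4a_an_WT.PsiA

/-!
# MP_3dbc4a_an, project W, block T: continuity, monotonicity, IVT behind a fold
-/

set_option autoImplicit false

open Filter Set
open scoped Topology

namespace Pool.Agent.WildW

/-- `orb_cmp` on `(0, |B| + 2)` at `1` -/
theorem psi_lip (F : Fam) {a : Fin 8 → ℝ} (ha : Cube a) (B : List KB) {y ze y' ze' : ℝ}
    (hy : y ∈ Icc (-(4 * h)) (3 + h)) (hz : ze ∈ Icc (-(3 * h)) (3 + h / 2))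
    (hy' : y' ∈ Icc (-(4 * h)) (3 + h)) (hz' : ze' ∈ Icc (-(3 * h)) (3 + h / 2)) :
    |psi F a B y ze - psi F a B y' ze'| ≤ |y - y'| + |ze - ze'| := by
  obtain ⟨a1, a2, -, -, a5⟩ := upsi_facts F ha B hy hz
  obtain ⟨b1, b2, -, -, b5⟩ := upsi_facts F ha B hy' hz'
  have s1 := isSol_sol F ha (adm_upsi B hy hz)
  have s2 := isSol_sol F ha (adm_upsi B hy' hz')
  have h1 := orb_cmp F ha (x := xs F a (upsi B y' ze')) (y := xs F a (upsi B y ze)) (N₁ := 0)
    (N₂ := B.length + 2) (A := |y - y'|) (B := |ze - ze'|) (abs_nonneg _) (abs_nonneg _)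
    (fun m hm hm' ↦ by
      obtain ⟨c, hc⟩ := psiA_pl B (show 1 ≤ m by omega) (by omega)
      exact ⟨c, s2.plW m c (hc _ _), s1.plW m c (hc _ _)⟩)
    (fun m hm hm' ↦ b5 m (by omega) (by omega)) (fun m hm hm' ↦ a5 m (by omega) (by omega))
    (by rw [a1, b1]) (by rw [a2, b2]) (m := 1) (by norm_num) (by omega)
  have e1 : ((1 : ℤ) - 0).toNat = 1 := by norm_num
  rw [e1, pow_one] at h1
  refine h1.trans (add_le_add ?_ ?_)
  · exact mul_le_of_le_one_right (abs_nonneg _) (by norm_num)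
  · exact mul_le_of_le_one_right (abs_nonneg _) (pow_le_one₀ (by positivity) (by norm_num))

/-- `ord_first` with `l = |B| + 1` -/
theorem psi_mono (F : Fam) {a : Fin 8 → ℝ} (ha : Cube a) (B : List KB) {y ze ze' : ℝ}
    (hy : y ∈ Icc (-(4 * h)) (3 + h)) (hz : ze ∈ Icc (-(3 * h)) (3 + h / 2))
    (hz' : ze' ∈ Icc (-(3 * h)) (3 + h / 2)) (hzz : ze ≤ ze') :
    psi F a B y ze ≤ psi F a B y ze' := by
  obtain ⟨a1, a2, -, -, a5⟩ := upsi_facts F ha B hy hz
  obtain ⟨b1, b2, -, -, b5⟩ := upsi_facts F ha B hy hz'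
  have s1 := isSol_sol F ha (adm_upsi B hy hz)
  have s2 := isSol_sol F ha (adm_upsi B hy hz')
  have e1 : (((B.length + 1 : ℕ) : ℤ) + 1) = B.length + 2 := by push_cast; ring
  refine ord_first F ha (l := B.length + 1) (x := xs F a (upsi B y ze))
    (y := xs F a (upsi B y ze')) (fun m hm hm' ↦ ?_)
    (fun m hm hm' ↦ a5 m hm (by push_cast at hm'; exact hm'))
    (fun m hm hm' ↦ b5 m hm (by push_cast at hm'; exact hm')) (by rw [a1, b1]) ?_
  · obtain ⟨c, hc⟩ := psiA_pl B hm (by push_cast at hm'; exact hm')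
    exact ⟨c, s1.plW m c (hc _ _), s2.plW m c (hc _ _)⟩
  · rw [e1, a2, b2]
    exact hzz

/-- intermediate value theorem for `ze ↦ psi y ze` (continuous by `psi_lip`) -/
theorem psi_ivt (F : Fam) {a : Fin 8 → ℝ} (ha : Cube a) (B : List KB) {y x1 : ℝ}
    (hy : y ∈ Icc (-(4 * h)) (3 + h)) (h1 : psi F a B y (-(3 * h)) ≤ x1)
    (h2 : x1 ≤ psi F a B y (3 + h / 2)) :
    ∃ ze ∈ Icc (-(3 * h)) (3 + h / 2), psi F a B y ze = x1 := by
  have h0 := h_pos
  have hc : ContinuousOn (fun ze ↦ psi F a B y ze) (Icc (-(3 * h)) (3 + h / 2)) := by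
    refine (LipschitzOnWith.of_dist_le_mul (K := 1) fun u hu v hv ↦ ?_).continuousOn
    rw [NNReal.coe_one, one_mul, Real.dist_eq, Real.dist_eq]
    have := psi_lip F ha B hy hu hy hv
    rwa [sub_self, abs_zero, zero_add] at this
  obtain ⟨ze, hze, he⟩ := intermediate_value_Icc (by linarith) hc ⟨h1, h2⟩
  exact ⟨ze, hze, he⟩

end Pool.Agent.WildW
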