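import Pool.Agent.Lib.MP_3dbc4a_an_WT.Letter

/-!
# MP_3dbc4a_an, project W, block T: short subpaths
-/

set_option autoImplicit false

open Filter Set
open scoped Topology

namespace Pool.Agent.WildW

/-- **halve**. `passes_plain` for the one letter words `e (false, 0)` and `e (true, 0)` gives two
subintervals; they are disjoint, because the windows are disjoint (`Wp_disjoint`, `OB.W_sub_Wp`), so one
of them is at most half as long. -/
theorem halve (F : Fam) {a : Fin 8 → ℝ} (ha : Cube a) {u : ℝ → ℝ × ℝ} {al be : ℝ}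
    (hC : Cr u al be (-(3 * h))) :
    ∃ (c : KA) (al' be' : ℝ), al ≤ al' ∧ al' ≤ be' ∧ be' ≤ be ∧ be' - al' ≤ (be - al) / 2 ∧
      (∀ x ∈ Icc al' be', Follow F a (u x) [.p (.e c)]) ∧
      Cr (fun x => F.map a (u x)) al' be' (-(3 * h)) := by
  have hpt : ∀ c : KA, PlainTgt [Lt.p (.e c)] := fun c ↦
    ⟨[.e c], rfl, by simp, by simp⟩
  obtain ⟨a0, b0, h1, h2, h3, h4, h5⟩ := passes_plain F ha (hpt (false, 0)) u al be hC
  obtain ⟨a1, b1, k1, k2, k3, k4, k5⟩ := passes_plain F ha (hpt (true, 0)) u al be hC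
  have hdis : ¬ (a1 ≤ b0 ∧ a0 ≤ b1) := by
    rintro ⟨g1, g2⟩
    set x := max a0 a1 with hx
    have x0 : x ∈ Icc a0 b0 := ⟨le_max_left _ _, max_le h2 g1⟩
    have x1 : x ∈ Icc a1 b1 := ⟨le_max_right _ _, max_le g2 k2⟩
    have w0 := h4 x x0 0 (by simp)
    have w1 := k4 x x1 0 (by simp)
    simp only [Function.iterate_zero, id, List.getElem_cons_zero] at w0 w1
    have hne : (Lt.p (.e (false, 0)) : Lt) ≠ Lt.p (.e (true, 0)) := by
      intro he
      simp at he
    exact Set.disjoint_left.1 (Wp_disjoint hne) (OB.W_sub_Wp _ w0) (OB.W_sub_Wp _ w1)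
  rcases le_or_gt (b0 - a0) ((be - al) / 2) with hh | hh
  · exact ⟨(false, 0), a0, b0, h1, h2, h3, hh, h4, h5⟩
  · refine ⟨(true, 0), a1, b1, k1, k2, k3, ?_, k4, k5⟩
    by_contra hcon
    have hcon' := not_le.1 hcon
    apply hdis
    constructor
    · by_contra g
      have := not_le.1 g
      linarith
    · by_contra g
      have := not_le.1 g
      linarith

/-- **shrink**: iterate `halve`. -/
theorem shrink (F : Fam) {a : Fin 8 → ℝ} (ha : Cube a) {u : ℝ → ℝ × ℝ} {al be : ℝ}
    (hC : Cr u al be (-(3 * h))) {ε : ℝ} (hε : 0 < ε) :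
    ∃ (w : List Lt) (al' be' : ℝ), al ≤ al' ∧ al' ≤ be' ∧ be' ≤ be ∧ be' - al' ≤ ε ∧
      (∀ x ∈ Icc al' be', Follow F a (u x) w) ∧
      Cr (fun x => (F.map a)^[w.length] (u x)) al' be' (-(3 * h)) := by
  have key : ∀ k : ℕ, ∃ (w : List Lt) (al' be' : ℝ), al ≤ al' ∧ al' ≤ be' ∧ be' ≤ be ∧
      be' - al' ≤ (be - al) / 2 ^ k ∧ (∀ x ∈ Icc al' be', Follow F a (u x) w) ∧
      Cr (fun x => (F.map a)^[w.length] (u x)) al' be' (-(3 * h)) := by
    intro k
    induction k with
    | zero =>
      refine ⟨[], al, be, le_rfl, hC.le, le_rfl, by simp, fun x _ k hk ↦ ?_, hC⟩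
      exact absurd hk (by simp)
    | succ k ih =>
      obtain ⟨w, a0, b0, h1, h2, h3, h4, h5, h6⟩ := ih
      obtain ⟨c, a1, b1, k1, k2, k3, k4, k5, k6⟩ := halve F ha h6
      refine ⟨w ++ [.p (.e c)], a1, b1, h1.trans k1, k2, k3.trans h3, ?_, fun x hx ↦ ?_, ?_⟩
      · rw [pow_succ, ← div_div]
        linarith
      · intro j hj
        simp only [List.length_append, List.length_singleton] at hj
        rcases Nat.lt_or_ge j w.length with g | g
        · rw [List.getElem_append_left g]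
          exact h5 x ⟨k1.trans hx.1, hx.2.trans k3⟩ j g
        · obtain rfl : j = w.length := by omega
          rw [List.getElem_append_right le_rfl]
          have := k5 x hx 0 (by simp)
          simpa using this
      · have e : (fun x ↦ (F.map a)^[(w ++ [Lt.p (.e c)]).length] (u x)) =
            fun x ↦ F.map a ((F.map a)^[w.length] (u x)) := by
          funext x
          rw [List.length_append, List.length_singleton, Function.iterate_succ_apply']
        rw [e]
        exact k6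
  obtain ⟨k, hk⟩ := pow_unbounded_of_one_lt ((be - al) / ε) one_lt_two
  obtain ⟨w, a0, b0, h1, h2, h3, h4, h5, h6⟩ := key k
  refine ⟨w, a0, b0, h1, h2, h3, h4.trans ?_, h5, h6⟩
  rw [div_lt_iff₀ hε] at hk
  rw [div_le_iff₀ (by positivity)]
  linarith

end Pool.Agent.WildW
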