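import Pool.Agent.Lib.MP_3dbc4a_an_WT.Copy
import Pool.Agent.Lib.MP_3dbc4a_an_WT.Shrink

/-!
# MP_3dbc4a_an, project W, block T: one step of the construction of the transitive point
-/

set_option autoImplicit false

open Filter Set
open scoped Topology

namespace Pool.Agent.WildW

private theorem step_h : 0 < h ∧ h ≤ 1 / 1000 := by
  refine ⟨h_pos, h_hi.trans ?_⟩
  norm_num

private theorem step_W (c : Lt) {x : ℝ} (hx : x ∈ c.W) : -(1 / 2) < x ∧ x < 7 / 2 := by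
  obtain ⟨h0, h1⟩ := step_h
  have h2 := W_bd c hx
  exact ⟨by linarith [h2.1], by linarith [h2.2]⟩

/-- `gam` crosses: `(gam x).1 = x`, `(gam x).2 = phi x` in a window -/
theorem st_base (F : Fam) {a : Fin 8 → ℝ} (ha : Cube a) :
    St F a (-(3 * h)) (3 + h / 2) 0 := by
  obtain ⟨h0, h1⟩ := step_h
  refine ⟨by linarith, le_rfl, le_rfl, le_rfl, le_rfl, ?_⟩
  intro x hx j hj
  obtain rfl : j = 0 := by omega
  exact step_W _ (phi_mem F ha ⟨by linarith [hx.1], by linarith [hx.2]⟩)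

theorem St.cr {F : Fam} {a : Fin 8 → ℝ} (ha : Cube a) {al be : ℝ} {n : ℕ} (hS : St F a al be n) :
    Cr (fun x => (F.map a)^[n] (gam F a x)) al be (-(3 * h)) := by
  obtain ⟨h0, h1⟩ := step_h
  refine ⟨hS.le, ?_, hS.lft, hS.rgt, ?_⟩
  · refine ((F.map_cont a).iterate n).comp_continuousOn ((gam_cont F ha).mono ?_)
    exact Icc_subset_Icc (by linarith [hS.lo]) (by linarith [hS.hi])
  · intro x hx
    have h2 := hS.bd x hx n le_rfl
    exact ⟨h2.1.le, h2.2.le⟩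

/-- bounds while a word is followed: `(f^j).2 = (f^(j-1)).1` is in a window (`W_bd`) -/
theorem bd_follow (F : Fam) (a : Fin 8 → ℝ) {z : ℝ × ℝ} {n : ℕ} {w : List Lt}
    (hz : ∀ j ≤ n, -(1 / 2) < ((F.map a)^[j] z).2 ∧ ((F.map a)^[j] z).2 < 7 / 2)
    (hw : Follow F a ((F.map a)^[n] z) w) :
    ∀ j ≤ n + w.length, -(1 / 2) < ((F.map a)^[j] z).2 ∧ ((F.map a)^[j] z).2 < 7 / 2 := by
  intro j hj
  rcases Nat.lt_or_ge n j with h1 | h1
  · obtain ⟨k, rfl⟩ : ∃ k, j = (k + n) + 1 := ⟨j - 1 - n, by omega⟩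
    have h2 := hw k (by omega)
    rw [Function.iterate_succ_apply', Fam.map_snd, Function.iterate_add_apply]
    exact step_W _ h2
  · exact hz j h1

private theorem step_plain (F : Fam) {a : Fin 8 → ℝ} (ha : Cube a) (L : ℕ) :
    Passes F a (List.replicate L (Lt.p (.e estar))) := by
  refine passes_plain F ha ⟨List.replicate L (.e estar), ?_, ?_, ?_⟩
  · rw [List.map_replicate]
  · refine List.isChain_replicate_of_rel L ?_
    rintro ⟨j, hj⟩
    exact absurd hj (by simp)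
  · intro c hc j hcj
    have h1 := List.mem_of_getLast? (l := List.replicate L (Pl.e estar)) (a := c) hc
    rw [List.mem_replicate] at h1
    rw [h1.2] at hcj
    exact absurd hcj (by simp)

private theorem step_L {δ : ℝ} (hδ : 0 < δ) : ∃ L : ℕ, 1 ≤ L ∧
    4 * ((1 : ℝ) / 2 ^ 119) ^ (L - 1) ≤ δ := by
  obtain ⟨K, hK⟩ := exists_pow_lt_of_lt_one (show (0 : ℝ) < δ / 4 by positivity)
    (show (1 : ℝ) / 2 ^ 119 < 1 by norm_num)
  refine ⟨K + 1, by omega, ?_⟩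
  rw [Nat.add_sub_cancel]
  linarith

private theorem step_estar : -(2 * h) ≤ (Pl.e estar).lo ∧ (Pl.e estar).hi ≤ 3 := by
  obtain ⟨h0, h1⟩ := step_h
  have h2 := lo_e_true 0
  have h3 : (((0 : Fin (2 ^ 14)) : ℕ) : ℝ) / 2 ^ 17 = 0 := by simp
  rw [h3] at h2
  have h4 : (1 : ℝ) / 2 ^ 18 ≤ 1 := by norm_num
  have h5 : Pl.e estar = Pl.e (true, 0) := rfl
  rw [h5]
  exact ⟨by linarith [h2.1], by linarith [h2.2]⟩

/-- **Step.** Proof. `δ` from `st_copy` (for `ε`), `L ≥ 1` with `4 * (2^-119)^(L-1) ≤ δ`.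
(1) `passes_plain` for `estar^L` and the path `f^n ∘ gam` (`St.cr`): `[a1, b1]`, the path
`v x = f^(n+L) (gam x)` crosses on it; put `m = n + L`.
(2) `sub_levels` for `(v x).1` with the levels `al ≤ be` (`al ≥ -3h`, `be ≤ 3 + h/2`): `[a2, b2]` with
`(v a2).1 = al`, `(v b2).1 = be`, `(v x).1 ∈ [al, be]`; `|(v x).2 - phi ((v x).1)| ≤ δ ≤ ε` by
`phi_close` (the orbit of `f^n (gam x)` follows `estar^L`).
(3) `st_copy`: the path `f^n ∘ v` has `(..a2).1 ≤ -2h`, `(..b2).1 ≥ 3`, and the second coordinates of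
`f^j (v x)`, `j ≤ n`, are in `(-1/2, 7/2)`. `letter_step` with `estar` (`estar` window in
`[1/5, 2]`: `lo_e_true`) gives `[a3, b3]` and `Cr` for `f^(m+n+1) ∘ gam`.
(4) `hw`: `[a4, b4]` following `w` at the time `m' = m + n + 1`; (5) `shrink` with `ε`: `[al', be']`,
`n' = m' + |w| + |w'|`. The bounds `bd` of `St`: `hS.bd`, `bd_follow` for `estar^L`, (3), `bd_follow`
for `estar`, `w`, `w'`. -/
theorem st_step (F : Fam) {a : Fin 8 → ℝ} (ha : Cube a) {al be : ℝ} {n : ℕ} (hS : St F a al be n)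
    {w : List Lt} (hw : Passes F a w) {ε : ℝ} (hε : 0 < ε) :
    ∃ (al' be' : ℝ) (n' m m' : ℕ), al ≤ al' ∧ be' ≤ be ∧ n < n' ∧ be' - al' ≤ ε ∧
      St F a al' be' n' ∧ n < m ∧ n < m' ∧ ∀ x ∈ Icc al' be',
        ((F.map a)^[m] (gam F a x)).1 ∈ Icc al be ∧
        |((F.map a)^[m] (gam F a x)).2 - phi F a ((F.map a)^[m] (gam F a x)).1| ≤ ε ∧
        Follow F a ((F.map a)^[m'] (gam F a x)) w := by
  obtain ⟨hh0, hh1⟩ := step_h
  obtain ⟨δ, hδ0, hδε, hcopy⟩ := st_copy F ha hS hε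
  obtain ⟨L, hL1, hL⟩ := step_L hδ0
  have hwrep : (List.replicate L (Lt.p (.e estar))).length = L := List.length_replicate
  -- (1)
  obtain ⟨a1, b1, hA1, hB1, hC1, hF1, hCr1⟩ := step_plain F ha L _ al be (hS.cr ha)
  rw [hwrep] at hCr1
  -- (2)
  obtain ⟨a2, b2, hA2, hB2, hC2, hal2, hbe2, hv2⟩ := sub_levels
    (D := fun x => ((F.map a)^[L] ((F.map a)^[n] (gam F a x))).1) hCr1.le hCr1.cont.fst hS.le
    (hCr1.lft.trans hS.lo) (hS.hi.trans hCr1.rgt)
  have hs12 : Icc a2 b2 ⊆ Icc a1 b1 := Icc_subset_Icc hA2 hC2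
  have hclose : ∀ x ∈ Icc a2 b2,
      |((F.map a)^[L] ((F.map a)^[n] (gam F a x))).2 -
        phi F a ((F.map a)^[L] ((F.map a)^[n] (gam F a x))).1| ≤ δ := by
    intro x hx
    have h1 := hv2 x hx
    refine (phi_close F ha hL1 (hF1 x (hs12 hx)) ?_).trans hL
    exact ⟨by linarith [h1.1, hS.lo], by linarith [h1.2, hS.hi]⟩
  -- (3)
  have h3 : ∀ x ∈ Icc a2 b2, ∀ j ≤ n,
      -(1 / 2) < ((F.map a)^[j] ((F.map a)^[L] ((F.map a)^[n] (gam F a x)))).2 ∧
        ((F.map a)^[j] ((F.map a)^[L] ((F.map a)^[n] (gam F a x)))).2 < 7 / 2 := fun x hx =>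
    (hcopy _ (hv2 x hx) _ (hclose x hx)).1
  have h3a : ((F.map a)^[n] ((F.map a)^[L] ((F.map a)^[n] (gam F a a2)))).1 ≤ -(2 * h) :=
    (hcopy _ (hv2 a2 ⟨le_rfl, hB2⟩) _ (hclose a2 ⟨le_rfl, hB2⟩)).2.1 hal2
  have h3b : 3 ≤ ((F.map a)^[n] ((F.map a)^[L] ((F.map a)^[n] (gam F a b2)))).1 :=
    (hcopy _ (hv2 b2 ⟨hB2, le_rfl⟩) _ (hclose b2 ⟨hB2, le_rfl⟩)).2.2 hbe2
  have hcont : ContinuousOn (fun x => (F.map a)^[n] ((F.map a)^[L] ((F.map a)^[n] (gam F a x))))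
      (Icc a2 b2) :=
    ((F.map_cont a).iterate n).comp_continuousOn (hCr1.cont.mono hs12)
  obtain ⟨a3, b3, hA3, hB3, hC3, hF3, hCr3⟩ := letter_step F ha (.e estar)
    (u := fun x => (F.map a)^[n] ((F.map a)^[L] ((F.map a)^[n] (gam F a x)))) hB2 hcont
    (h3a.trans step_estar.1) (step_estar.2.trans h3b)
    (fun x hx => ⟨(h3 x hx n le_rfl).1.le, (h3 x hx n le_rfl).2.le⟩)
  -- (4)
  obtain ⟨a4, b4, hA4, hB4, hC4, hF4, hCr4⟩ := hw _ a3 b3 hCr3
  -- (5)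
  obtain ⟨w', a5, b5, hA5, hB5, hC5, hlen, hF5, hCr5⟩ := shrink F ha hCr4 hε
  have e1 : ∀ z : ℝ × ℝ, (F.map a)^[L] ((F.map a)^[n] z) = (F.map a)^[L + n] z := fun z =>
    (Function.iterate_add_apply _ _ _ _).symm
  have e2 : ∀ z : ℝ × ℝ, F.map a ((F.map a)^[n] ((F.map a)^[L] ((F.map a)^[n] z))) =
      (F.map a)^[(n + (L + n)) + 1] z := fun z => by
    rw [Function.iterate_succ_apply', Function.iterate_add_apply, Function.iterate_add_apply]
  have e3 : ∀ z : ℝ × ℝ, (F.map a)^[w'.length] ((F.map a)^[w.length]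
      (F.map a ((F.map a)^[n] ((F.map a)^[L] ((F.map a)^[n] z))))) =
      (F.map a)^[w'.length + (w.length + ((n + (L + n)) + 1))] z := fun z => by
    rw [e2, Function.iterate_add_apply (F.map a) w'.length,
      Function.iterate_add_apply (F.map a) w.length]
  have s5 : ∀ x ∈ Icc a5 b5, x ∈ Icc a4 b4 := fun x hx => ⟨hA5.trans hx.1, hx.2.trans hC5⟩
  have s4 : ∀ x ∈ Icc a5 b5, x ∈ Icc a3 b3 := fun x hx =>
    ⟨hA4.trans (s5 x hx).1, (s5 x hx).2.trans hC4⟩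
  have s3 : ∀ x ∈ Icc a5 b5, x ∈ Icc a2 b2 := fun x hx =>
    ⟨hA3.trans (s4 x hx).1, (s4 x hx).2.trans hC3⟩
  have s2 : ∀ x ∈ Icc a5 b5, x ∈ Icc a1 b1 := fun x hx => hs12 (s3 x hx)
  have s1 : ∀ x ∈ Icc a5 b5, x ∈ Icc al be := fun x hx =>
    ⟨hA1.trans (s2 x hx).1, (s2 x hx).2.trans hC1⟩
  have m5 : a5 ∈ Icc a5 b5 := ⟨le_rfl, hB5⟩
  have m5' : b5 ∈ Icc a5 b5 := ⟨hB5, le_rfl⟩
  refine ⟨a5, b5, w'.length + (w.length + ((n + (L + n)) + 1)), L + n, (n + (L + n)) + 1,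
    (s1 a5 m5).1, (s1 b5 m5').2, by omega, hlen, ?_, by omega, by omega, ?_⟩
  · refine ⟨hB5, hS.lo.trans (s1 a5 m5).1, (s1 b5 m5').2.trans hS.hi, ?_, ?_, ?_⟩
    · have := hCr5.lft
      rwa [e3] at this
    · have := hCr5.rgt
      rwa [e3] at this
    · intro x hx
      have g1 := hS.bd x (s1 x hx)
      have g2 := bd_follow F a g1 (hF1 x (s2 x hx))
      rw [hwrep] at g2
      have g3 : ∀ j ≤ n + (L + n), -(1 / 2) < ((F.map a)^[j] (gam F a x)).2 ∧
          ((F.map a)^[j] (gam F a x)).2 < 7 / 2 := by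
        intro j hj
        rcases Nat.lt_or_ge (n + L) j with h1 | h1
        · obtain ⟨k, rfl⟩ : ∃ k, j = k + (L + n) := ⟨j - (L + n), by omega⟩
          rw [Function.iterate_add_apply, ← e1]
          exact h3 x (s3 x hx) k (by omega)
        · exact g2 j h1
      have g4 : ∀ j ≤ (n + (L + n)) + 1, -(1 / 2) < ((F.map a)^[j] (gam F a x)).2 ∧
          ((F.map a)^[j] (gam F a x)).2 < 7 / 2 := by
        intro j hj
        rcases Nat.lt_or_ge (n + (L + n)) j with h1 | h1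
        · obtain rfl : j = (n + (L + n)) + 1 := by omega
          rw [Function.iterate_succ_apply', Fam.map_snd, Function.iterate_add_apply, ← e1]
          exact step_W _ (hF3 x (s4 x hx))
        · exact g3 j h1
      have g5 := bd_follow F a g4 (w := w) (by
        rw [← e2]
        exact hF4 x (s5 x hx))
      have e4 : ((n + (L + n)) + 1) + w.length = w.length + ((n + (L + n)) + 1) :=
        Nat.add_comm _ _
      rw [e4] at g5
      have g6 := bd_follow F a g5 (w := w') (by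
        rw [Function.iterate_add_apply, ← e2]
        exact hF5 x hx)
      intro j hj
      exact g6 j (by omega)
  · intro x hx
    rw [← e1, ← e2]
    exact ⟨hv2 x (s3 x hx), (hclose x (s3 x hx)).trans hδε, hF4 x (s5 x hx)⟩

end Pool.Agent.WildW
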