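import Pool.Agent.Lib.MP_3dbc4a_an_WT.Om
import Pool.Agent.Lib.MP_3dbc4a_an_WT.Step

/-!
# MP_3dbc4a_an, project W, block T: the transitive point
-/

set_option autoImplicit false

open Filter Set
open scoped Topology

namespace Pool.Agent.WildW

open Pool.Agent.Wild

/-- One step of the recursion. -/
private def RecR (F : Fam) (a : Fin 8 → ℝ) (tgt : ℕ → List Lt) (k : ℕ) (s s' : ℝ × ℝ × ℕ) :
    Prop :=
  s.1 ≤ s'.1 ∧ s'.2.1 ≤ s.2.1 ∧ s.2.2 < s'.2.2 ∧ s'.2.1 - s'.1 ≤ 1 / ((k : ℝ) + 1) ∧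
    ∃ m m' : ℕ, s.2.2 < m ∧ s.2.2 < m' ∧ ∀ x ∈ Icc s'.1 s'.2.1,
      ((F.map a)^[m] (gam F a x)).1 ∈ Icc s.1 s.2.1 ∧
      |((F.map a)^[m] (gam F a x)).2 - phi F a ((F.map a)^[m] (gam F a x)).1| ≤
        1 / ((k : ℝ) + 1) ∧
      Follow F a ((F.map a)^[m'] (gam F a x)) (tgt k)

private theorem rec_ex (F : Fam) {a : Fin 8 → ℝ} (ha : Cube a) (tgt : ℕ → List Lt)
    (ht : ∀ k, Passes F a (tgt k)) :
    ∃ s : ℕ → ℝ × ℝ × ℕ, (∀ k, St F a (s k).1 (s k).2.1 (s k).2.2) ∧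
      ∀ k, RecR F a tgt k (s k) (s (k + 1)) := by
  have hex : ∀ (k : ℕ) (s : {s : ℝ × ℝ × ℕ // St F a s.1 s.2.1 s.2.2}),
      ∃ s' : {s : ℝ × ℝ × ℕ // St F a s.1 s.2.1 s.2.2}, RecR F a tgt k s.1 s'.1 := by
    intro k s
    obtain ⟨al', be', n', m, m', h1, h2, h3, h4, h5, h6, h7, h8⟩ :=
      st_step F ha s.2 (ht k) (ε := 1 / ((k : ℝ) + 1)) (by positivity)
    exact ⟨⟨(al', be', n'), h5⟩, h1, h2, h3, h4, m, m', h6, h7, h8⟩
  choose nxt hnxt using hex
  set q : ℕ → {s : ℝ × ℝ × ℕ // St F a s.1 s.2.1 s.2.2} := fun k =>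
    Nat.rec ⟨(-(3 * h), 3 + h / 2, 0), st_base F ha⟩ (fun k s => nxt k s) k with hq
  refine ⟨fun k => (q k).1, fun k => (q k).2, fun k => ?_⟩
  exact hnxt k (q k)

/-- **The recursion.** `tgt k` are words that pass. States `(al_k, be_k, n_k)` with `St`, from
`st_base` by `st_step` with `w = tgt k`, `ε = 1/(k+1)` (dependent choice on the subtype). Nested compact
intervals have a common point `x`; `z = gam x`. `n_k ≥ k`, `m_k > n_k`, `m'_k > n_k`. Positions: `bd` of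
`St` for `n_k → ∞`. `z ∈ ω(z)`: at the times `m_k` the first coordinate is in `[al_k, be_k]`, so within
`be_k - al_k ≤ 1/k` of `x`, and the second one within `1/(k+1)` of `phi (first coordinate)`, which is
within `1/k` of `phi x` (`phi_lip`). -/
theorem exists_z_aux (F : Fam) {a : Fin 8 → ℝ} (ha : Cube a) (tgt : ℕ → List Lt)
    (ht : ∀ k, Passes F a (tgt k)) :
    ∃ z : ℝ × ℝ, (∀ j, -(1 / 2) ≤ ((F.map a)^[j] z).2 ∧ ((F.map a)^[j] z).2 ≤ 7 / 2) ∧
      z ∈ omegaSet (F.map a) z ∧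
      ∀ k, ∃ m, k ≤ m ∧ Follow F a ((F.map a)^[m] z) (tgt k) := by
  obtain ⟨s, hs, hR⟩ := rec_ex F ha tgt ht
  have hmono : Monotone fun k => (s k).1 := monotone_nat_of_le_succ fun k => (hR k).1
  have hanti : Antitone fun k => (s k).2.1 := antitone_nat_of_succ_le fun k => (hR k).2.1
  have hn : ∀ k, k ≤ (s k).2.2 := by
    intro k
    induction k with
    | zero => exact Nat.zero_le _
    | succ k ih =>
      have h1 := (hR k).2.2.1
      omega
  have hx0 := hmono.ciSup_mem_iInter_Icc_of_antitone hanti fun k => (hs k).le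
  set x : ℝ := ⨆ k, (s k).1 with hxdef
  have hx : ∀ k, x ∈ Icc (s k).1 (s k).2.1 := fun k => mem_iInter.1 hx0 k
  have hh := h_pos
  refine ⟨gam F a x, fun j => ?_, ?_, fun k => ?_⟩
  · have h1 := (hs j).bd x (hx j) j (hn j)
    exact ⟨h1.1.le, h1.2.le⟩
  · rw [mem_omega_iff]
    intro ε hε N
    obtain ⟨k, hk⟩ := exists_nat_gt (2 / ε)
    set K : ℕ := max k N with hK
    obtain ⟨-, -, -, -, m, m', hm, -, hf⟩ := hR (K + 1)
    obtain ⟨h1, h2, -⟩ := hf x (hx (K + 2))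
    set y := ((F.map a)^[m] (gam F a x)).1 with hy
    have hlen : (s (K + 1)).2.1 - (s (K + 1)).1 ≤ 1 / ((K : ℝ) + 1) := (hR K).2.2.2.1
    have hxK := hx (K + 1)
    have hxy : |y - x| ≤ 1 / ((K : ℝ) + 1) := by
      rw [abs_le]
      constructor
      · linarith [h1.1, h1.2, hxK.1, hxK.2]
      · linarith [h1.1, h1.2, hxK.1, hxK.2]
    have hlo := (hs (K + 1)).lo
    have hhi := (hs (K + 1)).hi
    have hmem : ∀ t ∈ Icc (s (K + 1)).1 (s (K + 1)).2.1, t ∈ Icc (-(4 * h)) (3 + h) := by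
      intro t ht
      exact ⟨by linarith [ht.1], by linarith [ht.2]⟩
    have hphi := phi_lip F ha (hmem y h1) (hmem x hxK)
    have hKk : (k : ℝ) ≤ K := by exact_mod_cast le_max_left k N
    have hk1 : 2 / ((K : ℝ) + 1) < ε := by
      rw [div_lt_iff₀ (by positivity)]
      rw [div_lt_iff₀ hε] at hk
      nlinarith
    have hc : 1 / (((K + 1 : ℕ) : ℝ) + 1) ≤ 1 / ((K : ℝ) + 1) := by
      refine one_div_le_one_div_of_le (by positivity) ?_
      push_cast
      linarith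
    refine ⟨m, ?_, ?_⟩
    · have h3 := hn (K + 1)
      have h4 : N ≤ K := le_max_right k N
      omega
    · rw [Prod.dist_eq, max_lt_iff]
      have h5 : 2 / ((K : ℝ) + 1) = 1 / ((K : ℝ) + 1) + 1 / ((K : ℝ) + 1) := by ring
      have h6 : 0 < 1 / ((K : ℝ) + 1) := by positivity
      constructor
      · rw [Real.dist_eq]
        show |y - x| < ε
        linarith
      · rw [Real.dist_eq]
        show |((F.map a)^[m] (gam F a x)).2 - phi F a x| < ε
        have h7 := abs_sub_le ((F.map a)^[m] (gam F a x)).2 (phi F a y) (phi F a x)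
        linarith
  · obtain ⟨-, -, -, -, m, m', -, hm', hf⟩ := hR k
    have h1 := hn k
    exact ⟨m', by omega, (hf x (hx (k + 1))).2.2⟩

end Pool.Agent.WildW
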