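import Pool.Agent.Lib.MP_3dbc4a_an_WT.Cmp

/-!
# MP_3dbc4a_an, project W, block T: Taylor at plain letters and at folds
-/

set_option autoImplicit false

open Filter Set
open scoped Topology

namespace Pool.Agent.WildW

/-- Taylor at a plain letter: `|P2| ≤ eps` on the window (`pl2`). -/
theorem taylor_plain (F : Fam) {a : Fin 8 → ℝ} (ha : Cube a) (c : Pl) {x y : ℝ}
    (hx : x ∈ (Lt.p c).W) (hy : y ∈ (Lt.p c).W) :
    |F.P a y - F.P a x - F.P1 a x * (y - x)| ≤ eps * (y - x) ^ 2 := by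
  obtain ⟨q, h1, h2, -⟩ := OB.dd_pl F ha c hx hy
  have h3 : F.P a y - F.P a x - F.P1 a x * (y - x) = (q - F.P1 a x) * (y - x) := by
    linear_combination -h1
  rw [h3, abs_mul]
  calc |q - F.P1 a x| * |y - x| ≤ eps * |x - y| * |y - x| :=
        mul_le_mul_of_nonneg_right h2 (abs_nonneg _)
    _ = eps * (|y - x| * |y - x|) := by rw [abs_sub_comm x y]; ring
    _ = eps * (y - x) ^ 2 := by rw [abs_mul_abs_self]; ring

private theorem mvt_gen {f f' : ℝ → ℝ} (hf : ∀ x, HasDerivAt f (f' x) x) (x y : ℝ) :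
    ∃ z ∈ uIcc x y, f x - f y = f' z * (x - y) := by
  rcases lt_trichotomy x y with h1 | h1 | h1
  · obtain ⟨z, hz, hz2⟩ := exists_hasDerivAt_eq_slope f f' h1
      (fun t _ => (hf t).continuousAt.continuousWithinAt) (fun t _ => hf t)
    refine ⟨z, ?_, ?_⟩
    · rw [uIcc_of_le h1.le]
      exact Ioo_subset_Icc_self hz
    · have h2 : y - x ≠ 0 := by
        intro h3
        linarith
      rw [hz2]
      field_simp
      ring
  · subst h1
    exact ⟨x, by simp, by ring⟩
  · obtain ⟨z, hz, hz2⟩ := exists_hasDerivAt_eq_slope f f' h1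
      (fun t _ => (hf t).continuousAt.continuousWithinAt) (fun t _ => hf t)
    refine ⟨z, ?_, ?_⟩
    · rw [uIcc_of_ge h1.le]
      exact Ioo_subset_Icc_self hz
    · have h2 : x - y ≠ 0 := by
        intro h3
        linarith
      rw [hz2]
      field_simp

/-- Taylor at a fold: `|P2 + 2^21| ≤ eps` on the window (`fo2`). -/
theorem taylor_fold (F : Fam) {a : Fin 8 → ℝ} (ha : Cube a) (i : Fin 8) {x y : ℝ}
    (hx : x ∈ (Lt.d i).W) (hy : y ∈ (Lt.d i).W) :
    (2 ^ 20 - 1) * (y - x) ^ 2 ≤ |F.P a y - F.P a x - F.P1 a x * (y - x)| := by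
  have hd : ∀ t, HasDerivAt (fun t => F.P a t - F.P1 a x * (t - x) + (2 ^ 20 - 1) * (t - x) ^ 2)
      (F.P1 a t - F.P1 a x * 1 + (2 ^ 20 - 1) * (2 * (t - x))) t := by
    intro t
    have h1 : HasDerivAt (fun t : ℝ => t - x) 1 t := (hasDerivAt_id t).sub_const x
    have h2 : HasDerivAt (fun t : ℝ => (t - x) ^ 2) (2 * (t - x)) t := by
      have h3 := h1.mul h1
      have h4 : (fun t : ℝ => (t - x) ^ 2) = (fun t : ℝ => t - x) * fun t : ℝ => t - x := by
        funext t
        show (t - x) ^ 2 = (t - x) * (t - x)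
        ring
      rw [h4]
      exact h3.congr_deriv (by ring)
    exact ((F.hP a t).sub (h1.const_mul _)).add (h2.const_mul _)
  obtain ⟨z, hz, hz2⟩ := mvt_gen hd x y
  have hzW : z ∈ (Lt.d i).W := OB.W_uIcc hx hy hz
  obtain ⟨w, hw, hw2⟩ := OB.mvt_P1 F a z x
  have hwW : w ∈ (Lt.d i).W := OB.W_uIcc hzW hx hw
  have h3 := (abs_le.1 (F.fo2 a ha i w (OB.W_sub_Wp _ hwW))).2
  have h4 := cmp_eps
  have h5 : 0 ≤ (z - x) * (y - x) := by
    rcases le_total x y with h | h
    · rw [uIcc_of_le h] at hz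
      exact mul_nonneg (by linarith [hz.1]) (by linarith)
    · rw [uIcc_of_ge h] at hz
      exact mul_nonneg_of_nonpos_of_nonpos (by linarith [hz.2]) (by linarith)
  have h6 : F.P1 a z - F.P1 a x * 1 + (2 ^ 20 - 1) * (2 * (z - x)) =
      (F.P2 a w + 2 ^ 21 - 2) * (z - x) := by
    linear_combination hw2
  simp only [sub_self, mul_zero, ne_eq, OfNat.ofNat_ne_zero, not_false_eq_true, zero_pow,
    add_zero, sub_zero] at hz2
  rw [h6] at hz2
  have h7 : F.P a y - F.P a x - F.P1 a x * (y - x) =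
      -((2 ^ 20 - 1) * (y - x) ^ 2) + (F.P2 a w + 2 ^ 21 - 2) * ((z - x) * (y - x)) := by
    linear_combination -hz2
  have h8 : (F.P2 a w + 2 ^ 21 - 2) * ((z - x) * (y - x)) ≤ 0 :=
    mul_nonpos_of_nonpos_of_nonneg (by linarith) h5
  rw [h7]
  refine le_trans ?_ (neg_le_abs _)
  linarith

end Pool.Agent.WildW
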